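import Pool.Agent.Lib.MP_688fd0_co.SQ5.H12.Clu

/-!
FT (threads over far bases), the clusters (helper62): `Cls Adj S`: the regions of `S` are connected by triples of pairs of ports.
`Thr`: the ports of the entries and the exits of the visits of a thread which runs three times through all cosets.
`Thr.clu`: if the regions of every coset are a cluster then all regions are a cluster, and the arc with the fictitious edge and the
arc of the neighbour are not used.
-/

set_option autoImplicit false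

namespace Pool.Agent.Lib.MP_688fd0_co.SQ5.FT

open Function Relation
open Pool.Agent.Lib.MP_688fd0_co.SQ4.H49
open Pool.Agent.Lib.MP_688fd0_co.SQ5.H12

universe u v w

variable {R : Type v} {P : R → Type u}

/-- Three different ports of `S` joined with ports of `T`. -/
def Tri3 (Adj : (Σ r, P r) → (Σ r, P r) → Prop) (S T : Set R) : Prop :=
  ∃ p : Fin 3 → Σ r, P r, Injective p ∧ ∀ l, (p l).1 ∈ S ∧ ∃ q : Σ r, P r, q.1 ∈ T ∧ Adj (p l) q

/-- Sets of regions which are connected by triples of pairs of ports. -/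
inductive Cls (Adj : (Σ r, P r) → (Σ r, P r) → Prop) : Set R → Prop
  | one (r : R) : Cls Adj {r}
  | join {S T : Set R} : Cls Adj S → Cls Adj T → Disjoint S T → Tri3 Adj S T → Cls Adj (S ∪ T)

theorem Cls.mono {Adj Adj' : (Σ r, P r) → (Σ r, P r) → Prop} (hA : ∀ p q, Adj p q → Adj' p q) {S : Set R}
    (h : Cls Adj S) : Cls Adj' S := by
  induction h with
  | one r => exact Cls.one r
  | join _ _ hd h3 ih₁ ih₂ =>
    obtain ⟨p, hp, hp'⟩ := h3
    exact Cls.join ih₁ ih₂ hd ⟨p, hp, fun l => ⟨(hp' l).1, by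
      obtain ⟨q, hq, ha⟩ := (hp' l).2
      exact ⟨q, hq, hA _ _ ha⟩⟩⟩

/-- Finitely many disjoint clusters, connected by triples. -/
theorem Cls.iUnion {Adj : (Σ r, P r) → (Σ r, P r) → Prop} {ι : Type*} [Finite ι] {S : ι → Set R}
    (h : ∀ i, Cls Adj (S i)) (hd : Pairwise (Disjoint on S)) (i₀ : ι)
    (hconn : ∀ i, ReflTransGen (fun i j => Tri3 Adj (S i) (S j)) i₀ i) : Cls Adj (⋃ i, S i) := by
  classical
  let 𝒰 : Set (Set ι) := {U | i₀ ∈ U ∧ Cls Adj (⋃ i ∈ U, S i)}
  have hne : 𝒰.Nonempty := by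
    refine ⟨{i₀}, rfl, ?_⟩
    have : (⋃ i ∈ ({i₀} : Set ι), S i) = S i₀ := by simp
    rw [this]
    exact h i₀
  obtain ⟨U, hU⟩ := Set.Finite.exists_maximal (Set.toFinite 𝒰) hne
  obtain ⟨hi₀, hJ⟩ := hU.1
  have huniv : ∀ j, j ∈ U := by
    by_contra hcon
    push Not at hcon
    obtain ⟨j, hj⟩ := hcon
    obtain ⟨a, ha, b, hb, hab⟩ : ∃ a ∈ U, ∃ b, b ∉ U ∧ Tri3 Adj (S a) (S b) := by
      have h1 := hconn j
      induction h1 with
      | refl => exact absurd hi₀ hj
      | @tail b c _ hbc ih =>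
        by_cases hb : b ∈ U
        · exact ⟨b, hb, c, hj, hbc⟩
        · exact ih hb
    obtain ⟨p, hp, hp'⟩ := hab
    have hdis : Disjoint (⋃ i ∈ U, S i) (S b) := by
      rw [Set.disjoint_left]
      intro x hx hxb
      simp only [Set.mem_iUnion] at hx
      obtain ⟨i, hi, hxi⟩ := hx
      have hne : i ≠ b := fun h => hb (h ▸ hi)
      exact Set.disjoint_left.1 (hd hne) hxi hxb
    have h2 := Cls.join hJ (h b) hdis ⟨p, hp, fun l => ⟨Set.mem_biUnion ha (hp' l).1, (hp' l).2⟩⟩
    have h3 : insert b U ∈ 𝒰 := by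
      refine ⟨Or.inr hi₀, ?_⟩
      have : (⋃ i ∈ insert b U, S i) = (⋃ i ∈ U, S i) ∪ S b := by
        rw [Set.biUnion_insert, Set.union_comm]
      rw [this]
      exact h2
    have h4 : insert b U ⊆ U := hU.2 h3 (Set.subset_insert _ _)
    exact hb (h4 (Set.mem_insert _ _))
  have : (⋃ i, S i) = ⋃ i ∈ U, S i := by
    ext x
    simp only [Set.mem_iUnion]
    exact ⟨fun ⟨i, hi⟩ => ⟨i, huniv i, hi⟩, fun ⟨i, _, hi⟩ => ⟨i, hi⟩⟩
  rw [this]
  exact hJ

/-- The single regions, connected by triples. -/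
theorem Cls.of_regions {Adj : (Σ r, P r) → (Σ r, P r) → Prop} [Finite R] {S : Set R} (r₀ : R) (hr₀ : r₀ ∈ S)
    (hconn : ∀ r ∈ S, ReflTransGen (fun r r' => r ∈ S ∧ r' ∈ S ∧ Tri3 Adj {r} {r'}) r₀ r) : Cls Adj S := by
  classical
  have h1 := Cls.iUnion (Adj := Adj) (ι := S) (S := fun r => ({r.1} : Set R)) (fun r => Cls.one r.1)
    (fun r r' h => Set.disjoint_singleton.2 fun h' => h (Subtype.ext h')) ⟨r₀, hr₀⟩ (fun r => by
      have h2 := hconn r.1 r.2
      obtain ⟨r, hr⟩ := r
      have key : ∀ r, ReflTransGen (fun r r' => r ∈ S ∧ r' ∈ S ∧ Tri3 Adj {r} {r'}) r₀ r → ∀ hr : r ∈ S,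
          ReflTransGen (fun i j : S => Tri3 Adj {i.1} {j.1}) ⟨r₀, hr₀⟩ ⟨r, hr⟩ := by
        intro r h3
        induction h3 with
        | refl => intro _; exact ReflTransGen.refl
        | @tail b c _ hs ih => intro hc; exact (ih hs.1).tail hs.2.2
      exact key r h2 hr)
  have h3 : (⋃ r : S, ({r.1} : Set R)) = S := by
    ext x
    simp
  rwa [h3] at h1

variable {out : (Σ r, P r) → Σ r, P r} {K : ∀ r, Set (P r → P r)}

/-- Clusters in the sense of helper12. -/
theorem Cls.clu [Finite (Σ r, P r)] (ho : Inv out) (hone : ∀ r, Clu out K {r} ∅)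
    {Adj : (Σ r, P r) → (Σ r, P r) → Prop} {X : Set (Σ r, P r)}
    (hA : ∀ p q, Adj p q → out p = q ∧ p ∉ X ∧ q ∉ X) {S : Set R} (h : Cls Adj S) :
    ∃ J, Clu out K S J ∧ Disjoint J X := by
  induction h with
  | one r => exact ⟨∅, hone r, Set.empty_disjoint _⟩
  | @join S T _ _ hd h3 ih₁ ih₂ =>
    obtain ⟨p, hp, hp'⟩ := h3
    obtain ⟨J₁, h₁, hX₁⟩ := ih₁
    obtain ⟨J₂, h₂, hX₂⟩ := ih₂
    have hq : ∀ l, (out (p l)).1 ∈ T ∧ p l ∉ X ∧ out (p l) ∉ X := by
      intro l
      obtain ⟨q, hq, ha⟩ := (hp' l).2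
      obtain ⟨h4, h5, h6⟩ := hA _ _ ha
      rw [h4]
      exact ⟨hq, h5, h6⟩
    refine ⟨used J₁ J₂ out p, Clu.join ho h₁ h₂ hd p hp (fun l => (hp' l).1) fun l => (hq l).1, ?_⟩
    rw [Set.disjoint_left]
    rintro x ((hx | hx) | (⟨l, rfl⟩ | ⟨l, rfl⟩)) hxX
    · exact Set.disjoint_left.1 hX₁ hx hxX
    · exact Set.disjoint_left.1 hX₂ hx hxX
    · exact (hq l).2.1 hxX
    · exact (hq l).2.2 hxX

/-! ### The thread -/

/-- The ports of the visits `0 .. 3 m - 1` of a thread; `zn` = the zone of a port; `z` = the port of the entry of the next visit. -/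
structure Thr {Ξ : Type*} (out : (Σ r, P r) → Σ r, P r) (ξ : R → Ξ) (zn : (Σ r, P r) → Option ℕ) (m : ℕ) where
  χ : ℕ → Ξ
  y : ℕ → Σ r, P r
  e : ℕ → Σ r, P r
  z : Σ r, P r
  m2 : 2 ≤ m
  per : ∀ i, χ (i + m) = χ i
  all : ∀ c, ∃ i < m, χ i = c
  ye : ∀ i, i + 1 < 3 * m → out (y i) = e (i + 1)
  last : out (y (3 * m - 1)) = e 0
  ξy : ∀ i < 3 * m, ξ (y i).1 = χ i
  ξe : ∀ i < 3 * m, ξ (e i).1 = χ i
  zy : ∀ i < 3 * m, zn (y i) = some i
  ze : ∀ i < 3 * m, zn (e i) = some i
  zz : zn z = some (3 * m)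

namespace Thr

variable {Ξ : Type*} {ξ : R → Ξ} {zn : (Σ r, P r) → Option ℕ} {m : ℕ}

theorem per' (t : Thr out ξ zn m) (i l : ℕ) : t.χ (i + l * m) = t.χ i := by
  induction l with
  | zero => simp
  | succ l ih =>
    have e : i + (l + 1) * m = i + l * m + m := by ring
    rw [e, t.per, ih]

/-- THE CLUSTER OF ALL REGIONS. -/
theorem clu [Finite (Σ r, P r)] (ho : Inv out) (hone : ∀ r, Clu out K {r} ∅) (t : Thr out ξ zn m)
    {Adj : (Σ r, P r) → (Σ r, P r) → Prop} (hA : ∀ p q, Adj p q → out p = q ∧ zn p = none ∧ zn q = none)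
    (hin : ∀ c, Cls Adj {r | ξ r = c}) :
    ∃ J, Clu out K Set.univ J ∧ t.y (3 * m - 1) ∉ J ∧ t.z ∉ J ∧ t.z ≠ t.y (3 * m - 1) ∧ t.z ≠ out (t.y (3 * m - 1)) := by
  classical
  have hm := t.m2
  have hz0 : t.z ≠ t.y (3 * m - 1) := by
    intro h
    have h1 := t.zz
    rw [h, t.zy _ (by omega)] at h1
    have := Option.some_injective _ h1
    omega
  have hz1 : t.z ≠ out (t.y (3 * m - 1)) := by
    intro h
    have h1 := t.zz
    rw [h, t.last, t.ze _ (by omega)] at h1
    have := Option.some_injective _ h1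
    omega
  -- the relation
  let X : Set (Σ r, P r) := {t.y (3 * m - 1), t.z}
  let Adj' : (Σ r, P r) → (Σ r, P r) → Prop := fun p q => out p = q ∧ p ∉ X ∧ q ∉ X
  have hAA : ∀ p q, Adj p q → Adj' p q := by
    intro p q h
    obtain ⟨h1, h2, h3⟩ := hA p q h
    have key : ∀ p, zn p = none → p ∉ X := by
      rintro p hp (h4 | h4)
      · rw [h4, t.zy _ (by omega)] at hp
        exact absurd hp (by simp)
      · rw [h4, t.zz] at hp
        exact absurd hp (by simp)
    exact ⟨h1, key p h2, key q h3⟩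
  -- thread arcs
  have hthr : ∀ i, i + 1 < 3 * m → Adj' (t.y i) (t.e (i + 1)) := by
    intro i hi
    refine ⟨t.ye i (by omega), ?_, ?_⟩
    · rintro (h | h)
      · have h1 := t.zy i (by omega)
        rw [h, t.zy _ (by omega)] at h1
        have := Option.some_injective _ h1
        omega
      · have h1 := t.zy i (by omega)
        rw [h, t.zz] at h1
        have := Option.some_injective _ h1
        omega
    · rintro (h | h)
      · -- the other ends are different
        have h1 := congrArg out h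
        rw [← t.ye i (by omega), (ho _).1, t.last] at h1
        have h2 := t.zy i (by omega)
        rw [h1, t.ze 0 (by omega)] at h2
        have h3 := Option.some_injective _ h2
        have h4 := t.ze (i + 1) (by omega)
        rw [h, t.zy _ (by omega)] at h4
        have := Option.some_injective _ h4
        omega
      · have h1 := t.ze (i + 1) (by omega)
        rw [h, t.zz] at h1
        have := Option.some_injective _ h1
        omega
  have hS : ∀ i, i + 1 < m → Tri3 Adj' {r | ξ r = t.χ i} {r | ξ r = t.χ (i + 1)} := by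
    intro i hi
    have hb : ∀ l : Fin 3, i + l.1 * m + 1 < 3 * m := by
      intro l
      have h1 : l.1 ≤ 2 := by have := l.2; omega
      have h2 : l.1 * m ≤ 2 * m := Nat.mul_le_mul_right _ h1
      omega
    refine ⟨fun l => t.y (i + l.1 * m), ?_, ?_⟩
    · intro l l' h
      have h1 : t.y (i + l.1 * m) = t.y (i + l'.1 * m) := h
      have h2 := t.zy (i + l.1 * m) (by have := hb l; omega)
      rw [h1, t.zy _ (by have := hb l'; omega)] at h2
      have h3 := Option.some_injective _ h2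
      have h4 : l'.1 * m = l.1 * m := by omega
      exact Fin.ext (Nat.eq_of_mul_eq_mul_right (by omega) h4).symm
    · intro l
      refine ⟨?_, t.e (i + l.1 * m + 1), ?_, hthr _ (hb l)⟩
      · show ξ (t.y (i + l.1 * m)).1 = _
        rw [t.ξy _ (by have := hb l; omega), t.per']
      · show ξ (t.e (i + l.1 * m + 1)).1 = _
        rw [t.ξe _ (by have := hb l; omega), show i + l.1 * m + 1 = i + 1 + l.1 * m by ring, t.per']
  -- all cosets
  have hfin : Finite Ξ := by
    refine Finite.of_surjective (fun i : Fin m => t.χ i.1) fun c => ?_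
    obtain ⟨i, hi, h⟩ := t.all c
    exact ⟨⟨i, hi⟩, h⟩
  have hreach : ∀ i < m, ReflTransGen (fun c c' : Ξ => Tri3 Adj' {r | ξ r = c} {r | ξ r = c'}) (t.χ 0) (t.χ i) := by
    intro i
    induction i with
    | zero => intro _; exact ReflTransGen.refl
    | succ i ih => intro hi; exact (ih (by omega)).tail (hS i hi)
  have hcls : Cls Adj' (⋃ c : Ξ, {r | ξ r = c}) := by
    refine Cls.iUnion (fun c => (hin c).mono hAA) ?_ (t.χ 0) ?_
    · intro c c' hcc
      show Disjoint {r | ξ r = c} {r | ξ r = c'}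
      rw [Set.disjoint_left]
      intro r hr hr'
      exact hcc (Eq.trans (Eq.symm hr) hr')
    · intro c
      obtain ⟨i, hi, rfl⟩ := t.all c
      exact hreach i hi
  have huniv : (⋃ c : Ξ, {r | ξ r = c}) = Set.univ := by
    ext r
    simp
  rw [huniv] at hcls
  obtain ⟨J, hJ, hJX⟩ := hcls.clu ho hone (X := X) fun p q h => h
  refine ⟨J, hJ, fun h => Set.disjoint_left.1 hJX h (Or.inl rfl), fun h => Set.disjoint_left.1 hJX h (Or.inr rfl), hz0, hz1⟩

end Thr

end Pool.Agent.Lib.MP_688fd0_co.SQ5.FT
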