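import Pool.Agent.Lib.MP_688fd0_co.SQ5.FT.Data
import Pool.Agent.Lib.MP_688fd0_co.SQ5.FT.Core
import Pool.Agent.Lib.MP_688fd0_co.SQ5.H12.Patch

/-!
FT, assembly A (helper62): the charts of a changed 2-factor; bands on given places of the runs, every strand is active in all
bands of its orbit.
-/

set_option autoImplicit false

namespace Pool.Agent.Lib.MP_688fd0_co.SQ5.FT

open Function Pool.Agent.Lib.MP_688fd0_co.OSF H64 H95

universe u v w t

section chg

variable {G : Type u} [Group G] {B : Lb.{u, v} G} {F F' : HF B} {R : Type w} {S : R → Type t} {n : R → ℕ}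

/-- The charts for a changed 2-factor. -/
def chg (X : Rgs F R S n) {T : Set G} (off : ∀ x, x ∉ T → F'.H x = F.H x)
    (hT : ∀ r m (s : S r) i, m ≤ n r * (X.l r + 1) → i ≤ (X.C r).h m s → (X.C r).Z m s i ∉ T) : Rgs F' R S n where
  C := X.C
  l := X.l
  hl := X.hl
  hn := X.hn
  run r := ⟨(X.run r).hpos, (X.run r).inj,
    fun m s i hm hi => H12.ed_of off ((X.run r).line m s i hm hi) (Or.inl (hT r m s i hm hi.le)),
    fun m s hm => H12.ed_of off ((X.run r).gate m s hm) (Or.inl (hT r m s _ hm.le le_rfl))⟩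
  far := X.far

theorem chg_realL (X : Rgs F R S n) {T : Set G} (off : ∀ x, x ∉ T → F'.H x = F.H x)
    (hT : ∀ r m (s : S r) i, m ≤ n r * (X.l r + 1) → i ≤ (X.C r).h m s → (X.C r).Z m s i ∉ T) {A : Set G}
    {𝒟 : ∀ r, Set (S r × Bool → S r × Bool)} (h : X.RealL A 𝒟) : (chg X off hT).RealL A 𝒟 := by
  classical
  intro a d hd
  obtain ⟨F'', g1, g2, g3⟩ := h a d hd
  have hZT : ∀ x ∈ X.ZL a, x ∉ T := by
    intro x hx
    obtain ⟨m, s, i, h1, h2, h3, rfl⟩ := X.mem_ZL.1 hx
    exact hT _ _ _ _ (X.le_E a h2) h3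
  have hpa : ∀ x ∈ X.ZL a, ∀ g, x * B.q g ∉ X.ZL a → (g ∈ F''.H x ↔ g ∈ F'.H x) := by
    intro x hx g hy
    rw [off _ (hZT x hx)]
    constructor
    · intro hg
      have h6 := F''.sym _ _ hg
      rw [g1 _ hy] at h6
      have h7 := F.sym _ _ h6
      rw [F.ii, B.q_inv, mul_inv_cancel_right] at h7
      exact h7
    · intro hg
      have h6 := F.sym _ _ hg
      rw [← g1 _ hy] at h6
      have h7 := F''.sym _ _ h6
      rw [F''.ii, B.q_inv, mul_inv_cancel_right] at h7
      exact h7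
  have e : (chg X off hT).ZL a = X.ZL a := rfl
  rw [e]
  refine ⟨HF.patch F' F'' (X.ZL a) hpa, fun x hx => ?_, fun x hx g hg => ?_, ?_⟩
  · show (if x ∈ X.ZL a then F''.H x else F'.H x) = _
    rw [if_neg hx]
  · have hg' : g ∈ (if x ∈ X.ZL a then F''.H x else F'.H x) := hg
    rw [if_pos hx] at hg'
    exact g2 x hx g hg'
  · refine g3.mono fun x y hx _ he => ?_
    obtain ⟨g, hg, rfl⟩ := he
    refine ⟨g, ?_, rfl⟩
    show g ∈ (if x ∈ X.ZL a then F''.H x else F'.H x)
    rw [if_pos hx]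
    exact hg

end chg

end Pool.Agent.Lib.MP_688fd0_co.SQ5.FT
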