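import Pool.Agent.Lib.MP_688fd0_co.SQ5.FT.AsmA

/-!
FT, assembly B (helper62): bands on all free places of the runs. `fr z` = the free places, `ob z j` = the orbit of the place
`j`; the band at the place `j` of the run `z` has the blocks `j bl .. (j + 1) bl`, `bl = nb (l + 1)`.
-/

set_option autoImplicit false

namespace Pool.Agent.Lib.MP_688fd0_co.SQ5.FT

open Function Pool.Agent.Lib.MP_688fd0_co.OSF H64 H95

universe v

/-- Among `n` consecutive numbers there is one with a given residue. -/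
theorem exists_res {n : ℕ} (a r : ℕ) (hr : r < n) : ∃ t < n, (a + t) % n = r := by
  have hn : 0 < n := by omega
  have ha : a % n < n := Nat.mod_lt _ hn
  refine ⟨(r + (n - a % n)) % n, Nat.mod_lt _ hn, ?_⟩
  rw [Nat.add_mod, Nat.mod_mod, ← Nat.add_mod]
  have e : a + (r + (n - a % n)) = r + n + n * (a / n) := by
    have := Nat.mod_add_div a n
    omega
  rw [e, Nat.add_mul_mod_self_left, Nat.add_mod_right, Nat.mod_eq_of_lt hr]

variable {G : Type} [Group G] {B : Lb.{0, v} G} {F : HF B} {Zr : Type} {S : Zr → Type} {N : Zr → ℕ}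

/-- Data of the places. -/
structure Plc (X : Rgs F Zr S N) (O : Zr → Type) (nb : Zr → ℕ) where
  fr : Zr → Set ℕ
  ob : ∀ z : Zr, fr z → O z
  pos : ∀ z, 0 < nb z
  le : ∀ z, ∀ j ∈ fr z, (j + 1) * nb z ≤ N z

namespace Plc

variable {X : Rgs F Zr S N} {O : Zr → Type} {nb : Zr → ℕ} (L : Plc X O nb)

/-- The length of a place. -/
def bl (_ : Plc X O nb) (z : Zr) : ℕ := nb z * (X.l z + 1)

theorem bl_pos (z : Zr) : 0 < L.bl z := Nat.mul_pos (L.pos z) (Nat.succ_pos _)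

theorem le_bl {z : Zr} (q : L.fr z) : (q.1 + 1) * L.bl z ≤ N z * (X.l z + 1) := by
  unfold bl
  rw [← mul_assoc]
  exact Nat.mul_le_mul_right _ (L.le z q.1 q.2)

theorem succ_bl (z : Zr) (j : ℕ) : (j + 1) * L.bl z = j * L.bl z + L.bl z := by ring

/-- The cutting. -/
def cut : Rgs.Cut N (fun z => L.fr z) nb where
  ix _ q := q.1
  inj _ := Subtype.val_injective
  pos := L.pos
  le z q := L.le z q.1 q.2

theorem of_eq (z : Zr) (q : L.fr z) : X.of L.cut ⟨z, q⟩ = q.1 * L.bl z := by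
  show q.1 * nb z * (X.l z + 1) = q.1 * (nb z * (X.l z + 1))
  ring

/-- The bands. -/
def X1 : Rgs F (Σ z, L.fr z) (fun r => S r.1) (fun r => nb r.1) := X.split L.cut

theorem ev_true (z : Zr) (q : L.fr z) (s : S z) : L.X1.ev ⟨z, q⟩ (s, true) = (X.C z).Z ((q.1 + 1) * L.bl z) s 0 := by
  show (X.C z).Z (X.of L.cut ⟨z, q⟩ + nb z * (X.l z + 1)) s 0 = _
  rw [L.of_eq, L.succ_bl]
  rfl

theorem ev_false (z : Zr) (q : L.fr z) (s : S z) :
    L.X1.ev ⟨z, q⟩ (s, false) = (X.C z).Z (q.1 * L.bl z) s ((X.C z).h (q.1 * L.bl z) s) := by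
  show (X.C z).Z (X.of L.cut ⟨z, q⟩ + 0) s ((X.C z).h (X.of L.cut ⟨z, q⟩ + 0) s) = _
  rw [L.of_eq, Nat.add_zero]

variable {V : ∀ z, Set (S z)} (cp : ∀ z, V z → O z)

/-- The active strands of the band. -/
def VG (r : Σ z, L.fr z) : Set (S r.1) := {s | ∃ h : s ∈ V r.1, cp r.1 ⟨s, h⟩ = L.ob r.1 r.2}

theorem act_pos {x : G} (h : L.X1.Act (L.VG cp) x) : ∃ (z : Zr) (q : L.fr z) (s : S z) (hs : s ∈ V z) (m i : ℕ),
    cp z ⟨s, hs⟩ = L.ob z q ∧ q.1 * L.bl z < m ∧ m < (q.1 + 1) * L.bl z ∧ i ≤ (X.C z).h m s ∧ x = (X.C z).Z m s i := by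
  obtain ⟨⟨⟨z, q⟩, k⟩, s, ⟨hs, hq⟩, m, i, h1, h2, h3, h4⟩ := h
  have h6 := L.X1.bs_lt ⟨⟨z, q⟩, k⟩
  have h1 : L.X1.bs ⟨⟨z, q⟩, k⟩ + 1 ≤ m := h1
  have h2 : m ≤ L.X1.bs ⟨⟨z, q⟩, k⟩ + X.l z := h2
  have h6 : L.X1.bs ⟨⟨z, q⟩, k⟩ + X.l z + 1 ≤ nb z * (X.l z + 1) := h6
  have e : X.of L.cut ⟨z, q⟩ = q.1 * L.bl z := L.of_eq z q
  have e2 : L.bl z = nb z * (X.l z + 1) := rfl
  have e3 := L.succ_bl z q.1
  exact ⟨z, q, s, hs, X.of L.cut ⟨z, q⟩ + m, i, hq, by omega, by omega, h3, h4⟩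

/-- An active vertex of a strand. -/
theorem act_mk {z : Zr} {s : S z} (hs : s ∈ V z) (q : L.fr z) (ho : cp z ⟨s, hs⟩ = L.ob z q) :
    L.X1.Act (L.VG cp) ((X.C z).Z (q.1 * L.bl z + 1) s 0) := by
  have hl := X.hl z
  refine ⟨⟨⟨z, q⟩, ⟨0, L.pos z⟩⟩, s, ⟨hs, ho⟩, 1, 0, ?_, ?_, Nat.zero_le _, ?_⟩
  · show 0 * (X.l z + 1) + 1 ≤ 1
    omega
  · show 1 ≤ 0 * (X.l z + 1) + X.l z
    omega
  · show _ = (X.C z).Z (X.of L.cut ⟨z, q⟩ + 1) s 0
    rw [L.of_eq]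

variable (hfar : ∀ z z' m (s : S z) i m' (s' : S z') i', z ≠ z' → m ≤ N z * (X.l z + 1) → i ≤ (X.C z).h m s →
    m' ≤ N z' * (X.l z' + 1) → i' ≤ (X.C z').h m' s' → (X.C z).Z m s i ≠ (X.C z').Z m' s' i')

include hfar

/-- A strand outside of the bands of its orbit is not active. -/
theorem not_act {z : Zr} {s : S z} (hs : s ∈ V z) {m i : ℕ} (hm : m ≤ N z * (X.l z + 1)) (hi : i ≤ (X.C z).h m s)
    (hno : ∀ q : L.fr z, cp z ⟨s, hs⟩ = L.ob z q → ¬ (q.1 * L.bl z < m ∧ m < (q.1 + 1) * L.bl z)) :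
    ¬ L.X1.Act (L.VG cp) ((X.C z).Z m s i) := by
  intro hc
  obtain ⟨z', q, s', hs', m', i', h2, h3, h4, h5, h6⟩ := L.act_pos cp hc
  have h7 := L.le_bl q
  by_cases hz : z = z'
  · subst hz
    obtain ⟨e1, e2, -⟩ := (X.run z).inj _ _ _ _ _ _ hm (by omega) hi h5 h6
    subst e1 e2
    exact hno q h2 ⟨h3, h4⟩
  · exact hfar z z' m s i m' s' i' hz hm hi (by omega) h5 h6

end Plc

end Pool.Agent.Lib.MP_688fd0_co.SQ5.FT
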