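import Pool.Agent.Lib.MP_688fd0_co.SQ5.FT.AsmB

/-!
FT, assembly C (helper62): the free places of a thread; the zones of the visits.
-/

set_option autoImplicit false

namespace Pool.Agent.Lib.MP_688fd0_co.SQ5.FT

open Function Pool.Agent.Lib.MP_688fd0_co.OSF H64 H95

universe v

variable {G : Type} [Group G] {B : Lb.{0, v} G} {F : HF B} {Zr : Type} {S : Zr → Type} {N : Zr → ℕ}

/-- A path of `F` is a path of `F'` until it meets `T`. -/
theorem cn_or {F' : HF B} {T Rg : Set G} (off : ∀ x, x ∉ T → F'.H x = F.H x) {x y : G} (h : H22.Cn F.Ed Rg x y) :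
    H22.Cn F'.Ed Rg x y ∨ ∃ u ∈ T, u ∈ Rg ∧ H22.Cn F'.Ed Rg x u := by
  induction h with
  | refl => exact Or.inl Relation.ReflTransGen.refl
  | @tail b c _ hs ih =>
    rcases ih with ih | ih
    · by_cases hb : b ∈ T
      · exact Or.inr ⟨b, hb, hs.2.1, ih⟩
      · exact Or.inl (ih.tail ⟨H12.ed_of off hs.1 (Or.inl hb), hs.2⟩)
    · exact Or.inr ih

section free

variable {A : Set G} {X : Rgs F Zr S N} {W : ∀ z, Set (S z)} {gap : Zr → ℕ} {Ξ : Type} {ξ : Zr → Ξ}
  (D : ThrR A X W gap ξ) {O : Zr → Type} {nb : Zr → ℕ} (om : Zr → ℕ) (eo : ∀ z, O z ≃ Fin (om z)) (hnb : ∀ z, 0 < nb z)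

/-- The free places. -/
def plc : Plc X O nb where
  fr z := {j | 0 < om z ∧ (j + 1) * nb z ≤ N z ∧ ∀ i ≤ 3 * D.m, D.z i = z →
    D.hi i < j * (nb z * (X.l z + 1)) ∨ (j + 1) * (nb z * (X.l z + 1)) < D.lo i}
  ob z q := (eo z).symm ⟨q.1 % om z, Nat.mod_lt _ q.2.1⟩
  pos := hnb
  le _ _ hj := hj.2.1

variable (hgap : ∀ z, (om z + 2) * (nb z * (X.l z + 1)) ≤ gap z)

theorem plc_bl (z : Zr) : (plc D om eo hnb).bl z = nb z * (X.l z + 1) := rfl

theorem ob_eq {z : Zr} {j : ℕ} (hj : j ∈ (plc D om eo hnb).fr z) {o : O z} (h : j % om z = (eo z o).val) :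
    (plc D om eo hnb).ob z ⟨j, hj⟩ = o := by
  show (eo z).symm ⟨j % om z, _⟩ = o
  rw [Equiv.symm_apply_eq]
  exact Fin.ext h

include hgap

/-- A free place of the orbit `o` above the visit. -/
theorem fr_up {i : ℕ} (hi : i ≤ 3 * D.m) {z : Zr} (hz : D.z i = z) (o : O z) : ∃ q : (plc D om eo hnb).fr z,
    (plc D om eo hnb).ob z q = o ∧ D.hi i < q.1 * (plc D om eo hnb).bl z ∧
      (q.1 + 1) * (plc D om eo hnb).bl z < D.hi i + gap z := by
  have ho : 0 < om z := lt_of_le_of_lt (Nat.zero_le _) (eo z o).2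
  have hb : 0 < nb z * (X.l z + 1) := Nat.mul_pos (hnb z) (Nat.succ_pos _)
  have hg := hgap z
  have htop := D.top i hi
  rw [plc_bl]
  rw [hz] at htop
  set b := nb z * (X.l z + 1) with hbdef
  obtain ⟨t, ht, e⟩ := exists_res (D.hi i / b + 1) (eo z o).val (eo z o).2
  have h1 := Nat.div_add_mod (D.hi i) b
  have h2 := Nat.mod_lt (D.hi i) hb
  set d := D.hi i / b with hd
  have h3 : (d + 1) * b ≤ (d + 1 + t) * b := Nat.mul_le_mul_right _ (by omega)
  have h4 : (d + 1 + t + 1) * b ≤ (d + 1 + om z) * b := Nat.mul_le_mul_right _ (by omega)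
  have h5 : (d + 1) * b = b * d + b := by ring
  have h6 : (d + 1 + om z) * b = b * d + (om z + 1) * b := by ring
  have h7 : (om z + 2) * b = (om z + 1) * b + b := by ring
  have h8 : (d + 1 + t + 1) * b < D.hi i + gap z := by omega
  refine ⟨⟨d + 1 + t, ho, ?_, ?_⟩, ob_eq D om eo hnb _ e, by show _ < (d + 1 + t) * b; omega, h8⟩
  · have h9 : (d + 1 + t + 1) * nb z * (X.l z + 1) < N z * (X.l z + 1) := by
      rw [mul_assoc, ← hbdef]; omega
    exact (lt_of_mul_lt_mul_right h9 (Nat.zero_le _)).le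
  · intro k hk hkz
    by_cases hik : k = i
    · subst hik
      left
      show _ < (d + 1 + t) * b
      omega
    · rcases D.sep k hk i hi hik (hkz.trans hz.symm) with h9 | h9
      · left
        have := D.lohi i hi
        show _ < (d + 1 + t) * b
        omega
      · right
        rw [hkz] at h9
        show (d + 1 + t + 1) * b < _
        omega

/-- A free place of the orbit `o` below the visit. -/
theorem fr_lw {i : ℕ} (hi : i ≤ 3 * D.m) {z : Zr} (hz : D.z i = z) (o : O z) : ∃ q : (plc D om eo hnb).fr z,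
    (plc D om eo hnb).ob z q = o ∧ (q.1 + 1) * (plc D om eo hnb).bl z < D.lo i ∧
      D.lo i < q.1 * (plc D om eo hnb).bl z + gap z := by
  have ho : 0 < om z := lt_of_le_of_lt (Nat.zero_le _) (eo z o).2
  have hb : 0 < nb z * (X.l z + 1) := Nat.mul_pos (hnb z) (Nat.succ_pos _)
  have hg := hgap z
  have htop := D.top i hi
  have hbot := D.bot i hi
  have hlh := D.lohi i hi
  rw [plc_bl]
  rw [hz] at htop hbot
  set b := nb z * (X.l z + 1) with hbdef
  have h7 : (om z + 2) * b = (om z + 1) * b + b := by ring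
  have h0 : om z + 1 ≤ (D.lo i - 1) / b := by
    rw [Nat.le_div_iff_mul_le hb]
    omega
  obtain ⟨t, ht, e⟩ := exists_res ((D.lo i - 1) / b - om z) (eo z o).val (eo z o).2
  have h1 := Nat.div_add_mod (D.lo i - 1) b
  have h2 := Nat.mod_lt (D.lo i - 1) hb
  set d := (D.lo i - 1) / b with hd
  obtain ⟨f, hf⟩ : ∃ f, d = f + om z := ⟨d - om z, by omega⟩
  rw [hf, Nat.add_sub_cancel] at e
  have h3 : (f + t + 1) * b ≤ d * b := Nat.mul_le_mul_right _ (by omega)
  have h4 : f * b ≤ (f + t) * b := Nat.mul_le_mul_right _ (by omega)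
  have h5 : b * d = f * b + om z * b := by rw [hf]; ring
  have h6 : (om z + 1) * b = om z * b + b := by ring
  have h8 : d * b = b * d := by ring
  have h9 : (f + t + 1) * b < D.lo i := by omega
  have h10 : D.lo i < (f + t) * b + gap z := by omega
  refine ⟨⟨f + t, ho, ?_, ?_⟩, ob_eq D om eo hnb _ e, h9, h10⟩
  · have h9 : (f + t + 1) * nb z * (X.l z + 1) < N z * (X.l z + 1) := by
      rw [mul_assoc, ← hbdef]; omega
    exact (lt_of_mul_lt_mul_right h9 (Nat.zero_le _)).le
  · intro k hk hkz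
    by_cases hik : k = i
    · subst hik
      right
      exact h9
    · rcases D.sep k hk i hi hik (hkz.trans hz.symm) with h11 | h11
      · left
        rw [hkz] at h11
        show _ < (f + t) * b
        omega
      · right
        show (f + t + 1) * b < _
        omega

/-- Every orbit has a free place. -/
theorem fr_ex (hlen : ∀ z, gap z ≤ N z * (X.l z + 1)) (z : Zr) (o : O z) :
    ∃ q : (plc D om eo hnb).fr z, (plc D om eo hnb).ob z q = o := by
  by_cases h : ∃ i ≤ 3 * D.m, D.z i = z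
  · obtain ⟨i, hi, hz⟩ := h
    obtain ⟨q, h1, -, -⟩ := fr_up D om eo hnb hgap hi hz o
    exact ⟨q, h1⟩
  · have ho : 0 < om z := lt_of_le_of_lt (Nat.zero_le _) (eo z o).2
    obtain ⟨t, ht, e⟩ := exists_res 0 (eo z o).val (eo z o).2
    rw [Nat.zero_add] at e
    refine ⟨⟨t, ho, ?_, fun i hi hz => absurd ⟨i, hi, hz⟩ h⟩, ob_eq D om eo hnb _ e⟩
    have h1 := (hgap z).trans (hlen z)
    rw [← mul_assoc] at h1
    have h2 := Nat.le_of_mul_le_mul_right h1 (Nat.succ_pos _)
    exact (Nat.mul_le_mul_right _ (by omega)).trans h2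

end free

end Pool.Agent.Lib.MP_688fd0_co.SQ5.FT
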