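import Pool.Agent.Lib.MP_688fd0_co.SQ5.FT.AsmC

/-!
FT, assembly D (helper62): the zones. The zone of the visit (run `z`, blocks `a .. b`) consists of the strands of `W z` from the
last band of their orbit below `a` to the first band of their orbit above `b`.
-/

set_option autoImplicit false

namespace Pool.Agent.Lib.MP_688fd0_co.SQ5.FT

open Function Pool.Agent.Lib.MP_688fd0_co.OSF H64 H95

universe v

variable {G : Type} [Group G] {B : Lb.{0, v} G} {F : HF B} {Zr : Type} {S : Zr → Type} {N : Zr → ℕ}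

namespace Plc

variable {X : Rgs F Zr S N} {O : Zr → Type} {nb : Zr → ℕ} (L : Plc X O nb)

/-- The lowest place of the orbit `o` above the block `b`. -/
noncomputable def up (z : Zr) (b : ℕ) (o : O z) : ℕ := sInf {j | ∃ h : j ∈ L.fr z, L.ob z ⟨j, h⟩ = o ∧ b < j * L.bl z}

/-- The highest place of the orbit `o` below the block `a`. -/
noncomputable def lw (z : Zr) (a : ℕ) (o : O z) : ℕ :=
  sSup {j | ∃ h : j ∈ L.fr z, L.ob z ⟨j, h⟩ = o ∧ (j + 1) * L.bl z < a}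

theorem up_spec {z : Zr} {b : ℕ} {o : O z} (h : ∃ q : L.fr z, L.ob z q = o ∧ b < q.1 * L.bl z) :
    ∃ h : L.up z b o ∈ L.fr z, L.ob z ⟨L.up z b o, h⟩ = o ∧ b < L.up z b o * L.bl z := by
  obtain ⟨q, h1, h2⟩ := h
  exact Nat.sInf_mem (s := {j | ∃ h : j ∈ L.fr z, L.ob z ⟨j, h⟩ = o ∧ b < j * L.bl z}) ⟨q.1, q.2, h1, h2⟩

theorem up_le {z : Zr} {b : ℕ} {o : O z} (q : L.fr z) (h1 : L.ob z q = o) (h2 : b < q.1 * L.bl z) : L.up z b o ≤ q.1 :=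
  Nat.sInf_le ⟨q.2, h1, h2⟩

theorem bdd (z : Zr) (a : ℕ) (o : O z) : BddAbove {j | ∃ h : j ∈ L.fr z, L.ob z ⟨j, h⟩ = o ∧ (j + 1) * L.bl z < a} := by
  refine ⟨a, ?_⟩
  rintro j ⟨-, -, h⟩
  have h1 : (j + 1) * 1 ≤ (j + 1) * L.bl z := Nat.mul_le_mul_left _ (L.bl_pos z)
  omega

theorem lw_spec {z : Zr} {a : ℕ} {o : O z} (h : ∃ q : L.fr z, L.ob z q = o ∧ (q.1 + 1) * L.bl z < a) :
    ∃ h : L.lw z a o ∈ L.fr z, L.ob z ⟨L.lw z a o, h⟩ = o ∧ (L.lw z a o + 1) * L.bl z < a := by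
  obtain ⟨q, h1, h2⟩ := h
  exact Nat.sSup_mem (s := {j | ∃ h : j ∈ L.fr z, L.ob z ⟨j, h⟩ = o ∧ (j + 1) * L.bl z < a}) ⟨q.1, q.2, h1, h2⟩ (L.bdd z a o)

theorem le_lw {z : Zr} {a : ℕ} {o : O z} (q : L.fr z) (h1 : L.ob z q = o) (h2 : (q.1 + 1) * L.bl z < a) :
    q.1 ≤ L.lw z a o := le_csSup (L.bdd z a o) ⟨q.2, h1, h2⟩

/-- A visit between the bands. -/
structure Ok (z : Zr) (a b : ℕ) : Prop where
  le : a ≤ b
  low : ∀ o, ∃ q : L.fr z, L.ob z q = o ∧ (q.1 + 1) * L.bl z < a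
  upp : ∀ o, ∃ q : L.fr z, L.ob z q = o ∧ b < q.1 * L.bl z
  free : ∀ q : L.fr z, b < q.1 * L.bl z ∨ (q.1 + 1) * L.bl z < a

variable {V W : ∀ z, Set (S z)} (WV : ∀ z, W z ⊆ V z) (cp : ∀ z, V z → O z)

/-- The bottom of the zone of a strand. -/
noncomputable def bt (z : Zr) (a : ℕ) (s : V z) : ℕ := (L.lw z a (cp z s) + 1) * L.bl z

/-- The top of the zone of a strand. -/
noncomputable def tp (z : Zr) (b : ℕ) (s : V z) : ℕ := L.up z b (cp z s) * L.bl z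

/-- The zone. -/
def zone (z : Zr) (a b : ℕ) : Set G := {x | ∃ (s : S z) (hs : s ∈ W z) (m r : ℕ), L.bt cp z a ⟨s, WV z hs⟩ ≤ m ∧
  m ≤ L.tp cp z b ⟨s, WV z hs⟩ ∧ r ≤ (X.C z).h m s ∧ x = (X.C z).Z m s r}

section ok

variable {L} {z : Zr} {a b : ℕ} (H : L.Ok z a b)

include H

theorem Ok.bt_lt (s : V z) : L.bt cp z a s < a := (L.lw_spec (H.low (cp z s))).2.2

theorem Ok.lt_tp (s : V z) : b < L.tp cp z b s := (L.up_spec (H.upp (cp z s))).2.2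

omit H in
theorem bl_le_bt (s : V z) : L.bl z ≤ L.bt cp z a s := Nat.le_mul_of_pos_left _ (Nat.succ_pos _)

theorem Ok.tp_le (s : V z) : L.tp cp z b s + L.bl z ≤ N z * (X.l z + 1) := by
  obtain ⟨h1, -, -⟩ := L.up_spec (H.upp (cp z s))
  have h2 := L.le_bl ⟨_, h1⟩
  rw [L.succ_bl] at h2
  exact h2

/-- The lower end of the zone is an upper port. -/
theorem Ok.ev_bt (s : V z) : ∃ q : L.fr z, L.ob z q = cp z s ∧
    L.X1.ev ⟨z, q⟩ (s.1, true) = (X.C z).Z (L.bt cp z a s) s.1 0 ∧ L.bt cp z a s = (q.1 + 1) * L.bl z := by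
  obtain ⟨h1, h2, -⟩ := L.lw_spec (H.low (cp z s))
  exact ⟨⟨_, h1⟩, h2, L.ev_true z ⟨_, h1⟩ s.1, rfl⟩

theorem Ok.ev_tp (s : V z) : ∃ q : L.fr z, L.ob z q = cp z s ∧
    L.X1.ev ⟨z, q⟩ (s.1, false) = (X.C z).Z (L.tp cp z b s) s.1 ((X.C z).h (L.tp cp z b s) s.1) ∧
      L.tp cp z b s = q.1 * L.bl z := by
  obtain ⟨h1, h2, -⟩ := L.up_spec (H.upp (cp z s))
  exact ⟨⟨_, h1⟩, h2, L.ev_false z ⟨_, h1⟩ s.1, rfl⟩

/-- The zone is not active. -/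
theorem Ok.no_act (hfar : ∀ z z' m (s : S z) i m' (s' : S z') i', z ≠ z' → m ≤ N z * (X.l z + 1) → i ≤ (X.C z).h m s →
    m' ≤ N z' * (X.l z' + 1) → i' ≤ (X.C z').h m' s' → (X.C z).Z m s i ≠ (X.C z').Z m' s' i') {x : G}
    (hx : x ∈ L.zone WV cp z a b) : ¬ L.X1.Act (L.VG cp) x := by
  obtain ⟨s, hs, m, r, h1, h2, h3, rfl⟩ := hx
  have h4 := H.tp_le cp ⟨s, WV z hs⟩
  refine L.not_act cp hfar (WV z hs) (by omega) h3 ?_
  rintro q hq ⟨h5, h6⟩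
  rcases H.free q with h7 | h7
  · have h8 := L.up_le q hq.symm h7
    have h9 : L.tp cp z b ⟨s, WV z hs⟩ ≤ q.1 * L.bl z := Nat.mul_le_mul_right _ h8
    omega
  · have h8 := L.le_lw q hq.symm h7
    have h9 : (q.1 + 1) * L.bl z ≤ L.bt cp z a ⟨s, WV z hs⟩ := Nat.mul_le_mul_right _ (by omega)
    omega

end ok

/-- The blocks of the visit. -/
theorem Ok.vis_zone {L : Plc X O nb} {z : Zr} {a b : ℕ} (H : L.Ok z a b) : Vis X W z a b ⊆ L.zone WV cp z a b := by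
  rintro x ⟨s, hs, m, r, h1, h2, h3, rfl⟩
  have h4 := H.bt_lt cp ⟨s, WV z hs⟩
  have h5 := H.lt_tp cp ⟨s, WV z hs⟩
  exact ⟨s, hs, m, r, by omega, by omega, h3, rfl⟩

/-- Zones on top of each other. -/
theorem Ok.disj {L : Plc X O nb} {z : Zr} {a b a' b' : ℕ} (H : L.Ok z a b) (H' : L.Ok z a' b')
    (h : ∀ o, ∃ q : L.fr z, L.ob z q = o ∧ b < q.1 * L.bl z ∧ (q.1 + 1) * L.bl z < a') :
    Disjoint (L.zone WV cp z a b) (L.zone WV cp z a' b') := by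
  rw [Set.disjoint_left]
  rintro x ⟨s, hs, m, r, h1, h2, h3, rfl⟩ ⟨s', hs', m', r', h1', h2', h3', e⟩
  have h4 := H.tp_le cp ⟨s, WV z hs⟩
  have h4' := H'.tp_le cp ⟨s', WV z hs'⟩
  obtain ⟨e1, e2, -⟩ := (X.run z).inj _ _ _ _ _ _ (by omega) (by omega) h3 h3' e
  subst e1 e2
  obtain ⟨q, h5, h6, h7⟩ := h (cp z ⟨s, WV z hs⟩)
  have h8 : L.tp cp z b ⟨s, WV z hs⟩ ≤ q.1 * L.bl z := Nat.mul_le_mul_right _ (L.up_le q h5 h6)
  have h9 : (q.1 + 1) * L.bl z ≤ L.bt cp z a' ⟨s, WV z hs⟩ := Nat.mul_le_mul_right _ (by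
    have := L.le_lw q h5 h7
    omega)
  have h10 := L.succ_bl z q.1
  have h11 := L.bl_pos z
  omega

/-- Zones in different runs. -/
theorem Ok.disj' {L : Plc X O nb} {z z' : Zr} {a b a' b' : ℕ} (H : L.Ok z a b) (H' : L.Ok z' a' b') (hz : z ≠ z')
    (hfar : ∀ z z' m (s : S z) i m' (s' : S z') i', z ≠ z' → m ≤ N z * (X.l z + 1) → i ≤ (X.C z).h m s →
    m' ≤ N z' * (X.l z' + 1) → i' ≤ (X.C z').h m' s' → (X.C z).Z m s i ≠ (X.C z').Z m' s' i') :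
    Disjoint (L.zone WV cp z a b) (L.zone WV cp z' a' b') := by
  rw [Set.disjoint_left]
  rintro x ⟨s, hs, m, r, h1, h2, h3, rfl⟩ ⟨s', hs', m', r', h1', h2', h3', e⟩
  have h4 := H.tp_le cp ⟨s, WV z hs⟩
  have h4' := H'.tp_le cp ⟨s', WV z' hs'⟩
  exact hfar _ _ _ _ _ _ _ _ hz (by omega) h3 (by omega) h3' e

end Plc

end Pool.Agent.Lib.MP_688fd0_co.SQ5.FT
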