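import Pool.Agent.Lib.MP_688fd0_co.SQ5.FT.AsmD

/-!
FT, assembly E (helper62): the zones of a thread: every vertex of a zone is joined inside the zone to an end of the zone.
-/

set_option autoImplicit false

namespace Pool.Agent.Lib.MP_688fd0_co.SQ5.FT

open Function Pool.Agent.Lib.MP_688fd0_co.OSF H64 H95

universe v

variable {G : Type} [Group G] {B : Lb.{0, v} G} {F : HF B} {Zr : Type} {S : Zr → Type} {N : Zr → ℕ}

/-- All assumptions of the zones. -/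
structure ZD {A : Set G} {X : Rgs F Zr S N} {V W : ∀ z, Set (S z)} {gap : Zr → ℕ} {Ξ : Type} {ξ : Zr → Ξ}
    (D : ThrR A X W gap ξ) {O : Zr → Type} {nb : Zr → ℕ} (L : Plc X O nb) (cp : ∀ z, V z → O z) : Prop where
  WV : ∀ z, W z ⊆ V z
  far : ∀ z z' m (s : S z) i m' (s' : S z') i', z ≠ z' → m ≤ N z * (X.l z + 1) → i ≤ (X.C z).h m s →
    m' ≤ N z' * (X.l z' + 1) → i' ≤ (X.C z').h m' s' → (X.C z).Z m s i ≠ (X.C z').Z m' s' i'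
  ok : ∀ i ≤ 3 * D.m, L.Ok (D.z i) (D.lo i) (D.hi i)
  up : ∀ i ≤ 3 * D.m, ∀ o, ∃ q : L.fr (D.z i), L.ob (D.z i) q = o ∧ D.hi i < q.1 * L.bl (D.z i) ∧
    (q.1 + 1) * L.bl (D.z i) < D.hi i + gap (D.z i)
  free : ∀ z, ∀ q : L.fr z, ∀ i ≤ 3 * D.m, D.z i = z → D.hi i < q.1 * L.bl z ∨ (q.1 + 1) * L.bl z < D.lo i

namespace ZD

variable {A : Set G} {X : Rgs F Zr S N} {V W : ∀ z, Set (S z)} {gap : Zr → ℕ} {Ξ : Type} {ξ : Zr → Ξ}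
  {D : ThrR A X W gap ξ} {O : Zr → Type} {nb : Zr → ℕ} {L : Plc X O nb} {cp : ∀ z, V z → O z} (H : ZD D L cp)

include H

/-- The zone of a visit. -/
def Zn (i : ℕ) : Set G := L.zone H.WV cp (D.z i) (D.lo i) (D.hi i)

theorem vis_sub {i : ℕ} (hi : i ≤ 3 * D.m) : Vis X W (D.z i) (D.lo i) (D.hi i) ⊆ H.Zn i :=
  (H.ok i hi).vis_zone H.WV cp

theorem disj_aux {i k : ℕ} (hi : i ≤ 3 * D.m) (hk : k ≤ 3 * D.m) (hz : D.z i = D.z k)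
    (h : D.hi i + gap (D.z i) ≤ D.lo k) : Disjoint (H.Zn i) (H.Zn k) := by
  have h1 := H.ok i hi
  have h2 := H.ok k hk
  have h3 := H.up i hi
  unfold Zn
  rw [← hz] at h2 ⊢
  refine h1.disj H.WV cp h2 fun o => ?_
  obtain ⟨q, a1, a2, a3⟩ := h3 o
  exact ⟨q, a1, a2, by omega⟩

theorem disj {i k : ℕ} (hi : i ≤ 3 * D.m) (hk : k ≤ 3 * D.m) (hik : i ≠ k) : Disjoint (H.Zn i) (H.Zn k) := by
  by_cases hz : D.z i = D.z k
  · rcases D.sep i hi k hk hik hz with h | h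
    · exact H.disj_aux hi hk hz h
    · refine (H.disj_aux hk hi hz.symm ?_).symm
      rw [← hz]
      exact h
  · exact (H.ok i hi).disj' H.WV cp (H.ok k hk) hz H.far

/-- The touched vertices of a zone. -/
theorem T_zone {x : G} (hx : x ∈ D.T) {k : ℕ} (hk : k ≤ 3 * D.m) (hxk : x ∈ H.Zn k) :
    k < 3 * D.m ∧ x ∈ Vis X W (D.z k) (D.lo k) (D.hi k) := by
  obtain ⟨i, hi, h1⟩ := D.TV x hx
  by_cases hik : i = k
  · subst hik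
    exact ⟨hi, h1⟩
  · exact absurd hxk (Set.disjoint_left.1 (H.disj hi.le hk hik) (H.vis_sub hi.le h1))

theorem T_sub {x : G} (hx : x ∈ D.T) : ∃ i < 3 * D.m, x ∈ H.Zn i := by
  obtain ⟨i, hi, h1⟩ := D.TV x hx
  exact ⟨i, hi, H.vis_sub hi.le h1⟩

/-- The blocks of the visits. -/
theorem vis_block {i : ℕ} (hi : i ≤ 3 * D.m) {z : Zr} {m : ℕ} {s : S z} {r : ℕ} (hm : m ≤ N z * (X.l z + 1))
    (hr : r ≤ (X.C z).h m s) (hx : (X.C z).Z m s r ∈ Vis X W (D.z i) (D.lo i) (D.hi i)) :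
    D.z i = z ∧ D.lo i ≤ m ∧ m ≤ D.hi i := by
  obtain ⟨s', hs', m', r', h1, h2, h3, e⟩ := hx
  have htop := D.top i hi
  by_cases hz : z = D.z i
  · subst hz
    obtain ⟨e1, -, -⟩ := (X.run (D.z i)).inj _ _ _ _ _ _ hm (by omega) hr h3 e
    subst e1
    exact ⟨rfl, h1, h2⟩
  · exact absurd e (H.far _ _ _ _ _ _ _ _ hz hm hr (by omega) h3)

/-- The places contain no vertex of a visit. -/
theorem place_vis {i : ℕ} (hi : i ≤ 3 * D.m) {z : Zr} (q : L.fr z) {m : ℕ} {s : S z} {r : ℕ} (h1 : q.1 * L.bl z ≤ m)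
    (h2 : m ≤ (q.1 + 1) * L.bl z) (hr : r ≤ (X.C z).h m s) :
    (X.C z).Z m s r ∉ Vis X W (D.z i) (D.lo i) (D.hi i) := by
  intro hx
  have h3 := L.le_bl q
  obtain ⟨h4, h5, h6⟩ := H.vis_block hi (by omega) hr hx
  rcases H.free z q i hi h4 with h7 | h7
  · omega
  · omega

/-- The places are not touched. -/
theorem place_T {z : Zr} (q : L.fr z) {m : ℕ} {s : S z} {r : ℕ} (h1 : q.1 * L.bl z ≤ m) (h2 : m ≤ (q.1 + 1) * L.bl z)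
    (hr : r ≤ (X.C z).h m s) : (X.C z).Z m s r ∉ D.T := by
  intro hx
  obtain ⟨i, hi, h3⟩ := D.TV _ hx
  exact H.place_vis hi.le q h1 h2 hr h3

theorem mem_Zn {i : ℕ} {s : S (D.z i)} (hs : s ∈ W (D.z i)) {m r : ℕ}
    (h1 : L.bt cp (D.z i) (D.lo i) ⟨s, H.WV _ hs⟩ ≤ m) (h2 : m ≤ L.tp cp (D.z i) (D.hi i) ⟨s, H.WV _ hs⟩)
    (h3 : r ≤ (X.C (D.z i)).h m s) : (X.C (D.z i)).Z m s r ∈ H.Zn i := ⟨s, hs, m, r, h1, h2, h3, rfl⟩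

/-- Untouched vertices of a zone. -/
theorem not_T {i : ℕ} (hi : i ≤ 3 * D.m) {s : S (D.z i)} (hs : s ∈ W (D.z i)) {m r : ℕ}
    (h1 : L.bt cp (D.z i) (D.lo i) ⟨s, H.WV _ hs⟩ ≤ m) (h2 : m ≤ L.tp cp (D.z i) (D.hi i) ⟨s, H.WV _ hs⟩)
    (h3 : r ≤ (X.C (D.z i)).h m s) (h4 : m < D.lo i ∨ D.hi i < m) : (X.C (D.z i)).Z m s r ∉ D.T := by
  intro hx
  have h5 := (H.T_zone hx hi (H.mem_Zn hs h1 h2 h3)).2
  have h6 := (H.ok i hi).tp_le cp ⟨s, H.WV _ hs⟩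
  obtain ⟨-, h7, h8⟩ := H.vis_block hi (by omega) h3 h5
  omega

/-- From the lowest block of the visit down to the bottom. -/
theorem down {i : ℕ} (hi : i ≤ 3 * D.m) {s : S (D.z i)} (hs : s ∈ W (D.z i)) :
    H22.Cn D.F'.Ed (H.Zn i) ((X.C (D.z i)).Z (L.bt cp (D.z i) (D.lo i) ⟨s, H.WV _ hs⟩) s 0)
      ((X.C (D.z i)).Z (D.lo i) s 0) := by
  have h1 := (H.ok i hi).bt_lt cp ⟨s, H.WV _ hs⟩
  have h2 := (H.ok i hi).lt_tp cp ⟨s, H.WV _ hs⟩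
  have h3 := (H.ok i hi).tp_le cp ⟨s, H.WV _ hs⟩
  have h4 := (H.ok i hi).le
  have hz : ∀ m r, L.bt cp (D.z i) (D.lo i) ⟨s, H.WV _ hs⟩ ≤ m → m ≤ D.lo i → r ≤ (X.C (D.z i)).h m s →
      (X.C (D.z i)).Z m s r ∈ H.Zn i := fun m r a1 a2 a3 => H.mem_Zn hs a1 (by omega) a3
  have hT : ∀ m r, L.bt cp (D.z i) (D.lo i) ⟨s, H.WV _ hs⟩ ≤ m → m < D.lo i → r ≤ (X.C (D.z i)).h m s →
      (X.C (D.z i)).Z m s r ∉ D.T := fun m r a1 a2 a3 => H.not_T hi hs a1 (by omega) a3 (Or.inl a2)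
  have k1 := (X.run (D.z i)).up_cn (F' := D.F') (m0 := L.bt cp (D.z i) (D.lo i) ⟨s, H.WV _ hs⟩) (m := D.lo i - 1)
    (by omega) (by omega) s (H.Zn i) (fun m r a1 a2 a3 => hz m r a1 (by omega) a3)
    (fun m r a1 a2 a3 => D.off _ (hT m r a1 (by omega) a3)) _ le_rfl
  have k2 := (X.run (D.z i)).gate (D.lo i - 1) s (by omega)
  have e : D.lo i - 1 + 1 = D.lo i := by omega
  rw [e] at k2
  exact k1.tail ⟨H12.ed_of D.off k2 (Or.inl (hT _ _ (by omega) (by omega) le_rfl)), hz _ _ (by omega) (by omega) le_rfl,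
    hz _ _ (by omega) le_rfl (Nat.zero_le _)⟩

/-- From the highest block of the visit to the top. -/
theorem up' {i : ℕ} (hi : i ≤ 3 * D.m) {s : S (D.z i)} (hs : s ∈ W (D.z i)) :
    H22.Cn D.F'.Ed (H.Zn i) ((X.C (D.z i)).Z (D.hi i) s ((X.C (D.z i)).h (D.hi i) s))
      ((X.C (D.z i)).Z (L.tp cp (D.z i) (D.hi i) ⟨s, H.WV _ hs⟩) s
        ((X.C (D.z i)).h (L.tp cp (D.z i) (D.hi i) ⟨s, H.WV _ hs⟩) s)) := by
  have h1 := (H.ok i hi).bt_lt cp ⟨s, H.WV _ hs⟩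
  have h2 := (H.ok i hi).lt_tp cp ⟨s, H.WV _ hs⟩
  have h3 := (H.ok i hi).tp_le cp ⟨s, H.WV _ hs⟩
  have h4 := (H.ok i hi).le
  have hz : ∀ m r, D.hi i ≤ m → m ≤ L.tp cp (D.z i) (D.hi i) ⟨s, H.WV _ hs⟩ → r ≤ (X.C (D.z i)).h m s →
      (X.C (D.z i)).Z m s r ∈ H.Zn i := fun m r a1 a2 a3 => H.mem_Zn hs (by omega) a2 a3
  have hT : ∀ m r, D.hi i < m → m ≤ L.tp cp (D.z i) (D.hi i) ⟨s, H.WV _ hs⟩ → r ≤ (X.C (D.z i)).h m s →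
      (X.C (D.z i)).Z m s r ∉ D.T := fun m r a1 a2 a3 => H.not_T hi hs (by omega) a2 a3 (Or.inr a1)
  have k1 := (X.run (D.z i)).up_cn (F' := D.F') (m0 := D.hi i + 1) (m := L.tp cp (D.z i) (D.hi i) ⟨s, H.WV _ hs⟩)
    (by omega) (by omega) s (H.Zn i) (fun m r a1 a2 a3 => hz m r (by omega) a2 a3)
    (fun m r a1 a2 a3 => D.off _ (hT m r (by omega) a2 a3)) _ le_rfl
  have k2 := (X.run (D.z i)).gate (D.hi i) s (by omega)
  exact H22.Cn.trans' (H22.Cn.of (H12.ed_of D.off k2 (Or.inr (hT _ _ (by omega) (by omega) (Nat.zero_le _))))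
    (hz _ _ le_rfl (by omega) le_rfl) (hz _ _ (by omega) (by omega) (Nat.zero_le _))) k1

/-- THE ENDS OF A ZONE. -/
theorem zend {i : ℕ} (hi : i ≤ 3 * D.m) {x : G} (hx : x ∈ H.Zn i) : ∃ (s : S (D.z i)) (hs : s ∈ W (D.z i)),
    H22.Cn D.F'.Ed (H.Zn i) x ((X.C (D.z i)).Z (L.bt cp (D.z i) (D.lo i) ⟨s, H.WV _ hs⟩) s 0) ∨
    H22.Cn D.F'.Ed (H.Zn i) x ((X.C (D.z i)).Z (L.tp cp (D.z i) (D.hi i) ⟨s, H.WV _ hs⟩) s
        ((X.C (D.z i)).h (L.tp cp (D.z i) (D.hi i) ⟨s, H.WV _ hs⟩) s)) := by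
  have hsy : ∀ x y, F.Ed x y → F.Ed y x := fun x y h => F.ed_symm h
  have hsy' : ∀ x y, D.F'.Ed x y → D.F'.Ed y x := fun x y h => D.F'.ed_symm h
  obtain ⟨s, hs, m, r, h1, h2, h3, rfl⟩ := hx
  have h4 := (H.ok i hi).tp_le cp ⟨s, H.WV _ hs⟩
  have k1 := (X.run (D.z i)).up_cn (F' := F) h1 (by omega) s (H.Zn i)
    (fun m' r' a1 a2 a3 => H.mem_Zn hs a1 (by omega) a3) (fun _ _ _ _ _ => rfl) r h3
  rcases cn_or D.off (k1.symm' hsy) with k2 | ⟨u, hu, huz, k2⟩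
  · exact ⟨s, hs, Or.inl k2⟩
  · obtain ⟨hi', hv⟩ := H.T_zone hu hi huz
    obtain ⟨s', hs', k3 | k3⟩ := D.con i hi' u hu hv
    · refine ⟨s', hs', Or.inl (k2.trans' ((k3.mono (H.vis_sub hi) fun _ _ _ _ h => h).trans' ?_))⟩
      exact (H.down hi hs').symm' hsy'
    · exact ⟨s', hs', Or.inr (k2.trans' ((k3.mono (H.vis_sub hi) fun _ _ _ _ h => h).trans' (H.up' hi hs')))⟩

end ZD

end Pool.Agent.Lib.MP_688fd0_co.SQ5.FT
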