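import Pool.Agent.Lib.MP_688fd0_co.SQ5.FT.AsmE

/-!
FT, assembly F (helper62): the ports of the bands, the cluster of a coset.
-/

set_option autoImplicit false

namespace Pool.Agent.Lib.MP_688fd0_co.SQ5.FT

open Function Pool.Agent.Lib.MP_688fd0_co.OSF H64 H95

universe v

variable {G : Type} [Group G] {B : Lb.{0, v} G} {F : HF B} {Zr : Type} {S : Zr → Type} {N : Zr → ℕ}

namespace Plc

variable {X : Rgs F Zr S N} {O : Zr → Type} {nb : Zr → ℕ} (L : Plc X O nb) {V : ∀ z, Set (S z)} (cp : ∀ z, V z → O z)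

/-- The ports of the bands. -/
abbrev Pt : Type := Σ r : (Σ z, L.fr z), L.VG cp r × Bool

/-- The outer vertex of a port. -/
def evp (p : L.Pt cp) : G := L.X1.ev p.1 (p.2.1.1, p.2.2)

/-- The port of a strand at a band. -/
def pt {z : Zr} (q : L.fr z) (s : V z) (h : cp z s = L.ob z q) (b : Bool) : L.Pt cp := ⟨⟨z, q⟩, (⟨s.1, s.2, h⟩, b)⟩

theorem evp_true {z : Zr} (q : L.fr z) (s : V z) (h : cp z s = L.ob z q) :
    L.evp cp (L.pt cp q s h true) = (X.C z).Z ((q.1 + 1) * L.bl z) s.1 0 := L.ev_true z q s.1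

theorem evp_false {z : Zr} (q : L.fr z) (s : V z) (h : cp z s = L.ob z q) :
    L.evp cp (L.pt cp q s h false) = (X.C z).Z (q.1 * L.bl z) s.1 ((X.C z).h (q.1 * L.bl z) s.1) := L.ev_false z q s.1

theorem fr_lt {z : Zr} (q : L.fr z) : q.1 < N z := by
  have h1 := L.le z q.1 q.2
  have h2 : (q.1 + 1) * 1 ≤ (q.1 + 1) * nb z := Nat.mul_le_mul_left _ (L.pos z)
  omega

instance (z : Zr) : Finite (L.fr z) :=
  Finite.of_injective (fun q : L.fr z => (⟨q.1, L.fr_lt q⟩ : Fin (N z))) fun q q' h => by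
    have := congrArg Fin.val h
    exact Subtype.ext this

theorem act_R {x : G} (h : L.X1.Act (L.VG cp) x) : X.ActR V x := by
  obtain ⟨z, q, s, hs, m, i, -, h2, h3, h4, h5⟩ := L.act_pos cp h
  have h6 := L.le_bl q
  exact ⟨z, m, s, i, hs, by omega, by omega, h4, h5⟩

/-- The highest place of an orbit. -/
theorem exists_hi (z : Zr) (o : O z) (h : ∃ q : L.fr z, L.ob z q = o) :
    ∃ q : L.fr z, L.ob z q = o ∧ ∀ q' : L.fr z, L.ob z q' = o → q'.1 ≤ q.1 := by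
  obtain ⟨q, h1⟩ := h
  have hle : ∀ q' : L.fr z, (q'.1 + 1) * L.bl z < N z * (X.l z + 1) + 1 := fun q' => by
    have := L.le_bl q'
    omega
  obtain ⟨h2, h3, -⟩ := L.lw_spec (z := z) (a := N z * (X.l z + 1) + 1) (o := o) ⟨q, h1, hle q⟩
  exact ⟨⟨_, h2⟩, h3, fun q' hq' => L.le_lw q' hq' (hle q')⟩

/-- The lowest place of an orbit. -/
theorem exists_lo (z : Zr) (o : O z) (h : ∃ q : L.fr z, L.ob z q = o) :
    ∃ q : L.fr z, L.ob z q = o ∧ ∀ q' : L.fr z, L.ob z q' = o → q.1 ≤ q'.1 := by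
  obtain ⟨q, h1⟩ := h
  obtain ⟨h2, h3⟩ := Nat.sInf_mem (s := {j | ∃ h : j ∈ L.fr z, L.ob z ⟨j, h⟩ = o}) ⟨q.1, q.2, h1⟩
  exact ⟨⟨_, h2⟩, h3, fun q' hq' => Nat.sInf_le ⟨q'.2, hq'⟩⟩

/-- The place of the same orbit below. -/
theorem exists_pred (z : Zr) (q : L.fr z) (h : ∃ q' : L.fr z, L.ob z q' = L.ob z q ∧ q'.1 < q.1) :
    ∃ q' : L.fr z, L.ob z q' = L.ob z q ∧ q'.1 < q.1 ∧ ∀ q'' : L.fr z, L.ob z q'' = L.ob z q → q''.1 < q.1 → q''.1 ≤ q'.1 := by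
  have hlt : ∀ q' : L.fr z, q'.1 < q.1 ↔ (q'.1 + 1) * L.bl z < q.1 * L.bl z + 1 := fun q' => by
    rw [Nat.lt_succ_iff, Nat.mul_le_mul_right_iff (L.bl_pos z)]
    omega
  obtain ⟨q', h1, h2⟩ := h
  obtain ⟨h3, h4, h5⟩ := L.lw_spec (z := z) (a := q.1 * L.bl z + 1) (o := L.ob z q) ⟨q', h1, (hlt q').1 h2⟩
  exact ⟨⟨_, h3⟩, h4, (hlt ⟨_, h3⟩).2 h5, fun q'' a1 a2 => L.le_lw q'' a1 ((hlt q'').1 a2)⟩

end Plc

namespace ZD

variable {A : Set G} {X : Rgs F Zr S N} {V W : ∀ z, Set (S z)} {gap : Zr → ℕ} {Ξ : Type} {ξ : Zr → Ξ}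
  {D : ThrR A X W gap ξ} {O : Zr → Type} {nb : Zr → ℕ} {L : Plc X O nb} {cp : ∀ z, V z → O z} (H : ZD D L cp)

include H

/-- THE PORT of a vertex of a zone. -/
theorem zport {i : ℕ} (hi : i ≤ 3 * D.m) {x : G} (hx : x ∈ H.Zn i) : ∃ p : L.Pt cp, p.1.1 = D.z i ∧
    L.evp cp p ∈ H.Zn i ∧ H22.Cn D.F'.Ed (H.Zn i) x (L.evp cp p) := by
  obtain ⟨s, hs, h | h⟩ := H.zend hi hx
  · obtain ⟨q, h1, h2, -⟩ := (H.ok i hi).ev_bt cp ⟨s, H.WV _ hs⟩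
    have h3 := (H.ok i hi).bt_lt cp ⟨s, H.WV _ hs⟩
    have h4 := (H.ok i hi).lt_tp cp ⟨s, H.WV _ hs⟩
    have h5 := (H.ok i hi).le
    have e : L.evp cp (L.pt cp q ⟨s, H.WV _ hs⟩ h1.symm true) = _ := h2
    refine ⟨L.pt cp q ⟨s, H.WV _ hs⟩ h1.symm true, rfl, ?_, ?_⟩
    · rw [e]
      exact H.mem_Zn hs le_rfl (by omega) (Nat.zero_le _)
    · rw [e]
      exact h
  · obtain ⟨q, h1, h2, -⟩ := (H.ok i hi).ev_tp cp ⟨s, H.WV _ hs⟩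
    have h3 := (H.ok i hi).bt_lt cp ⟨s, H.WV _ hs⟩
    have h4 := (H.ok i hi).lt_tp cp ⟨s, H.WV _ hs⟩
    have h5 := (H.ok i hi).le
    have e : L.evp cp (L.pt cp q ⟨s, H.WV _ hs⟩ h1.symm false) = _ := h2
    refine ⟨L.pt cp q ⟨s, H.WV _ hs⟩ h1.symm false, rfl, ?_, ?_⟩
    · rw [e]
      exact H.mem_Zn hs (by omega) le_rfl le_rfl
    · rw [e]
      exact h

theorem zone_R {i : ℕ} (hi : i ≤ 3 * D.m) {x : G} (hx : x ∈ H.Zn i) : X.ActR V x := by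
  obtain ⟨s, hs, m, r, h1, h2, h3, rfl⟩ := hx
  have h4 := (H.ok i hi).tp_le cp ⟨s, H.WV _ hs⟩
  have h5 : L.bl (D.z i) ≤ L.bt cp (D.z i) (D.lo i) ⟨s, H.WV _ hs⟩ := Plc.bl_le_bt cp ⟨s, H.WV _ hs⟩
  have h6 := L.bl_pos (D.z i)
  exact ⟨D.z i, m, s, r, H.WV _ hs, by omega, by omega, h3, rfl⟩

/-- The zones in a run. -/
theorem zone_pos {i : ℕ} (hi : i ≤ 3 * D.m) {z : Zr} {m : ℕ} {s : S z} {r : ℕ} (hm : m ≤ N z * (X.l z + 1))
    (hr : r ≤ (X.C z).h m s) (hx : (X.C z).Z m s r ∈ H.Zn i) : ∃ hs : s ∈ W z,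
      (∃ q : L.fr z, L.ob z q = cp z ⟨s, H.WV z hs⟩ ∧ (q.1 + 1) * L.bl z ≤ m) ∧
      ∃ q : L.fr z, L.ob z q = cp z ⟨s, H.WV z hs⟩ ∧ m ≤ q.1 * L.bl z := by
  obtain ⟨s', hs', m', r', h1, h2, h3, e⟩ := hx
  have h4 := (H.ok i hi).tp_le cp ⟨s', H.WV _ hs'⟩
  by_cases hz : z = D.z i
  · subst hz
    obtain ⟨e1, e2, -⟩ := (X.run (D.z i)).inj _ _ _ _ _ _ hm (by omega) hr h3 e
    subst e1 e2
    obtain ⟨q, a1, -, a2⟩ := (H.ok i hi).ev_bt cp ⟨s, H.WV _ hs'⟩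
    obtain ⟨q', b1, -, b2⟩ := (H.ok i hi).ev_tp cp ⟨s, H.WV _ hs'⟩
    exact ⟨hs', ⟨q, a1, by omega⟩, ⟨q', b1, by omega⟩⟩
  · exact absurd e (H.far _ _ _ _ _ _ _ _ hz hm hr (by omega) h3)

/-- The vertices outside of the active strands and the zones. -/
def Ot : Set G := {x | ¬ L.X1.Act (L.VG cp) x ∧ ∀ i ≤ 3 * D.m, x ∉ H.Zn i}

/-- Adjacent ports. -/
def AdjZ (p q : L.Pt cp) : Prop := p ≠ q ∧ (∀ i ≤ 3 * D.m, L.evp cp p ∉ H.Zn i) ∧ (∀ i ≤ 3 * D.m, L.evp cp q ∉ H.Zn i) ∧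
  H22.Cn F.Ed H.Ot (L.evp cp p) (L.evp cp q)

/-- Above the highest band of the orbit. -/
theorem above {z : Zr} {s : V z} {q : L.fr z} (hq : ∀ q' : L.fr z, L.ob z q' = cp z s → q'.1 ≤ q.1) {m r : ℕ}
    (h1 : (q.1 + 1) * L.bl z ≤ m) (h2 : m ≤ N z * (X.l z + 1)) (h3 : r ≤ (X.C z).h m s.1) :
    (X.C z).Z m s.1 r ∈ H.Ot := by
  refine ⟨L.not_act cp H.far s.2 h2 h3 fun q' hq' h4 => ?_, fun i hi h4 => ?_⟩
  · have h5 : (q'.1 + 1) * L.bl z ≤ (q.1 + 1) * L.bl z := Nat.mul_le_mul_right _ (by have := hq q' hq'.symm; omega)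
    omega
  · obtain ⟨hs, -, q', h5, h6⟩ := H.zone_pos hi h2 h3 h4
    have h7 : q'.1 * L.bl z ≤ q.1 * L.bl z := Nat.mul_le_mul_right _ (hq q' h5)
    have h8 := L.succ_bl z q.1
    have h9 := L.bl_pos z
    omega

/-- Below the lowest band of the orbit. -/
theorem below {z : Zr} {s : V z} {q : L.fr z} (hq : ∀ q' : L.fr z, L.ob z q' = cp z s → q.1 ≤ q'.1) {m r : ℕ}
    (h1 : m ≤ q.1 * L.bl z) (h3 : r ≤ (X.C z).h m s.1) :
    (X.C z).Z m s.1 r ∈ H.Ot := by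
  have h0 := L.le_bl q
  have h00 := L.succ_bl z q.1
  refine ⟨L.not_act cp H.far s.2 (by omega) h3 fun q' hq' h4 => ?_, fun i hi h4 => ?_⟩
  · have h5 : q.1 * L.bl z ≤ q'.1 * L.bl z := Nat.mul_le_mul_right _ (hq q' hq'.symm)
    omega
  · obtain ⟨hs, ⟨q', h5, h6⟩, -⟩ := H.zone_pos hi (by omega) h3 h4
    have h7 : (q.1 + 1) * L.bl z ≤ (q'.1 + 1) * L.bl z := Nat.mul_le_mul_right _ (by have := hq q' h5; omega)
    have h9 := L.bl_pos z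
    omega

/-- Between two bands of the orbit. -/
theorem between {z : Zr} {s : V z} (hs : s.1 ∉ W z) {q q' : L.fr z}
    (hq : ∀ q'' : L.fr z, L.ob z q'' = cp z s → q''.1 < q.1 → q''.1 ≤ q'.1) {m r : ℕ}
    (h1 : (q'.1 + 1) * L.bl z ≤ m) (h2 : m ≤ q.1 * L.bl z) (h3 : r ≤ (X.C z).h m s.1) :
    (X.C z).Z m s.1 r ∈ H.Ot := by
  have h0 := L.le_bl q
  have h00 := L.succ_bl z q.1
  have h9 := L.bl_pos z
  refine ⟨L.not_act cp H.far s.2 (by omega) h3 fun q'' hq' h4 => ?_, fun i hi h4 => ?_⟩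
  · by_cases h5 : q''.1 < q.1
    · have h6 : (q''.1 + 1) * L.bl z ≤ (q'.1 + 1) * L.bl z := Nat.mul_le_mul_right _ (by have := hq q'' hq'.symm h5; omega)
      omega
    · have h6 : q.1 * L.bl z ≤ q''.1 * L.bl z := Nat.mul_le_mul_right _ (by omega)
      omega
  · obtain ⟨hs', -, -⟩ := H.zone_pos hi (by omega) h3 h4
    exact hs hs'

/-- Two consecutive bands of an orbit. -/
theorem adj_succ {z : Zr} {s : V z} (hs : s.1 ∉ W z) {q q' : L.fr z} (hlt : q'.1 < q.1)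
    (hq : ∀ q'' : L.fr z, L.ob z q'' = cp z s → q''.1 < q.1 → q''.1 ≤ q'.1) (h : cp z s = L.ob z q)
    (h' : cp z s = L.ob z q') : H.AdjZ (L.pt cp q' s h' true) (L.pt cp q s h false) := by
  have h0 := L.le_bl q
  have h00 := L.succ_bl z q.1
  have hm : (q'.1 + 1) * L.bl z ≤ q.1 * L.bl z := Nat.mul_le_mul_right _ hlt
  have key := fun (m r : ℕ) h1 h2 h3 => H.between (m := m) (r := r) hs hq h1 h2 h3
  refine ⟨fun e => ?_, ?_, ?_, ?_⟩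
  · have e1 : (⟨z, q'⟩ : Σ z, L.fr z) = ⟨z, q⟩ := congrArg Sigma.fst e
    have e2 : q' = q := eq_of_heq (Sigma.mk.inj e1).2
    rw [e2] at hlt
    omega
  · rw [L.evp_true]
    exact (key _ _ le_rfl hm (Nat.zero_le _)).2
  · rw [L.evp_false]
    exact (key _ _ hm le_rfl le_rfl).2
  · rw [L.evp_true, L.evp_false]
    exact (X.run z).up_cn (F' := F) hm (by omega) s.1 H.Ot (fun m r a1 a2 a3 => key m r a1 a2 a3) (fun _ _ _ _ _ => rfl) _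
      le_rfl

end ZD

end Pool.Agent.Lib.MP_688fd0_co.SQ5.FT
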