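import Pool.Agent.Lib.MP_688fd0_co.SQ5.FT.AsmF

/-!
FT, assembly G (helper62): the cluster of the regions of a coset.
-/

set_option autoImplicit false

namespace Pool.Agent.Lib.MP_688fd0_co.SQ5.FT

open Function Relation Pool.Agent.Lib.MP_688fd0_co.OSF H64 H95

universe v

variable {G : Type} [Group G] {B : Lb.{0, v} G} {F : HF B} {Zr : Type} {S : Zr → Type} {N : Zr → ℕ}

/-- The ports of a component. -/
abbrev PoO {V : ∀ z, Set (S z)} {O : Zr → Type} (cp : ∀ z, V z → O z) (r : Σ z, O z) : Type :=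
  {s : V r.1 // cp r.1 s = r.2} × Bool

/-- A path between ends of runs which avoids the strands of `V`. -/
def PAdjO (X : Rgs F Zr S N) {V : ∀ z, Set (S z)} {O : Zr → Type} (cp : ∀ z, V z → O z) (p q : Σ r, PoO cp r) : Prop :=
  p ≠ q ∧ H22.Cn F.Ed {x | ¬ X.ActR V x} (X.ev p.1.1 (p.2.1.1.1, p.2.2)) (X.ev q.1.1 (q.2.1.1.1, q.2.2))

theorem PAdj_eq (X : Rgs F Zr S N) (V : ∀ z, Set (S z)) (Λ : ∀ z, SimpleGraph (V z)) :
    PAdj X V Λ = PAdjO X (Rgs.cpC V Λ) := rfl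

namespace ZD

variable {A : Set G} {X : Rgs F Zr S N} {V W : ∀ z, Set (S z)} {gap : Zr → ℕ} {Ξ : Type} {ξ : Zr → Ξ}
  {D : ThrR A X W gap ξ} {O : Zr → Type} {nb : Zr → ℕ} {L : Plc X O nb} {cp : ∀ z, V z → O z} (H : ZD D L cp)

include H

/-- The cluster of the bands of one component. -/
theorem cls_one [Finite Zr] (out3 : ∀ z (κ : O z), ∃ f : Fin 3 → V z, Injective f ∧ ∀ i, cp z (f i) = κ ∧ (f i).1 ∉ W z)
    (z : Zr) (κ : O z) (hex : ∃ q : L.fr z, L.ob z q = κ) :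
    Cls H.AdjZ {r : Σ z, L.fr z | (⟨r.1, L.ob r.1 r.2⟩ : Σ z, O z) ∈ ({⟨z, κ⟩} : Set (Σ z, O z))} := by
  obtain ⟨q0, h0, hmin⟩ := L.exists_lo z κ hex
  have hmem : ∀ q : L.fr z, L.ob z q = κ → (⟨z, q⟩ : Σ z, L.fr z) ∈ {r : Σ z, L.fr z |
      (⟨r.1, L.ob r.1 r.2⟩ : Σ z, O z) ∈ ({⟨z, κ⟩} : Set (Σ z, O z))} := by
    intro q hq
    show (⟨z, L.ob z q⟩ : Σ z, O z) = ⟨z, κ⟩
    rw [hq]
  refine Cls.of_regions ⟨z, q0⟩ (hmem q0 h0) ?_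
  rintro ⟨z', q⟩ hq
  have hq : (⟨z', L.ob z' q⟩ : Σ z, O z) = ⟨z, κ⟩ := hq
  obtain rfl : z' = z := congrArg Sigma.fst hq
  have hq' : L.ob z' q = κ := eq_of_heq (Sigma.mk.inj hq).2
  have key : ∀ n, ∀ q : L.fr z', q.1 = n → L.ob z' q = κ → ReflTransGen (fun r r' => r ∈ {r : Σ z, L.fr z |
      (⟨r.1, L.ob r.1 r.2⟩ : Σ z, O z) ∈ ({⟨z', κ⟩} : Set (Σ z, O z))} ∧ r' ∈ {r : Σ z, L.fr z |
      (⟨r.1, L.ob r.1 r.2⟩ : Σ z, O z) ∈ ({⟨z', κ⟩} : Set (Σ z, O z))} ∧ Tri3 H.AdjZ {r} {r'}) ⟨z', q0⟩ ⟨z', q⟩ := by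
    intro n
    induction n using Nat.strong_induction_on with
    | _ n ih =>
      intro q hn hq
      by_cases hq0 : q = q0
      · rw [hq0]
      · have h1 := hmin q hq
        have h2 : q0.1 ≠ q.1 := fun e => hq0 (Subtype.ext e.symm)
        obtain ⟨q', a1, a2, a3⟩ := L.exists_pred z' q ⟨q0, h0.trans hq.symm, by omega⟩
        have h3 := ih q'.1 (by omega) q' rfl (a1.trans hq)
        refine h3.tail ⟨hmem q' (a1.trans hq), hmem q hq, ?_⟩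
        obtain ⟨f, hf, hf'⟩ := out3 z' κ
        refine ⟨fun l => L.pt cp q' (f l) ((hf' l).1.trans (a1.trans hq).symm) true, ?_, fun l => ⟨rfl, ?_⟩⟩
        · intro l l' e
          apply hf
          have e1 := eq_of_heq (Sigma.mk.inj e).2
          have e2 := congrArg (fun x => x.1.1) e1
          exact Subtype.ext e2
        · refine ⟨L.pt cp q (f l) ((hf' l).1.trans hq.symm) false, rfl, ?_⟩
          refine H.adj_succ (hf' l).2 a2 (fun q'' b1 b2 => a3 q'' ?_ b2) _ _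
          rw [b1, (hf' l).1, hq]
  exact key q.1 q rfl hq'

variable (hex : ∀ z (κ : O z), ∃ q : L.fr z, L.ob z q = κ)

omit H in
theorem exists_qb (z : Zr) (κ : O z) (b : Bool) (hex : ∀ z (κ : O z), ∃ q : L.fr z, L.ob z q = κ) :
    ∃ q : L.fr z, L.ob z q = κ ∧ ∀ q' : L.fr z, L.ob z q' = κ → if b = true then q'.1 ≤ q.1 else q.1 ≤ q'.1 := by
  cases b
  · obtain ⟨q, h1, h2⟩ := L.exists_lo z κ (hex z κ)
    exact ⟨q, h1, fun q' h => h2 q' h⟩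
  · obtain ⟨q, h1, h2⟩ := L.exists_hi z κ (hex z κ)
    exact ⟨q, h1, fun q' h => h2 q' h⟩

/-- The band port of a port of a run. -/
noncomputable def pm (hex : ∀ z (κ : O z), ∃ q : L.fr z, L.ob z q = κ) (p : Σ r, PoO cp r) : L.Pt cp :=
  (fun _ : ZD D L cp => L.pt cp (exists_qb p.1.1 p.1.2 p.2.2 hex).choose p.2.1.1
    (p.2.1.2.trans (exists_qb p.1.1 p.1.2 p.2.2 hex).choose_spec.1.symm) p.2.2) H

theorem pm_inj : Injective (H.pm hex) := by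
  intro p p' e
  have e1 : (⟨p.1.1, (p.2.1.1.1, p.2.2)⟩ : Σ z, S z × Bool) = ⟨p'.1.1, (p'.2.1.1.1, p'.2.2)⟩ :=
    congrArg (fun x : L.Pt cp => (⟨x.1.1, (x.2.1.1, x.2.2)⟩ : Σ z, S z × Bool)) e
  obtain ⟨⟨z, κ⟩, ⟨⟨s, hs⟩, b⟩⟩ := p
  obtain ⟨⟨z', κ'⟩, ⟨⟨s', hs'⟩, b'⟩⟩ := p'
  obtain rfl : z = z' := congrArg Sigma.fst e1
  have e2 := eq_of_heq (Sigma.mk.inj e1).2
  have e3 : s = s' := Subtype.ext (Prod.ext_iff.1 e2).1
  have e4 : b = b' := (Prod.ext_iff.1 e2).2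
  subst e3 e4
  have hs : cp z s = κ := hs
  have hs' : cp z s = κ' := hs'
  obtain rfl : κ = κ' := hs.symm.trans hs'
  rfl

theorem pm_fst (p : Σ r, PoO cp r) :
    (⟨(H.pm hex p).1.1, L.ob (H.pm hex p).1.1 (H.pm hex p).1.2⟩ : Σ z, O z) = p.1 := by
  obtain ⟨⟨z, κ⟩, ⟨⟨s, hs⟩, b⟩⟩ := p
  show (⟨z, L.ob z (exists_qb z κ b hex).choose⟩ : Σ z, O z) = ⟨z, κ⟩
  rw [(exists_qb z κ b hex).choose_spec.1]

/-- From the band to the end of the run. -/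
theorem pm_path (p : Σ r, PoO cp r) : (∀ i ≤ 3 * D.m, L.evp cp (H.pm hex p) ∉ H.Zn i) ∧
    H22.Cn F.Ed H.Ot (L.evp cp (H.pm hex p)) (X.ev p.1.1 (p.2.1.1.1, p.2.2)) := by
  have hsy : ∀ x y, F.Ed x y → F.Ed y x := fun x y h => F.ed_symm h
  obtain ⟨⟨z, κ⟩, ⟨⟨s, hs⟩, b⟩⟩ := p
  have hs : cp z s = κ := hs
  obtain ⟨h1, h2⟩ := (exists_qb z κ b hex).choose_spec
  have e : H.pm hex ⟨⟨z, κ⟩, ⟨⟨s, hs⟩, b⟩⟩ = L.pt cp (exists_qb z κ b hex).choose s (hs.trans h1.symm) b := rfl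
  rw [e]
  generalize hq : (exists_qb z κ b hex).choose = q at h1 h2 ⊢
  cases b with
  | true =>
    have h3 : ∀ q' : L.fr z, L.ob z q' = cp z s → q'.1 ≤ q.1 := fun q' h => h2 q' (h.trans hs)
    have h4 := L.le_bl q
    rw [L.evp_true]
    refine ⟨(H.above h3 le_rfl h4 (Nat.zero_le _)).2, ?_⟩
    show H22.Cn F.Ed H.Ot _ ((X.C z).Z (N z * (X.l z + 1)) s.1 0)
    exact (X.run z).up_cn (F' := F) h4 le_rfl s.1 H.Ot (fun m r a1 a2 a3 => H.above h3 a1 a2 a3) (fun _ _ _ _ _ => rfl) 0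
      (Nat.zero_le _)
  | false =>
    have h3 : ∀ q' : L.fr z, L.ob z q' = cp z s → q.1 ≤ q'.1 := fun q' h => h2 q' (h.trans hs)
    have h4 := L.le_bl q
    have h5 := L.succ_bl z q.1
    rw [L.evp_false]
    refine ⟨(H.below h3 le_rfl le_rfl).2, ?_⟩
    show H22.Cn F.Ed H.Ot _ ((X.C z).Z 0 s.1 ((X.C z).h 0 s.1))
    have key := fun (m : ℕ) (hm : m ≤ q.1 * L.bl z) => (X.run z).up_cn (F' := F) (m0 := 0) (m := m) (Nat.zero_le _)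
      (by omega) s.1 H.Ot (fun m' r _ a2 a3 => H.below h3 (by omega) a3) (fun _ _ _ _ _ => rfl) _ le_rfl
    exact ((key _ le_rfl).symm' hsy).trans' (key 0 (Nat.zero_le _))

theorem pm_adj {p q : Σ r, PoO cp r} (h : PAdjO X cp p q) : H.AdjZ (H.pm hex p) (H.pm hex q) := by
  have hsy : ∀ x y, F.Ed x y → F.Ed y x := fun x y h => F.ed_symm h
  obtain ⟨h1, h2⟩ := h
  obtain ⟨h3, h4⟩ := H.pm_path hex p
  obtain ⟨h5, h6⟩ := H.pm_path hex q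
  refine ⟨fun e => h1 (H.pm_inj hex e), h3, h5, h4.trans' ((h2.mono ?_ fun _ _ _ _ h => h).trans' (h6.symm' hsy))⟩
  intro x hx
  exact ⟨fun hc => hx (L.act_R cp hc), fun i hi hc => hx (H.zone_R hi hc)⟩

include hex in
/-- The clusters. -/
theorem cls_map [Finite Zr] (out3 : ∀ z (κ : O z), ∃ f : Fin 3 → V z, Injective f ∧ ∀ i, cp z (f i) = κ ∧ (f i).1 ∉ W z)
    {𝒮 : Set (Σ z, O z)} (h : Cls (PAdjO X cp) 𝒮) :
    Cls H.AdjZ {r : Σ z, L.fr z | (⟨r.1, L.ob r.1 r.2⟩ : Σ z, O z) ∈ 𝒮} := by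
  induction h with
  | one ρ => exact H.cls_one out3 ρ.1 ρ.2 (hex _ _)
  | @join 𝒮 𝒯 _ _ hd h3 ih₁ ih₂ =>
    have e : {r : Σ z, L.fr z | (⟨r.1, L.ob r.1 r.2⟩ : Σ z, O z) ∈ 𝒮 ∪ 𝒯} =
        {r : Σ z, L.fr z | (⟨r.1, L.ob r.1 r.2⟩ : Σ z, O z) ∈ 𝒮} ∪
        {r : Σ z, L.fr z | (⟨r.1, L.ob r.1 r.2⟩ : Σ z, O z) ∈ 𝒯} := rfl
    have hd' : Disjoint {r : Σ z, L.fr z | (⟨r.1, L.ob r.1 r.2⟩ : Σ z, O z) ∈ 𝒮}
        {r : Σ z, L.fr z | (⟨r.1, L.ob r.1 r.2⟩ : Σ z, O z) ∈ 𝒯} := by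
      rw [Set.disjoint_left]
      intro r h1 h2
      exact Set.disjoint_left.1 hd h1 h2
    rw [e]
    refine Cls.join ih₁ ih₂ hd' ?_
    obtain ⟨p, hp, hp'⟩ := h3
    refine ⟨fun l => H.pm hex (p l), fun l l' e => hp (H.pm_inj hex e), fun l => ⟨?_, ?_⟩⟩
    · show (⟨(H.pm hex (p l)).1.1, L.ob (H.pm hex (p l)).1.1 (H.pm hex (p l)).1.2⟩ : Σ z, O z) ∈ 𝒮
      rw [H.pm_fst]
      exact (hp' l).1
    · obtain ⟨q, hq, ha⟩ := (hp' l).2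
      refine ⟨H.pm hex q, ?_, H.pm_adj hex ha⟩
      show (⟨(H.pm hex q).1.1, L.ob (H.pm hex q).1.1 (H.pm hex q).1.2⟩ : Σ z, O z) ∈ 𝒯
      rw [H.pm_fst]
      exact hq

end ZD

end Pool.Agent.Lib.MP_688fd0_co.SQ5.FT
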