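import Pool.Agent.Lib.MP_688fd0_co.SQ5.FT.AsmG

/-!
FT, assembly H (helper62): the insides of the active ports of a band; the touched 2-factor with its bands.
-/

set_option autoImplicit false

namespace Pool.Agent.Lib.MP_688fd0_co.SQ5.FT

open Function Relation Pool.Agent.Lib.MP_688fd0_co.OSF H64 H95
open Pool.Agent.Lib.MP_688fd0_co.SQ4.H49 (Inv gl gl_inv)

universe v

variable {G : Type} [Group G] {B : Lb.{0, v} G} {F : HF B} {Zr : Type} {S : Zr → Type} {N : Zr → ℕ}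

/-- The insides of the active ports. -/
def KVC (A : Set G) (X : Rgs F Zr S N) (V : ∀ z, Set (S z)) (Λ : ∀ z, SimpleGraph (V z)) (nb : Zr → ℕ)
    (ρ : Σ z, Rgs.KC V Λ z) : Set (Rgs.VB V (Rgs.cpC V Λ) ρ × Bool → Rgs.VB V (Rgs.cpC V Λ) ρ × Bool) :=
  {d | IsPair d ∧ StkT (X.D0 A ρ.1) (nb ρ.1) (extV (Rgs.VB V (Rgs.cpC V Λ) ρ) d)}

/-- They have `Sep`. -/
theorem kvc [∀ z, Fintype (S z)] [∀ z, DecidableEq (S z)] {A : Set G} {c : ℕ} {X : Rgs F Zr S N}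
    {V W : ∀ z, Set (S z)} {Λ : ∀ z, SimpleGraph (V z)} {U : Zr → G} {nb mm gap : Zr → ℕ} {Ξ : Type} {ξ : Zr → Ξ}
    (hS : Star4S c) (hA : ∀ d : F.X, B.q d.1.2 ∈ A) (b : BaseT A c X V W Λ U nb mm gap ξ) (ρ : Σ z, Rgs.KC V Λ z) :
    SQ4.H49.Sep (KVC A X V Λ nb ρ) ∧ (KVC A X V Λ nb ρ).Nonempty ∧
      ∃ p : Fin 3 → Rgs.VB V (Rgs.cpC V Λ) ρ × Bool, Injective p := by
  classical
  have hi : ∀ z, idd ∈ X.D0 A z := fun z => X.idd_D0 hA z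
  have hstar : H64.Star {d : Rgs.VB V (Rgs.cpC V Λ) ρ × Bool → Rgs.VB V (Rgs.cpC V Λ) ρ × Bool |
      ∃ k ≤ c * Nat.card (Rgs.VB V (Rgs.cpC V Λ) ρ) ^ 2, H69.Stk (Rgs.ΛC V Λ ρ) k d} := by
    refine hS _ _ (Rgs.conn_ΛC V Λ ρ) ?_ ?_
    · obtain ⟨x⟩ := (Rgs.conn_ΛC V Λ ρ).nonempty
      obtain ⟨y, hy⟩ := b.iso ρ.1 (Rgs.fC V Λ x)
      refine ⟨x, Rgs.gC V Λ y ((Rgs.cp_adj V Λ hy).trans (Rgs.cpC_fC V Λ x)), fun h => hy.ne ?_⟩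
      have := congrArg (Rgs.fC V Λ) h
      exact this
    · intro x y h
      rcases b.four ρ.1 _ _ h with h1 | h1
      · exact Or.inl (Rgs.four_ΛC V Λ x h1)
      · exact Or.inr (Rgs.four_ΛC V Λ y h1)
  have hcard : Nat.card (Rgs.VB V (Rgs.cpC V Λ) ρ) ≤ Nat.card (V ρ.1) :=
    Nat.card_le_card_of_injective (Rgs.fC V Λ) (Rgs.fC_inj V Λ)
  have hsub : {d : Rgs.VB V (Rgs.cpC V Λ) ρ × Bool → Rgs.VB V (Rgs.cpC V Λ) ρ × Bool |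
      ∃ k ≤ c * Nat.card (Rgs.VB V (Rgs.cpC V Λ) ρ) ^ 2, H69.Stk (Rgs.ΛC V Λ ρ) k d} ⊆ KVC A X V Λ nb ρ := by
    rintro d ⟨k, hk, hd⟩
    refine ⟨hd.pair, StkT.mono (X.D0_pair ρ.1) (hi ρ.1) (stkT_of_stk (X.D0_pair ρ.1) (hi ρ.1) (b.mpos ρ.1) ?_ hd) ?_⟩
    · intro x y y' h1 h2 h3
      exact b.p3 ρ.1 (Rgs.fC V Λ x) (Rgs.fC V Λ y) (Rgs.fC V Λ y') h1 h2 fun h => h3 (Rgs.fC_inj V Λ h)
    · refine le_trans (Nat.mul_le_mul_right _ ?_) (b.mnb ρ.1)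
      have h1 : c * Nat.card (Rgs.VB V (Rgs.cpC V Λ) ρ) ^ 2 ≤ c * Nat.card (V ρ.1) ^ 2 :=
        Nat.mul_le_mul_left _ (Nat.pow_le_pow_left hcard 2)
      omega
  have hfour : ∃ f : Fin 4 → Rgs.VB V (Rgs.cpC V Λ) ρ, Injective f := by
    obtain ⟨x⟩ := (Rgs.conn_ΛC V Λ ρ).nonempty
    obtain ⟨y, hy⟩ := b.iso ρ.1 (Rgs.fC V Λ x)
    rcases b.four ρ.1 _ _ hy with h1 | h1
    · obtain ⟨f, hf, -⟩ := Rgs.four_ΛC V Λ x h1
      exact ⟨f, hf⟩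
    · obtain ⟨f, hf, -⟩ := Rgs.four_ΛC V Λ (Rgs.gC V Λ y ((Rgs.cp_adj V Λ hy).trans (Rgs.cpC_fC V Λ x))) h1
      exact ⟨f, hf⟩
  refine ⟨(sep_of_star (fun d hd => ?_) hstar).mono hsub, ⟨idd, hsub ⟨0, Nat.zero_le _, H69.Stk.nil⟩⟩, ?_⟩
  · obtain ⟨k, -, hd⟩ := hd
    exact hd.pair
  · obtain ⟨f, hf⟩ := hfour
    refine ⟨fun i => (f (Fin.castSucc i), true), fun i j h => ?_⟩
    have h1 : f (Fin.castSucc i) = f (Fin.castSucc j) := (Prod.ext_iff.1 h).1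
    exact Fin.castSucc_injective _ (hf h1)

namespace ZD

variable {A : Set G} {X : Rgs F Zr S N} {V W : ∀ z, Set (S z)} {gap : Zr → ℕ} {Ξ : Type} {ξ : Zr → Ξ}
  {D : ThrR A X W gap ξ} {O : Zr → Type} {nb : Zr → ℕ} {L : Plc X O nb} {cp : ∀ z, V z → O z} (H : ZD D L cp)

include H

omit H in
theorem blk {z : Zr} {q : L.fr z} {m : ℕ} (hm : m ≤ nb z * (X.l z + 1)) :
    q.1 * L.bl z ≤ X.of L.cut ⟨z, q⟩ + m ∧ X.of L.cut ⟨z, q⟩ + m ≤ (q.1 + 1) * L.bl z := by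
  have h1 := L.of_eq z q
  have h2 := L.succ_bl z q.1
  have h3 : L.bl z = nb z * (X.l z + 1) := rfl
  omega

theorem hT (r : Σ z, L.fr z) (m : ℕ) (s : S r.1) (i : ℕ) (hm : m ≤ nb r.1 * (X.l r.1 + 1))
    (hi : i ≤ (L.X1.C r).h m s) : (L.X1.C r).Z m s i ∉ D.T := by
  obtain ⟨z, q⟩ := r
  obtain ⟨h1, h2⟩ := blk (q := q) hm
  exact H.place_T q h1 h2 hi

/-- The bands of the touched 2-factor. -/
def X2 : Rgs D.F' (Σ z, L.fr z) (fun r : (Σ z, L.fr z) => S r.1) (fun r : (Σ z, L.fr z) => nb r.1) :=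
  chg L.X1 D.off H.hT

theorem vis_ne {i : ℕ} (hi : i ≤ 3 * D.m) {x : G} (hx : x ∈ Vis X W (D.z i) (D.lo i) (D.hi i)) (r : Σ z, L.fr z) (m : ℕ)
    (s : S r.1) (j : ℕ) (hm : m ≤ nb r.1 * (X.l r.1 + 1)) (hj : j ≤ (H.X2.C r).h m s) : x ≠ (H.X2.C r).Z m s j := by
  rintro rfl
  obtain ⟨z, q⟩ := r
  obtain ⟨h1, h2⟩ := blk (q := q) hm
  exact H.place_vis hi q h1 h2 hj hx

/-- The labels of the boundary darts. -/
theorem hA2 (a : Σ r : (Σ z, L.fr z), Fin (nb r.1)) (p : S a.1.1 × Bool) : B.q (H.X2.pd a p).1.2 ∈ A := by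
  have hm := D.m2
  have hb := H.X2.bs_lt a
  have hvt : ∃ (m : ℕ) (j : ℕ), m ≤ nb a.1.1 * (X.l a.1.1 + 1) ∧ j ≤ (H.X2.C a.1).h m p.1 ∧
      D.F'.vt (H.X2.pd a p) = (H.X2.C a.1).Z m p.1 j := by
    obtain ⟨s, _ | _⟩ := p
    · exact ⟨_, _, (Nat.le_of_lt (by
        have h2 : H.X2.bs a + X.l a.1.1 + 1 ≤ nb a.1.1 * (X.l a.1.1 + 1) := hb
        omega : H.X2.bs a < nb a.1.1 * (X.l a.1.1 + 1))), le_rfl, H.X2.vt_pd_false a s⟩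
    · exact ⟨_, _, hb, Nat.zero_le _, H.X2.vt_pd_true a s⟩
  obtain ⟨m, j, h1, h2, h3⟩ := hvt
  apply D.lab
  · intro e
    rw [e, D.d0y] at h3
    exact H.vis_ne (by omega) (D.yV (3 * D.m - 1) (by omega)) a.1 m p.1 j h1 h2 h3
  · intro e
    rw [e, D.d0e] at h3
    exact H.vis_ne (by omega) (D.eV 0 (by omega)) a.1 m p.1 j h1 h2 h3

/-- Every vertex is joined to an active one. -/
theorem act2 (hex : ∀ z (κ : O z), ∃ q : L.fr z, L.ob z q = κ)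
    (hflush : ∀ x : G, ∃ (z : Zr) (m : ℕ) (s : S z) (i : ℕ), s ∈ V z ∧ m ≤ N z * (X.l z + 1) ∧ i ≤ (X.C z).h m s ∧
      F.C x ((X.C z).Z m s i)) (x : G) : ∃ y, L.X1.Act (L.VG cp) y ∧ D.F'.C x y := by
  have hsy : ∀ x y, F.Ed x y → F.Ed y x := fun x y h => F.ed_symm h
  have hsy' : ∀ x y, D.F'.Ed x y → D.F'.Ed y x := fun x y h => D.F'.ed_symm h
  obtain ⟨z, m, s, i, hs, hm, hi, hc⟩ := hflush x
  obtain ⟨q, hq⟩ := hex z (cp z ⟨s, hs⟩)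
  have hle := L.le_bl q
  have hsu := L.succ_bl z q.1
  have hbp := L.bl_pos z
  have k1 := (X.run z).up_cn (F' := F) (m0 := 0) (m := m) (Nat.zero_le _) hm s Set.univ (fun _ _ _ _ _ => Set.mem_univ _)
    (fun _ _ _ _ _ => rfl) i hi
  have k2 := (X.run z).up_cn (F' := F) (m0 := 0) (m := q.1 * L.bl z + 1) (Nat.zero_le _) (by omega) s Set.univ
    (fun _ _ _ _ _ => Set.mem_univ _) (fun _ _ _ _ _ => rfl) 0 (Nat.zero_le _)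
  have k3 : F.C x ((X.C z).Z (q.1 * L.bl z + 1) s 0) := hc.trans (F.c_of_cn ((k1.symm' hsy).trans' k2))
  rcases H12.c_or D.off k3 with k4 | ⟨u, hu, k4⟩
  · exact ⟨_, L.act_mk cp hs q hq.symm, k4⟩
  · obtain ⟨i, hi, huz⟩ := H.T_sub hu
    obtain ⟨s', hs', k5⟩ := H.zend hi.le huz
    have key : ∀ (z : Zr) (s : S z) (hs : s ∈ V z) (q : L.fr z), L.ob z q = cp z ⟨s, hs⟩ → ∀ m j, q.1 * L.bl z ≤ m →
        m ≤ (q.1 + 1) * L.bl z → j ≤ (X.C z).h m s → D.F'.C ((X.C z).Z m s j) ((X.C z).Z (q.1 * L.bl z + 1) s 0) := by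
      intro z s hs q hq m j h1 h2 h3
      have hle := L.le_bl q
      have hsu := L.succ_bl z q.1
      have hbp := L.bl_pos z
      have hag : ∀ m' r, q.1 * L.bl z ≤ m' → m' ≤ (q.1 + 1) * L.bl z → r ≤ (X.C z).h m' s →
          D.F'.H ((X.C z).Z m' s r) = F.H ((X.C z).Z m' s r) := fun m' r a1 a2 a3 => D.off _ (H.place_T q a1 a2 a3)
      have j1 := (X.run z).up_cn (F' := D.F') (m0 := q.1 * L.bl z) (m := m) h1 (by omega) s Set.univ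
        (fun _ _ _ _ _ => Set.mem_univ _) (fun m' r a1 a2 a3 => hag m' r a1 (by omega) a3) j h3
      have j2 := (X.run z).up_cn (F' := D.F') (m0 := q.1 * L.bl z) (m := q.1 * L.bl z + 1) (by omega) (by omega) s Set.univ
        (fun _ _ _ _ _ => Set.mem_univ _) (fun m' r a1 a2 a3 => hag m' r a1 (by omega) a3) 0 (Nat.zero_le _)
      exact D.F'.c_of_cn ((j1.symm' hsy').trans' j2)
    rcases k5 with k5 | k5
    · obtain ⟨q', h1, h2, h3⟩ := (H.ok i hi.le).ev_bt cp ⟨s', H.WV _ hs'⟩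
      refine ⟨_, L.act_mk cp (H.WV _ hs') q' h1.symm, k4.trans ((D.F'.c_of_cn k5).trans ?_)⟩
      have h4 := L.succ_bl (D.z i) q'.1
      exact key _ s' (H.WV _ hs') q' h1 _ 0 (by omega) (by omega) (Nat.zero_le _)
    · obtain ⟨q', h1, h2, h3⟩ := (H.ok i hi.le).ev_tp cp ⟨s', H.WV _ hs'⟩
      refine ⟨_, L.act_mk cp (H.WV _ hs') q' h1.symm, k4.trans ((D.F'.c_of_cn k5).trans ?_)⟩
      have h4 := L.succ_bl (D.z i) q'.1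
      exact key _ s' (H.WV _ hs') q' h1 _ _ (by omega) (by omega) le_rfl

end ZD

end Pool.Agent.Lib.MP_688fd0_co.SQ5.FT
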