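import Pool.Agent.Lib.MP_688fd0_co.SQ5.FT.AsmH

/-!
FT, assembly I (helper62): THE THEOREM `coreT`: `BaseT` and `ThrR` give `Lst A`.
-/

set_option autoImplicit false

namespace Pool.Agent.Lib.MP_688fd0_co.SQ5.FT

open Function Relation Pool.Agent.Lib.MP_688fd0_co.OSF H64 H95
open Pool.Agent.Lib.MP_688fd0_co.SQ4.H49 (Inv gl gl_inv)

universe v

variable {G : Type} [Group G] {B : Lb.{0, v} G} {F : HF B} {Zr : Type} {S : Zr → Type} {N : Zr → ℕ}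

namespace ZD

variable {A : Set G} {X : Rgs F Zr S N} {V W : ∀ z, Set (S z)} {gap : Zr → ℕ} {Ξ : Type} {ξ : Zr → Ξ}
  {D : ThrR A X W gap ξ} {O : Zr → Type} {nb : Zr → ℕ} {L : Plc X O nb} {cp : ∀ z, V z → O z} (H : ZD D L cp)

include H

open Classical in
/-- The zone of a port. -/
noncomputable def zn (p : L.Pt cp) : Option ℕ :=
  if h : ∃ i, i ≤ 3 * D.m ∧ L.evp cp p ∈ H.Zn i then some h.choose else none

theorem zn_some {p : L.Pt cp} {i : ℕ} (hi : i ≤ 3 * D.m) (h : L.evp cp p ∈ H.Zn i) : H.zn p = some i := by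
  have hex : ∃ i, i ≤ 3 * D.m ∧ L.evp cp p ∈ H.Zn i := ⟨i, hi, h⟩
  unfold zn
  rw [dif_pos hex]
  congr 1
  by_contra hne
  exact Set.disjoint_left.1 (H.disj hex.choose_spec.1 hi hne) hex.choose_spec.2 h

theorem zn_none {p : L.Pt cp} (h : ∀ i ≤ 3 * D.m, L.evp cp p ∉ H.Zn i) : H.zn p = none := by
  unfold zn
  rw [dif_neg]
  rintro ⟨i, hi, h'⟩
  exact h i hi h'

theorem ot_T {x : G} (hx : x ∈ H.Ot) : x ∉ D.T := by
  intro hc
  obtain ⟨i, hi, h⟩ := H.T_sub hc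
  exact hx.2 i hi.le h

omit H in
/-- The cosets of the visits. -/
theorem xi_mod {i : ℕ} (hi : i ≤ 3 * D.m) : ξ (D.z i) = ξ (D.z (i % D.m)) := by
  have key : ∀ k j, j + k * D.m ≤ 3 * D.m → ξ (D.z (j + k * D.m)) = ξ (D.z j) := by
    intro k
    induction k with
    | zero => intro j _; rw [Nat.zero_mul, Nat.add_zero]
    | succ k ih =>
      intro j hj
      have e : j + (k + 1) * D.m = j + k * D.m + D.m := by ring
      rw [e] at hj ⊢
      rw [D.per _ hj, ih j (by omega)]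
  have h1 := Nat.mod_add_div i D.m
  rw [mul_comm] at h1
  have h2 := key (i / D.m) (i % D.m) (by omega)
  rw [h1] at h2
  exact h2

/-- The ports of the thread. -/
theorem exists_ports : ∃ pe py : ℕ → L.Pt cp,
    (∀ i ≤ 3 * D.m, (pe i).1.1 = D.z i ∧ L.evp cp (pe i) ∈ H.Zn i ∧
      H22.Cn D.F'.Ed (H.Zn i) (D.e i) (L.evp cp (pe i))) ∧
    ∀ i < 3 * D.m, (py i).1.1 = D.z i ∧ L.evp cp (py i) ∈ H.Zn i ∧
      H22.Cn D.F'.Ed (H.Zn i) (D.y i) (L.evp cp (py i)) := by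
  have he : ∀ i ≤ 3 * D.m, ∃ p : L.Pt cp, p.1.1 = D.z i ∧ L.evp cp p ∈ H.Zn i ∧
      H22.Cn D.F'.Ed (H.Zn i) (D.e i) (L.evp cp p) := fun i hi => H.zport hi (H.vis_sub hi (D.eV i hi))
  have hy : ∀ i < 3 * D.m, ∃ p : L.Pt cp, p.1.1 = D.z i ∧ L.evp cp p ∈ H.Zn i ∧
      H22.Cn D.F'.Ed (H.Zn i) (D.y i) (L.evp cp p) := fun i hi => H.zport hi.le (H.vis_sub hi.le (D.yV i hi))
  obtain ⟨p₀, -⟩ := he 0 (Nat.zero_le _)
  refine ⟨fun i => if h : i ≤ 3 * D.m then (he i h).choose else p₀,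
    fun i => if h : i < 3 * D.m then (hy i h).choose else p₀, ?_, ?_⟩
  · intro i hi
    simp only [dif_pos hi]
    exact (he i hi).choose_spec
  · intro i hi
    simp only [dif_pos hi]
    exact (hy i hi).choose_spec

end ZD

/-- THE CORE OF FT. -/
theorem coreT [Fintype G] [DecidableEq G] [Finite Zr] [∀ z, Finite (S z)] [∀ z, DecidableEq (S z)] {A : Set G} {c : ℕ}
    {X : Rgs F Zr S N} {V W : ∀ z, Set (S z)} {Λ : ∀ z, SimpleGraph (V z)} {U : Zr → G} {nb mm gap : Zr → ℕ} {Ξ : Type}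
    {ξ : Zr → Ξ} (hS : Star4S c) (hA : ∀ d : F.X, B.q d.1.2 ∈ A) (b : BaseT A c X V W Λ U nb mm gap ξ)
    (D : ThrR A X W gap ξ) : Lst A := by
  classical
  have iZ : Fintype Zr := Fintype.ofFinite _
  have iS : ∀ z, Fintype (S z) := fun z => Fintype.ofFinite _
  have hKC : ∀ z, Finite (Rgs.KC V Λ z) := fun z => Rgs.finite_KC V Λ z
  have hnb : ∀ z, 0 < nb z := fun z => lt_of_lt_of_le (Nat.mul_pos (Nat.succ_pos _) (b.mpos z)) (b.mnb z)
  obtain ⟨L, hL⟩ : ∃ L : Plc X (Rgs.KC V Λ) nb, L = plc D (fun z => Nat.card (Rgs.KC V Λ z))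
    (fun z => Finite.equivFin (Rgs.KC V Λ z)) hnb := ⟨_, rfl⟩
  have H : ZD D L (Rgs.cpC V Λ) := by
    subst hL
    refine ⟨b.WV, b.far, fun i hi => ⟨D.lohi i hi, fun o => ?_, fun o => ?_, fun q => q.2.2.2 i hi rfl⟩,
      fun i hi o => fr_up D _ _ hnb b.gapb hi rfl o, fun z q i hi hz => q.2.2.2 i hi hz⟩
    · obtain ⟨q, h1, h2, -⟩ := fr_lw D _ (fun z => Finite.equivFin (Rgs.KC V Λ z)) hnb b.gapb hi rfl o
      exact ⟨q, h1, h2⟩
    · obtain ⟨q, h1, h2, -⟩ := fr_up D _ (fun z => Finite.equivFin (Rgs.KC V Λ z)) hnb b.gapb hi rfl o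
      exact ⟨q, h1, h2⟩
  have hex : ∀ z (κ : Rgs.KC V Λ z), ∃ q : L.fr z, L.ob z q = κ := by
    subst hL
    exact fr_ex D _ _ hnb b.gapb b.len
  clear hL
  have hm := D.m2
  have hreal2 : H.X2.RealL A (fun r => X.D0 A r.1) := chg_realL L.X1 D.off H.hT (X.realL_split L.cut (b.per.realL hA))
  have hact2 := H.act2 hex b.flush
  have hcomp : ∀ x, ∃ a, ∃ y ∈ H.X2.ZL a, D.F'.C x y := by
    intro x
    obtain ⟨y, ⟨a, s, -, hy⟩, hc⟩ := hact2 x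
    exact ⟨a, y, H.X2.sg_sub hy, hc⟩
  have hD : ∀ r : (Σ z, L.fr z), ∀ d ∈ X.D0 A r.1, IsPair d := fun r => X.D0_pair r.1
  have iR : Fintype (Σ z, L.fr z) := Fintype.ofFinite _
  let Y := H.X2.bands H.hA2 hcomp hD hreal2
  let Sg : Seg Y := H.X2.seg H.hA2 hcomp hD hreal2
  let KV : ∀ r : (Σ z, L.fr z), Set (L.VG (Rgs.cpC V Λ) r × Bool → L.VG (Rgs.cpC V Λ) r × Bool) :=
    fun r => KVC A X V Λ nb ⟨r.1, L.ob r.1 r.2⟩
  have hkv := fun r : (Σ z, L.fr z) => kvc hS hA b ⟨r.1, L.ob r.1 r.2⟩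
  have hvt : ∀ p : L.Pt (Rgs.cpC V Λ), D.F'.vt (Y.dt (ιV (L.VG (Rgs.cpC V Λ)) p)) = L.evp (Rgs.cpC V Λ) p := fun p =>
    H.X2.vt_dt H.hA2 hcomp hD hreal2 p.1 (p.2.1.1, p.2.2)
  have hOV : ∀ p q : L.Pt (Rgs.cpC V Λ), p ≠ q →
      H22.Cn D.F'.Ed {x | ¬ L.X1.Act (L.VG (Rgs.cpC V Λ)) x} (L.evp _ p) (L.evp _ q) →
      Y.OV (L.VG (Rgs.cpC V Λ)) p = q := by
    intro p q hne h
    refine Bands.OV_eq Sg hne ?_
    rw [hvt, hvt]
    exact h
  have hone : ∀ r, H12.Clu (Y.OV (L.VG (Rgs.cpC V Λ))) KV {r} ∅ := fun r =>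
    Bands.clu_one r (fun d hd => hd.1) (hkv r).1 (hkv r).2.1 (hkv r).2.2
  have hZact : ∀ i ≤ 3 * D.m, ∀ x ∈ H.Zn i, ¬ L.X1.Act (L.VG (Rgs.cpC V Λ)) x := fun i hi x hx =>
    (H.ok i hi).no_act H.WV _ H.far hx
  have hsy' : ∀ x y, D.F'.Ed x y → D.F'.Ed y x := fun x y h => D.F'.ed_symm h
  obtain ⟨pe, py, hpe, hpy⟩ := H.exists_ports
  have hup : ∀ i ≤ 3 * D.m, ∀ x y, H22.Cn D.F'.Ed (H.Zn i) x y →
      H22.Cn D.F'.Ed {x | ¬ L.X1.Act (L.VG (Rgs.cpC V Λ)) x} x y := fun i hi x y h =>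
    h.mono (fun x hx => hZact i hi x hx) fun _ _ _ _ h => h
  -- the arcs of the thread
  have hye : ∀ i, i < 3 * D.m → ∀ j ≤ 3 * D.m, i ≠ j → D.F'.Ed (D.y i) (D.e j) →
      Y.OV (L.VG (Rgs.cpC V Λ)) (py i) = pe j := by
    intro i hi j hj hij hE
    have h1 := hpy i hi
    have h2 := hpe j hj
    refine hOV _ _ (fun e => ?_) ?_
    · have h3 := H.zn_some hi.le h1.2.1
      rw [e, H.zn_some hj h2.2.1] at h3
      exact hij (Option.some_injective _ h3).symm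
    · have a1 := hZact i hi.le _ (H.vis_sub hi.le (D.yV i hi))
      have a2 := hZact j hj _ (H.vis_sub hj (D.eV j hj))
      exact ((hup i hi.le _ _ h1.2.2).symm' hsy').trans' ((H22.Cn.of hE a1 a2).trans' (hup j hj _ _ h2.2.2))
  let t : Thr (Y.OV (L.VG (Rgs.cpC V Λ))) (fun r : (Σ z, L.fr z) => ξ r.1) H.zn D.m :=
    { χ := fun i => ξ (D.z (i % D.m))
      y := py
      e := pe
      z := pe (3 * D.m)
      m2 := D.m2
      per := fun i => by rw [Nat.add_mod_right]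
      all := fun c => by
        obtain ⟨i, hi, h⟩ := D.all c
        refine ⟨i, hi, ?_⟩
        rw [Nat.mod_eq_of_lt hi]
        exact h
      ye := fun i hi => hye i (by omega) (i + 1) (by omega) (by omega) (D.ye i hi)
      last := by
        refine hye (3 * D.m - 1) (by omega) 0 (by omega) (by omega) ?_
        have h := D.F'.ed_of_dart D.d₀
        rw [D.d0y, D.d0e] at h
        exact h
      ξy := fun i hi => by
        show ξ (py i).1.1 = _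
        rw [(hpy i hi).1]
        exact ZD.xi_mod hi.le
      ξe := fun i hi => by
        show ξ (pe i).1.1 = _
        rw [(hpe i hi.le).1]
        exact ZD.xi_mod hi.le
      zy := fun i hi => H.zn_some hi.le (hpy i hi).2.1
      ze := fun i hi => H.zn_some hi.le (hpe i hi.le).2.1
      zz := H.zn_some le_rfl (hpe _ le_rfl).2.1 }
  obtain ⟨J, hJ, n₀, n₁, h1, h2⟩ := t.clu (Y.OV_inv _) hone (Adj := H.AdjZ) (fun p q h => by
      obtain ⟨a1, a2, a3, a4⟩ := h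
      refine ⟨hOV p q a1 ?_, H.zn_none a2, H.zn_none a3⟩
      exact H12.cn_of D.off (fun x hx => ⟨H.ot_T hx, hx.1⟩) a4)
    (fun c => H.cls_map hex b.out3 (b.conn c))
  have hW : ∀ i ≤ 3 * D.m, ∀ x ∈ Vis X W (D.z i) (D.lo i) (D.hi i), ¬ Y.W x := by
    rintro i hi x hx ⟨a, ha⟩
    obtain ⟨m, s, j, b1, b2, b3, b4⟩ := H.X2.mem_ZL.1 (H.X2.mem_Z.1 ha)
    exact H.vis_ne hi hx a.1 m s j (H.X2.le_E a b2) b3 b4
  have hArc : ∀ i ≤ 3 * D.m, ∀ x ∈ Vis X W (D.z i) (D.lo i) (D.hi i), ∀ f, Y.OnArc f x → ∃ y, f = ed Y.hn y := by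
    intro i hi x hx f hf
    exact H.X2.ed_of_onArc H.hA2 hcomp hD hreal2 (fun r m s j _ h2 h3 => H.vis_ne hi hx r m s j h2.le h3) f hf
  have hy1 := D.yV (3 * D.m - 1) (by omega)
  have he0 := D.eV 0 (by omega)
  have hez := D.eV (3 * D.m) le_rfl
  refine Bands.lst_of_cluVo (Y := Y) (KV := KV) Sg hact2 (fun r d hd => hd.2) hJ D.d₀ ?_ D.lab (D.e (3 * D.m))
    (hW _ le_rfl _ hez) ?_ ?_ (hArc _ le_rfl _ hez) (t.y (3 * D.m - 1)) t.z n₀ n₁ h1 h2 ?_ ?_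
  · rintro (h | h)
    · rw [D.d0y] at h
      exact hW _ (by omega) _ hy1 h
    · rw [D.d0e] at h
      exact hW _ (by omega) _ he0 h
  · rw [D.d0y]
    exact D.zA
  · rw [D.d0y]
    exact hArc _ (by omega) _ hy1
  · rw [hvt, D.d0y]
    exact (hup _ (by omega) _ _ (hpy (3 * D.m - 1) (by omega)).2.2).symm' hsy'
  · rw [hvt]
    exact (hup _ le_rfl _ _ (hpe (3 * D.m) le_rfl).2.2).symm' hsy'

end Pool.Agent.Lib.MP_688fd0_co.SQ5.FT
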