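import Pool.Agent.Lib.MP_688fd0_co.SQ5.H95.Core
import Pool.Agent.Lib.MP_688fd0_co.SQ5.FT.Core

/-!
FT (threads over far bases), the interface (helper62): `BaseT` = the base (run charts of all cosets, helper95's `far_core`
without the generation), `ThrR` = the thread over the base. TARGET: `BaseT` and `ThrR` give `Lst A`.

`ξ z` = the coset of the run `z`; `W z` = the strands of the two walls of the thread strip; `gap z` = the number of blocks which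
suffices for one band of every component of the rung graph.
-/

set_option autoImplicit false

namespace Pool.Agent.Lib.MP_688fd0_co.SQ5.FT

open Function Pool.Agent.Lib.MP_688fd0_co.OSF H64 H95

universe v

variable {G : Type} [Group G] {B : Lb.{0, v} G} {F : HF B} {Zr : Type} {S : Zr → Type} {N : Zr → ℕ}

/-- The ports of a region (component of the rung graph). -/
abbrev Po (V : ∀ z, Set (S z)) (Λ : ∀ z, SimpleGraph (V z)) (r : Σ z, Rgs.KC V Λ z) : Type :=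
  {s : V r.1 // Rgs.cpC V Λ r.1 s = r.2} × Bool

/-- A path between ends of runs which avoids the strands of `V`. -/
def PAdj (X : Rgs F Zr S N) (V : ∀ z, Set (S z)) (Λ : ∀ z, SimpleGraph (V z)) (p q : Σ r, Po V Λ r) : Prop :=
  p ≠ q ∧ H22.Cn F.Ed {x | ¬ X.ActR V x} (X.ev p.1.1 (p.2.1.1.1, p.2.2)) (X.ev q.1.1 (q.2.1.1.1, q.2.2))

/-- THE BASE. -/
structure BaseT (A : Set G) (c : ℕ) (X : Rgs F Zr S N) (V W : ∀ z, Set (S z)) (Λ : ∀ z, SimpleGraph (V z)) (U : Zr → G)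
    (nb mm gap : Zr → ℕ) {Ξ : Type} (ξ : Zr → Ξ) [∀ z, DecidableEq (S z)] : Prop where
  per : X.Per U
  /-- different charts have no common vertex -/
  far : ∀ z z' m (s : S z) i m' (s' : S z') i', z ≠ z' → m ≤ N z * (X.l z + 1) → i ≤ (X.C z).h m s →
    m' ≤ N z' * (X.l z' + 1) → i' ≤ (X.C z').h m' s' → (X.C z).Z m s i ≠ (X.C z').Z m' s' i'
  mpos : ∀ z, 0 < mm z
  mnb : ∀ z, (c * Nat.card (V z) ^ 2 + 1) * mm z ≤ nb z
  iso : ∀ z x, ∃ y, (Λ z).Adj x y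
  four : ∀ z x y, (Λ z).Adj x y → Four (Λ z) x ∨ Four (Λ z) y
  p3 : ∀ z (x y y' : V z), (Λ z).Adj x y → (Λ z).Adj x y' → y ≠ y' →
    StkT (X.D0 A z) (mm z) (p3 x.1 y.1 y'.1)
  flush : ∀ x : G, ∃ (z : Zr) (m : ℕ) (s : S z) (i : ℕ), s ∈ V z ∧ m ≤ N z * (X.l z + 1) ∧ i ≤ (X.C z).h m s ∧
    F.C x ((X.C z).Z m s i)
  WV : ∀ z, W z ⊆ V z
  /-- three strands of every component outside of `W` -/
  out3 : ∀ z (κ : Rgs.KC V Λ z), ∃ f : Fin 3 → V z, Injective f ∧ ∀ i, Rgs.cpC V Λ z (f i) = κ ∧ (f i).1 ∉ W z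
  /-- the regions of one coset are a cluster -/
  conn : ∀ c : Ξ, Cls (PAdj X V Λ) {r | ξ r.1 = c}
  gapb : ∀ z, (Nat.card (Rgs.KC V Λ z) + 2) * (nb z * (X.l z + 1)) ≤ gap z
  len : ∀ z, gap z ≤ N z * (X.l z + 1)

/-- The vertices of the strands of `W` in the blocks `lo .. hi` of the run `z`. -/
def Vis (X : Rgs F Zr S N) (W : ∀ z, Set (S z)) (z : Zr) (lo hi : ℕ) : Set G :=
  {x | ∃ s ∈ W z, ∃ m r, lo ≤ m ∧ m ≤ hi ∧ r ≤ (X.C z).h m s ∧ x = (X.C z).Z m s r}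

/-- THE THREAD: visits `0 .. 3 m - 1` and the virtual visit `3 m`. The visit `i` uses the blocks `lo i .. hi i` of the run
`z i`; `e i` = its first vertex, `y i` = its last vertex; the edge from `y i` to `e (i + 1)` is a letter, the edge `d₀` from
`y (3 m - 1)` to `e 0` is fictitious; `e (3 m)` is a neighbour of `y (3 m - 1)`. -/
structure ThrR (A : Set G) (X : Rgs F Zr S N) (W : ∀ z, Set (S z)) (gap : Zr → ℕ) {Ξ : Type} (ξ : Zr → Ξ) where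
  F' : HF B
  T : Set G
  off : ∀ x, x ∉ T → F'.H x = F.H x
  m : ℕ
  m2 : 2 ≤ m
  z : ℕ → Zr
  lo : ℕ → ℕ
  hi : ℕ → ℕ
  lohi : ∀ i ≤ 3 * m, lo i ≤ hi i
  bot : ∀ i ≤ 3 * m, gap (z i) ≤ lo i
  top : ∀ i ≤ 3 * m, hi i + gap (z i) ≤ N (z i) * (X.l (z i) + 1)
  sep : ∀ i ≤ 3 * m, ∀ j ≤ 3 * m, i ≠ j → z i = z j → hi i + gap (z i) ≤ lo j ∨ hi j + gap (z i) ≤ lo i
  TV : ∀ x ∈ T, ∃ i < 3 * m, x ∈ Vis X W (z i) (lo i) (hi i)
  /-- every touched vertex is joined inside the visit to a strand below or above the visit -/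
  con : ∀ i < 3 * m, ∀ x ∈ T, x ∈ Vis X W (z i) (lo i) (hi i) → ∃ s ∈ W (z i),
    H22.Cn F'.Ed (Vis X W (z i) (lo i) (hi i)) x ((X.C (z i)).Z (lo i) s 0) ∨
    H22.Cn F'.Ed (Vis X W (z i) (lo i) (hi i)) x ((X.C (z i)).Z (hi i) s ((X.C (z i)).h (hi i) s))
  per : ∀ i, i + m ≤ 3 * m → ξ (z (i + m)) = ξ (z i)
  all : ∀ c, ∃ i < m, ξ (z i) = c
  e : ℕ → G
  y : ℕ → G
  eV : ∀ i ≤ 3 * m, e i ∈ Vis X W (z i) (lo i) (hi i)
  yV : ∀ i < 3 * m, y i ∈ Vis X W (z i) (lo i) (hi i)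
  ye : ∀ i, i + 1 < 3 * m → F'.Ed (y i) (e (i + 1))
  d₀ : F'.X
  d0y : F'.vt d₀ = y (3 * m - 1)
  d0e : F'.vt (F'.pr d₀) = e 0
  lab : ∀ d : F'.X, d ≠ d₀ → d ≠ F'.pr d₀ → B.q d.1.2 ∈ A
  zA : (y (3 * m - 1))⁻¹ * e (3 * m) ∈ A

end Pool.Agent.Lib.MP_688fd0_co.SQ5.FT
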