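import Pool.Agent.Lib.MP_688fd0_co.SQ5.H58.NumLayT

/-!
FT (threads over far bases), the layout with a wide strip, general form (helper62): the residue `ρ` of the width `D` mod 4 is
`0` or `2`, and `D` satisfies a condition which one of `D`, `D - 4` satisfies.
-/

set_option autoImplicit false

namespace Pool.Agent.Lib.MP_688fd0_co.SQ5.FT

open Pool.Agent.Lib.MP_688fd0_co.OSF Pool.Agent.Lib.MP_688fd0_co.SQ5.H66 Pool.Agent.Lib.MP_688fd0_co.SQ5.H76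
open Pool.Agent.Lib.MP_688fd0_co.SQ3 Pool.Agent.Lib.MP_688fd0_co.SQ5.H24 Pool.Agent.Lib.MP_688fd0_co.SQ5.H58
open Subgroup

/-- THE LAYOUT WITH A WIDE STRIP `r0` of width `D = ρ mod 4`. -/
theorem exists_layG {T : Type*} [AddCommGroup T] [Finite T] (h : Fin 3 → T)
    (hg : ∀ t a b : Fin 3, t ≠ a → t ≠ b → a ≠ b → Gn (h a - h t) (h b - h t))
    {m0 r0 : ℕ} (hm : 2 ≤ m0) (hr0 : r0 < m0) {d : ℕ → ℤ} (hd : ∀ k, 2 ≤ d k ∧ d k % 2 = 0)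
    {kq hh m TT G : ℤ} (hn : Nums kq hh m TT G) (K E : ℕ) {W ρ : ℤ} (hρ : ρ = 0 ∨ ρ = 2)
    (good : Fin 3 → Fin 3 → Fin 3 → ℤ → Prop)
    (hgood : ∀ s a b, s ≠ a → s ≠ b → a ≠ b → ∀ D, D % 4 = ρ → good s a b D ∨ good s a b (D - 4))
    (hW : ∑ k ∈ Finset.range (m0 + 32), dcL m0 (dW d r0 0) k + 3 * (m0 + 33) + (58 + 8 * hh + 16 * kq) ≤ W)
    (hK : W + 6 ≤ 2 * (K : ℤ))
    (hE : (2 * (K : ℤ) + 4 * hh + 6) * (G + 8 * kq + 40) ≤ E)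
    (hfar : ∀ n : Fin 3 → ℤ, Rel h n → (∀ x, |n x| < 4 * K) → n = 0)
    (hM : (E + 2 * K) ^ 2 < Nat.card T) {t t' : Fin 3} (htt : t ≠ t') :
    ∃ s, (s = t ∨ s = t') ∧ ∃ a b : Fin 3, s ≠ a ∧ s ≠ b ∧ a ≠ b ∧ ∃ D : ℤ, D % 4 = ρ ∧ 6 ≤ D ∧ good s a b D ∧
      2 * K ≤ D + W ∧ ∃ j < 8,
      ∃ g : Geo (Ltc (h a - h s) (h b - h s)) (Nat.card T) (RL m0 j) (dcL m0 (dW d r0 D)) (spL m0) G,
      Lay g kq hh m TT m0 ∧ 2 * (Nat.card T : ℤ) ≤ (g.i0 + g.j0) * (D + W) ∧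
      g.i0 - g.j0 < 2 * K ∧ (E : ℤ) < g.i0 + g.j0 ∧ (g.i0 + g.j0) * K ≤ Nat.card T := by
  obtain ⟨hk, hm', hh', hTT, hTG⟩ := id hn
  have h0 : (0 : ℤ) ≤ ∑ k ∈ Finset.range (m0 + 32), dcL m0 (dW d r0 0) k := by
    refine Finset.sum_nonneg fun k _ => ?_
    unfold dcL dW
    split_ifs
    · norm_num
    · norm_num
    · linarith [(hd k).1]
  have hm0 : (0 : ℤ) ≤ (m0 : ℤ) := Int.natCast_nonneg _
  obtain ⟨s, hs, a, b, h1, h2, h3, i0, j0, ⟨f1, f2, f3, f4⟩, f5⟩ := exists_vec h hg hn K E (by omega) hE hfar hM htt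
  have hE0 : (0 : ℤ) ≤ E := Int.natCast_nonneg _
  have hl0 : 0 < i0 + j0 := by linarith
  set S := ∑ k ∈ Finset.range (m0 + 32), dcL m0 (dW d r0 0) k with hS
  obtain ⟨q, hq⟩ : ∃ q, q = 2 * (Nat.card T : ℤ) / (i0 + j0) := ⟨_, rfl⟩
  have q1 : q * (i0 + j0) ≤ 2 * Nat.card T := by rw [hq]; exact Int.ediv_mul_le _ (ne_of_gt hl0)
  have q2 : 2 * (Nat.card T : ℤ) < (q + 1) * (i0 + j0) := by rw [hq]; exact Int.lt_ediv_add_one_mul_self _ hl0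
  have q3 : 2 * (K : ℤ) ≤ q := by
    rw [hq]
    exact (Int.le_ediv_iff_mul_le hl0).2 (by linarith)
  obtain ⟨Y, hY⟩ : ∃ Y, Y = q - (S + 3 * (m0 + 33) + (50 + 8 * hh + 16 * kq)) := ⟨_, rfl⟩
  obtain ⟨D, hD4, hD1, hD2, hgd⟩ : ∃ D : ℤ, D % 4 = ρ ∧ D ≤ Y ∧ Y ≤ D + 7 ∧ good s a b D := by
    have h4 : (Y - (Y - ρ) % 4) % 4 = ρ := by rcases hρ with rfl | rfl <;> omega
    rcases hgood s a b h1 h2 h3 (Y - (Y - ρ) % 4) h4 with h5 | h5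
    · exact ⟨_, h4, by omega, by omega, h5⟩
    · exact ⟨_, by omega, by omega, by omega, h5⟩
  have hD6 : 6 ≤ D := by omega
  have hdD : ∀ k, 2 ≤ dW d r0 D k ∧ dW d r0 D k % 2 = 0 := by
    intro k
    unfold dW
    split_ifs
    · rcases hρ with rfl | rfl <;> omega
    · exact hd k
  obtain ⟨j, hj, g, e1, e2, e3⟩ := f5 (candL hm hdD) (fun j hj => by
    have h1 := dcL_mono (m0 := m0) hdD (show RL m0 j - 1 ≤ m0 + 32 by unfold RL; omega)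
    rw [sum_dW d hr0 D (show m0 ≤ m0 + 32 by omega), ← hS] at h1
    have h2 := card_RL (m0 := m0) hj
    have h3 := mul_le_mul_of_nonneg_left (show ∑ k ∈ Finset.range (RL m0 j - 1), dcL m0 (dW d r0 D) k +
      3 * (RL m0 j : ℤ) + (50 + 8 * hh + 16 * kq) ≤ q by linarith) (show 0 ≤ i0 + j0 by linarith)
    linarith)
  refine ⟨s, hs, a, b, h1, h2, h3, D, hD4, hD6, hgd, by linarith, j, hj, g, e3, ?_, by rw [e1, e2]; exact f2,
    by rw [e1, e2]; exact f3, by rw [e1, e2]; exact f4⟩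
  rw [e1, e2]
  have h4 : (q + 1) * (i0 + j0) ≤ (D + W) * (i0 + j0) := mul_le_mul_of_nonneg_right (by linarith) hl0.le
  linarith

/-- The total width without the wide strip. -/
def WG (m0 nh kq : ℕ) : ℕ := 9 * (m0 + 33) + (58 + 8 * nh + 16 * kq)

/-- NUM together with the layout, general form. -/
theorem num_layG (e₁ : ℕ) : ∃ e : ℕ, ∀ c₁ c₂ : ℕ, ∃ c₀ : ℕ, ∀ (G : Type) [Group G] [Finite G] (N C : Subgroup G)
    (eps : G →* ℤˣ) (k P : ℕ) (A : Set G) (a t b : G), SQD.Inv N C eps k P A c₁ a t b →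
    ¬ SQD.RelN N C a t b ((k + (Nat.card G).primeFactorsList.length) ^ e) →
    2 ^ ((k + (Nat.card G).primeFactorsList.length) ^ c₀) ≤ P →
      IvT eps (closure ({a, t, b} : Set G)) ![a, t, b] ∧ 4 ≤ k ∧
      Nat.card C * k ≤ 2 ^ ((k + (Nat.card G).primeFactorsList.length) ^ (c₁ + 1)) ∧ 0 < Nat.card C * k ∧
      Nat.card (KH eps (closure ({a, t, b} : Set G))) ∣ Nat.card C * k ∧
      P ∣ Nat.card (Th eps (closure ({a, t, b} : Set G))) ∧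
      (∀ o : ℕ, k * Nat.card C ∣ o → ∀ B : G, B ^ o ∈ N ∧ (∀ g, eps g = 1 → B ^ o * g = g * B ^ o) ∧
        ∀ g, eps g = -1 → g * B ^ o * g⁻¹ = (B ^ o)⁻¹) ∧
      ∀ (m0 r0 : ℕ) (d : ℕ → ℤ) (kq nh m TT Gr K E : ℕ) (ρ : ℤ) (good : Fin 3 → Fin 3 → Fin 3 → ℤ → Prop),
        2 ≤ m0 → r0 < m0 → (∀ k, 2 ≤ d k ∧ d k % 2 = 0) → (∀ k, d k ≤ 6) → ρ = 0 ∨ ρ = 2 →
        (∀ s a b, s ≠ a → s ≠ b → a ≠ b → ∀ D, D % 4 = ρ → good s a b D ∨ good s a b (D - 4)) →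
        Nums (kq : ℤ) nh m TT Gr → WG m0 nh kq + 6 ≤ 2 * K →
        (2 * K + 4 * nh + 6) * (Gr + 8 * kq + 40) ≤ E → K ≤ (k + (Nat.card G).primeFactorsList.length) ^ e₁ →
        E ≤ 2 ^ ((k + (Nat.card G).primeFactorsList.length) ^ c₂) → ∀ {t₁ t₂ : Fin 3}, t₁ ≠ t₂ →
        ∃ s, (s = t₁ ∨ s = t₂) ∧ ∃ a' b' : Fin 3, s ≠ a' ∧ s ≠ b' ∧ a' ≠ b' ∧
          ∃ D : ℤ, D % 4 = ρ ∧ 6 ≤ D ∧ good s a' b' D ∧ 2 * K ≤ D + WG m0 nh kq ∧
          ∃ R : ℕ, m0 + 5 ≤ R ∧ R ≤ m0 + 33 ∧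
          ∃ g : Geo (Ltc (hhT eps (closure ({a, t, b} : Set G)) ![a, t, b] a' -
              hhT eps (closure ({a, t, b} : Set G)) ![a, t, b] s)
              (hhT eps (closure ({a, t, b} : Set G)) ![a, t, b] b' - hhT eps (closure ({a, t, b} : Set G)) ![a, t, b] s))
            (Nat.card (Th eps (closure ({a, t, b} : Set G)))) R (dcL m0 (dW d r0 D)) (spL m0) Gr,
          Lay g kq nh m TT m0 ∧
          2 * (Nat.card (Th eps (closure ({a, t, b} : Set G))) : ℤ) ≤ (g.i0 + g.j0) * (D + WG m0 nh kq) ∧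
          g.i0 - g.j0 < 2 * K ∧ (E : ℤ) < g.i0 + g.j0 ∧
          (g.i0 + g.j0) * K ≤ Nat.card (Th eps (closure ({a, t, b} : Set G))) := by
  obtain ⟨e, he⟩ := numT e₁
  refine ⟨e, fun c₁ c₂ => ?_⟩
  obtain ⟨c₀, hc⟩ := he c₁ (max c₂ (e₁ + 1) + 1)
  refine ⟨c₀, ?_⟩
  intro G _ _ N C eps k P A a t b h hR hP
  obtain ⟨h1, h2, h3, h4, h5, h6, h7, h8, h9⟩ := hc G N C eps k P A a t b h hR hP
  refine ⟨h1, h2, h5, h6, h7, h8, h9, ?_⟩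
  set S := k + (Nat.card G).primeFactorsList.length with hS
  have hS4 : 4 ≤ S := by omega
  intro m0 r0 d kq nh m TT Gr K E ρ good hm hr0 hd hd6 hρ hgood hn hK2 hE2 hK hE t₁ t₂ htt
  have : Finite (Th eps (closure ({a, t, b} : Set G))) :=
    inferInstanceAs (Finite (Additive (Abelianization ((closure ({a, t, b} : Set G)).subgroupOf eps.ker))))
  have q1 : ((WG m0 nh kq + 6 : ℕ) : ℤ) ≤ ((2 * K : ℕ) : ℤ) := by exact_mod_cast hK2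
  have q2 : (((2 * K + 4 * nh + 6) * (Gr + 8 * kq + 40) : ℕ) : ℤ) ≤ ((E : ℕ) : ℤ) := by exact_mod_cast hE2
  push_cast at q1 q2
  obtain ⟨s, hs, a', b', f1, f2, f3, D, f4, f5, f6, f7, j, hj, g, f8⟩ :=
    exists_layG (hhT eps (closure ({a, t, b} : Set G)) ![a, t, b]) h1.hh_gn (m0 := m0) (r0 := r0) hm hr0 hd hn K E
    (W := (WG m0 nh kq : ℕ)) (ρ := ρ) hρ good hgood (by
      have h1 : ∑ k ∈ Finset.range (m0 + 32), dcL m0 (dW d r0 0) k ≤ 6 * (m0 + 32) := by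
        refine (Finset.sum_le_sum (g := fun _ => (6 : ℤ)) fun k _ => ?_).trans ?_
        · unfold dcL dW
          split_ifs
          · norm_num
          · norm_num
          · exact hd6 k
        · rw [Finset.sum_const, Finset.card_range, nsmul_eq_mul]
          push_cast
          linarith
      unfold WG
      push_cast
      linarith) q1 q2 (h3 _ hK) (h4 _ _ (EK_le hS4 hK hE)) htt
  exact ⟨s, hs, a', b', f1, f2, f3, D, f4, f5, f6, f7, RL m0 j, by unfold RL; omega, by unfold RL; omega, g, f8⟩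

end Pool.Agent.Lib.MP_688fd0_co.SQ5.FT
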