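import Pool.Agent.Lib.MP_688fd0_co.SQ5.H84.MnT
import Pool.Agent.Lib.MP_688fd0_co.SQ5.FT.LayG

/-!
FT (threads over far bases), the main group of the degenerate layout (helper62): `4 ^ (r + 2), 2, 4, D, 4, 2, 4 ^ (r + 2)` (the
strips `r + 2`, `r + 4`, `r + 6`), walls `0 .. 2 r + 9`.
-/

set_option autoImplicit false

namespace Pool.Agent.Lib.MP_688fd0_co.SQ5.FT

open Pool.Agent.Lib.MP_688fd0_co.SQ5.H76 Pool.Agent.Lib.MP_688fd0_co.SQ5.H24

/-- The widths. -/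
def dD (r k : ℕ) : ℤ := if k = r + 2 ∨ k = r + 6 then 2 else 4

theorem dD_ok (r k : ℕ) : 2 ≤ dD r k ∧ dD r k % 2 = 0 := by
  unfold dD
  split_ifs <;> constructor <;> norm_num

theorem dD_le (r k : ℕ) : dD r k ≤ 6 := by
  unfold dD
  split_ifs <;> norm_num

/-- The half widths. -/
def hwD (r : ℕ) (D K : ℤ) : ℕ := if K = r + 4 then (D / 2).toNat else if K = r + 2 ∨ K = r + 6 then 1 else 2

theorem hwD_wide (r : ℕ) (D : ℤ) : hwD r D (r + 4) = (D / 2).toNat := if_pos rfl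

theorem hwD_one {r : ℕ} {D K : ℤ} (h : K = r + 2 ∨ K = r + 6) : hwD r D K = 1 := by
  unfold hwD
  rw [if_neg (by omega), if_pos h]

theorem hwD_two {r : ℕ} {D K : ℤ} (h0 : K ≠ r + 4) (h1 : K ≠ r + 2) (h2 : K ≠ r + 6) : hwD r D K = 2 := by
  unfold hwD
  rw [if_neg h0, if_neg (by rintro (h | h) <;> contradiction)]

theorem hwD_pos (r : ℕ) {D : ℤ} (hD : 2 ≤ D) (K : ℤ) : 1 ≤ hwD r D K := by
  unfold hwD
  split_ifs
  · omega
  · norm_num
  · norm_num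

theorem hwD_wide_eq (r : ℕ) {D : ℤ} (hD : 2 ≤ D) (hD2 : D % 2 = 0) : 2 * (hwD r D (r + 4) : ℤ) = D := by
  rw [hwD_wide]
  omega

/-- The half width of the wide strip is even. -/
theorem hwD_wide_even (r : ℕ) {D : ℤ} (hD : 6 ≤ D) (hD4 : D % 4 = 0) :
    hwD r D (r + 4) % 2 = 0 ∧ 4 ≤ hwD r D (r + 4) := by
  rw [hwD_wide]
  omega

/-- THE MAIN GROUP of the degenerate layout. -/
theorem mnD {L : AddSubgroup (ℤ × ℤ)} {M R r : ℕ} {D Gr : ℤ} (hR : 2 * r + 9 + 5 ≤ R) (hD : 2 ≤ D) (hD2 : D % 2 = 0)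
    (g : Geo L M R (dcL (2 * r + 9) (dW (dD r) (r + 4) D)) (spL (2 * r + 9)) Gr) :
    Geo.Mn g (2 * r + 9) (hwD r D) where
  lt := by omega
  al k hk h := by
    have := h.1
    omega
  dc k hk := by
    rw [dcL_al (fun h => by have := h.1; omega)]
    unfold dW dD hwD
    by_cases h0 : k = r + 4
    · subst h0
      rw [if_pos rfl, if_pos (by push_cast; ring)]
      omega
    · rw [if_neg h0, if_neg (show ¬ ((k : ℤ) = r + 4) by omega)]
      by_cases h1 : k = r + 2 ∨ k = r + 6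
      · rw [if_pos h1, if_pos (show (k : ℤ) = r + 2 ∨ (k : ℤ) = r + 6 by omega)]
        norm_num
      · rw [if_neg h1, if_neg (show ¬ ((k : ℤ) = r + 2 ∨ (k : ℤ) = r + 6) by omega)]
        norm_num
  pos := hwD_pos r hD

end Pool.Agent.Lib.MP_688fd0_co.SQ5.FT
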