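import Pool.Agent.Lib.MP_688fd0_co.SQ5.FT.Top
import Pool.Agent.Lib.MP_688fd0_co.SQ5.H98.LstT2
import Pool.Agent.Lib.MP_688fd0_co.SQ5.H60.LstD
import Pool.Agent.Lib.MP_688fd0_co.SQ5.H95.Far3
import Pool.Agent.Lib.MP_688fd0_co.SQ5.H98.NearF
import Pool.Agent.Lib.MP_688fd0_co.SQ6.H23.All

/-!
FT (threads over far bases), FINAL (helper62): `InvFarB`, `InvFarS` (LEVEL 3, far: threads of helper12, helper41, helper49,
helper85 over the bases of helper20, helper22, helper49, helper60, helper64, helper76, helper95).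
-/

set_option autoImplicit false

namespace Pool.Agent.Lib.MP_688fd0_co.SQ5.FT

theorem lstTS : LstTS := by
  intro G _ _ N C eps k P A c₁ a t b h hM hout H hPG hCk hcen s a' b' h1 h2 h3 hnc r w n nh m TT Gr K E gap U D hr hw hw5
    hn4 hn hD hD4 hgood R hR0 hR g hL g1 g2 g3 g4
  exact H98.lst_T h hM le_rfl hout hCk hcen h1 h2 h3 hnc hr hw hw5 hn le_rfl hn4 hD4 hD hgood hR0 hR hL g1 g2 g3 g4

theorem lstDS : LstDS := by
  intro G _ _ N C eps k P A c₁ a t b h hM hout H hPG hCk hcen s a' b' h1 h2 h3 hd r n nh m TT Gr K E gap U D hr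
    hn4 hn hD hD4 R hR0 hR g hL g1 g2 g3 g4
  exact H60.lst_D h hM le_rfl hout hcen h1 h2 h3 hd hr hn le_rfl hn4 hD4 hD hR0 hR hL g1 g2 g3 g4

/-- FAR-ALL for small sets. -/
theorem invFarB : SQD.InvFarB := invFarB_of lstTS lstDS SQ6.H23.twoH N.near3S H95.far3

/-- FAR-ALL. -/
theorem invFarS : SQD.InvFarS := SQD.invFar_of invFarB

end Pool.Agent.Lib.MP_688fd0_co.SQ5.FT
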