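import Pool.Agent.Lib.MP_688fd0_co.SQ5.H49.Steps

/-!
FT (threads over far bases), the trajectory for every order of the three letters (helper62, after helper49's `exists_per_inv`).
-/

set_option autoImplicit false

namespace Pool.Agent.Lib.MP_688fd0_co.SQ5.FT

open Pool.Agent.Lib.MP_688fd0_co.OSF Pool.Agent.Lib.MP_688fd0_co.SQ3
open Pool.Agent.Lib.MP_688fd0_co.SQD Pool.Agent.Lib.MP_688fd0_co.SQ5.H49
open Subgroup

/-- The trajectory of the thread (a letter lies outside of `⟨a, t, b⟩`). -/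
theorem exists_per_refl {G : Type} [Group G] [Finite G] {N C : Subgroup G} {eps : G →* ℤˣ} {k P : ℕ} {A : Set G}
    {c₁ c₀ : ℕ} (h : Refl N C eps k P A c₁) (hinv : ∀ s ∈ A, s * s = 1) {a t b : G} (ha : a ∈ A) (ht : t ∈ A) (hb : b ∈ A)
    (hM : Marg N k c₀) (hc₀ : 1 ≤ c₀) (hout : ∃ g ∈ A, g ∉ closure ({a, t, b} : Set G)) :
    ∃ W : H12.Per ((closure ({a, t, b} : Set G)).subgroupOf eps.ker) (N.subgroupOf eps.ker)
        (N.subgroupOf eps.ker ⊓ (closure ({a, t, b} : Set G)).subgroupOf eps.ker),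
      (∀ i, W.s i ∈ Stp eps A a t b) ∧ W.q ∣ Nat.card N ∧
        W.n ≤ (k + (Nat.card G).primeFactorsList.length + 2) ^ 4 := by
  obtain ⟨g₀, hg₀, hg₀'⟩ := hout
  have hNle : N ≤ eps.ker := fun n hn => h.gn.eN n hn
  have hN : (N.subgroupOf eps.ker).Normal := by
    have := h.gn.Nn
    infer_instance
  have hc : IsCyclic (N.subgroupOf eps.ker) := by
    have := h.gn.Nc
    exact isCyclic_of_surjective (Subgroup.subgroupOfEquivOfLe hNle).symm (MulEquiv.surjective _)
  have hcard : Nat.card (N.subgroupOf eps.ker) = Nat.card N := Nat.card_congr (Subgroup.subgroupOfEquivOfLe hNle).toEquiv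
  set Om := (Nat.card G).primeFactorsList.length with hOm
  have hpc : (Nat.card N).primeFactors.card ≤ Om := by
    have h1 : (Nat.card N).primeFactors ⊆ (Nat.card G).primeFactors :=
      Nat.primeFactors_mono (Subgroup.card_subgroup_dvd_card N) Nat.card_pos.ne'
    refine (Finset.card_le_card h1).trans ?_
    exact List.toFinset_card_le _
  have hk : 0 < k := by
    rw [← h.gn.idx]
    exact Nat.pos_of_ne_zero N.index_ne_zero_of_finite
  have hne : (Stp eps A a t b).Nonempty := by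
    have hk2 : a * g₀ ∈ eps.ker := by
      rw [MonoidHom.mem_ker, map_mul, h.neg a ha, h.neg g₀ hg₀]
      decide
    exact ⟨⟨a * g₀, hk2⟩, g₀, hg₀, hg₀', Or.inl rfl⟩
  have hout : ∀ s ∈ Stp eps A a t b, s ∉ (closure ({a, t, b} : Set G)).subgroupOf eps.ker := by
    rintro s ⟨g, hg, hg', hs⟩ hsH
    have hsH' : (s : G) ∈ closure ({a, t, b} : Set G) := Subgroup.mem_subgroupOf.1 hsH
    have ha0 : a ∈ closure ({a, t, b} : Set G) := subset_closure (by simp)
    have ht0 : t ∈ closure ({a, t, b} : Set G) := subset_closure (by simp)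
    have hb0 : b ∈ closure ({a, t, b} : Set G) := subset_closure (by simp)
    rcases hs with h4 | h4 | h4
    · rw [h4] at hsH'
      exact hg' ((Subgroup.mul_mem_cancel_left _ ha0).1 hsH')
    · rw [h4] at hsH'
      exact hg' ((Subgroup.mul_mem_cancel_left _ hb0).1 hsH')
    · rw [h4] at hsH'
      exact hg' ((Subgroup.mul_mem_cancel_left _ (Subgroup.mul_mem _ (Subgroup.mul_mem _ ha0 ht0) ha0)).1 hsH')
  obtain ⟨W, h1, h2, h3⟩ := exists_per ((closure ({a, t, b} : Set G)).subgroupOf eps.ker) (N.subgroupOf eps.ker) hN hc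
    (Stp eps A a t b) hne (steps_gen hinv h.neg h.gen ha ht hb hg₀ hg₀') hout Om (by rw [hcard]; exact hpc) (by
      intro p hp
      rw [hcard] at hp
      refine lt_of_le_of_lt ?_ (hM p hp)
      calc Om ≤ k + Om + 2 := by omega
        _ ≤ (k + Om + 2) ^ c₀ := Nat.le_self_pow (by omega) _)
  refine ⟨W, h1, by rwa [hcard] at h2, h3.trans ?_⟩
  have hidx : (N.subgroupOf eps.ker).index ≤ k := by
    have h4 : N.relIndex eps.ker * eps.ker.index = N.index := Subgroup.relIndex_mul_index hNle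
    rw [h.gn.idx] at h4
    have h5 : eps.ker.index ≠ 0 := Subgroup.index_ne_zero_of_finite
    calc (N.subgroupOf eps.ker).index = N.relIndex eps.ker := rfl
      _ ≤ N.relIndex eps.ker * eps.ker.index := Nat.le_mul_of_pos_right _ (Nat.pos_of_ne_zero h5)
      _ = k := h4
  set i := (N.subgroupOf eps.ker).index
  have e1 : (i + 1) * i + 1 + Om * (Om * (2 * i + 1)) ≤ (k + 1) * k + 1 + Om * (Om * (2 * k + 1)) := by
    gcongr
  refine e1.trans ?_
  obtain ⟨X, hX⟩ : ∃ X, X = k + Om + 2 := ⟨_, rfl⟩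
  rw [← hX]
  have e2 : (k + 1) * k + 1 ≤ X ^ 3 := by
    have : k + 2 ≤ X := by omega
    calc (k + 1) * k + 1 ≤ (k + 2) ^ 3 := by nlinarith [sq_nonneg k, pow_pos hk 3]
      _ ≤ X ^ 3 := Nat.pow_le_pow_left this 3
  have e3 : Om * (Om * (2 * k + 1)) ≤ 2 * X ^ 3 := by
    have h5 : Om ≤ X := by omega
    have h6 : 2 * k + 1 ≤ 2 * X := by omega
    calc Om * (Om * (2 * k + 1)) ≤ X * (X * (2 * X)) := Nat.mul_le_mul h5 (Nat.mul_le_mul h5 h6)
      _ = 2 * X ^ 3 := by ring
  have e4 : 3 ≤ X := by omega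
  calc (k + 1) * k + 1 + Om * (Om * (2 * k + 1)) ≤ X ^ 3 + 2 * X ^ 3 := Nat.add_le_add e2 e3
    _ = 3 * X ^ 3 := by ring
    _ ≤ X * X ^ 3 := Nat.mul_le_mul_right _ e4
    _ = X ^ 4 := by ring

/-- The same for the letters in any order, in the form of helper12's `exists_plan`. -/
theorem exists_per_perm {G : Type} [Group G] [Finite G] {N C : Subgroup G} {eps : G →* ℤˣ} {k P : ℕ} {A : Set G}
    {c₁ c₀ : ℕ} {a t b : G} (h : Inv N C eps k P A c₁ a t b) (hM : Marg N k c₀) (hc₀ : 1 ≤ c₀)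
    (hout : ∃ g ∈ A, g ∉ closure ({a, t, b} : Set G)) {s a' b' : Fin 3} (h1 : s ≠ a') (h2 : s ≠ b') (h3 : a' ≠ b') :
    ∃ W : H12.Per ((closure ({a, t, b} : Set G)).subgroupOf eps.ker) (N.subgroupOf eps.ker)
        (N.subgroupOf eps.ker ⊓ (closure ({a, t, b} : Set G)).subgroupOf eps.ker),
      (∀ i, ∃ gl ∈ A, gl ∉ closure ({a, t, b} : Set G) ∧
        (((W.s i : eps.ker) : G) = (![a, t, b] : Fin 3 → G) a' * gl ∨
          ((W.s i : eps.ker) : G) = (![a, t, b] : Fin 3 → G) b' * gl ∨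
          ((W.s i : eps.ker) : G) = (![a, t, b] : Fin 3 → G) a' * (![a, t, b] : Fin 3 → G) s *
            (![a, t, b] : Fin 3 → G) a' * gl)) ∧ W.q ∣ Nat.card N ∧
        W.n ≤ (k + (Nat.card G).primeFactorsList.length + 2) ^ 4 := by
  obtain ⟨x, hx⟩ : ∃ x : Fin 3 → G, x = ![a, t, b] := ⟨_, rfl⟩
  have hxA : ∀ i, x i ∈ A := by
    have all : ∀ i : Fin 3, i = 0 ∨ i = 1 ∨ i = 2 := by decide
    intro i
    rw [hx]
    rcases all i with rfl | rfl | rfl
    · exact h.aA
    · exact h.tA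
    · exact h.bA
  have hall : ∀ s a b : Fin 3, s ≠ a → s ≠ b → a ≠ b → ∀ i : Fin 3, i = a ∨ i = s ∨ i = b := by decide
  have hset : ({x a', x s, x b'} : Set G) = {a, t, b} := by
    have e1 : ({x a', x s, x b'} : Set G) = Set.range x := by
      ext y
      simp only [Set.mem_insert_iff, Set.mem_singleton_iff, Set.mem_range]
      constructor
      · rintro (rfl | rfl | rfl)
        · exact ⟨_, rfl⟩
        · exact ⟨_, rfl⟩
        · exact ⟨_, rfl⟩
      · rintro ⟨i, rfl⟩
        rcases hall s a' b' h1 h2 h3 i with rfl | rfl | rfl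
        · exact Or.inl rfl
        · exact Or.inr (Or.inl rfl)
        · exact Or.inr (Or.inr rfl)
    have e2 : Set.range x = ({a, t, b} : Set G) := by
      ext y
      simp only [Set.mem_insert_iff, Set.mem_singleton_iff, Set.mem_range]
      rw [hx]
      constructor
      · rintro ⟨i, rfl⟩
        fin_cases i
        · exact Or.inl rfl
        · exact Or.inr (Or.inl rfl)
        · exact Or.inr (Or.inr rfl)
      · rintro (rfl | rfl | rfl)
        · exact ⟨0, rfl⟩
        · exact ⟨1, rfl⟩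
        · exact ⟨2, rfl⟩
    rw [e1, e2]
  rw [← hx]
  have key := exists_per_refl h.toRefl h.inv (hxA a') (hxA s) (hxA b') hM hc₀ (by rw [hset]; exact hout)
  rw [hset] at key
  obtain ⟨W, k1, k2, k3⟩ := key
  refine ⟨W, fun i => ?_, k2, k3⟩
  obtain ⟨gl, g1, g2, g3⟩ := k1 i
  rw [hset] at g2
  exact ⟨gl, g1, g2, g3⟩

end Pool.Agent.Lib.MP_688fd0_co.SQ5.FT
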