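import Pool.Agent.Lib.MP_688fd0_co.SQ5.H84.MnT
import Pool.Agent.Lib.MP_688fd0_co.SQ5.H95.WinP
import Pool.Agent.Lib.MP_688fd0_co.SQ5.H95.FarC
import Pool.Agent.Lib.MP_688fd0_co.SQ5.H60.D3

/-!
FT (threads over far bases), the case distinction (helper62): two squares are not central, or the base is degenerate; the two
widths of the wide strip.
-/

set_option autoImplicit false

namespace Pool.Agent.Lib.MP_688fd0_co.SQ5.FT

open Pool.Agent.Lib.MP_688fd0_co.OSF Pool.Agent.Lib.MP_688fd0_co.SQ5.H58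



variable {Q : Type} [Group Q] {eps : Q →* ℤˣ} {x : Fin 3 → Q} (Hx : Inv3 eps x) {t a b : Fin 3} (hta : t ≠ a)
  (htb : t ≠ b) (hab : a ≠ b)

/-- The condition on the width of the wide strip. -/
def goodT (x : Fin 3 → Q) (t a b : Fin 3) (D : ℤ) : Prop := 6 ≤ D → ((x a * x b) ^ ((D / 2).toNat - 1) * x t) ^ 2 ≠ 1

include Hx in
theorem good_or
    (h2t : ¬ ((x a * x t) * ((x a * x b) * (x a * x b)) = ((x a * x b) * (x a * x b)) * (x a * x t))) {D : ℤ}
    (hD : D % 4 = 2) : goodT x t a b D ∨ goodT x t a b (D - 4) := by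
  by_contra hc
  push Not at hc
  obtain ⟨h1, h2⟩ := hc
  unfold goodT at h1 h2
  push Not at h1 h2
  obtain ⟨h3, h4⟩ := h1
  obtain ⟨h5, h6⟩ := h2
  have hts : ∀ u : Q, (u * x t) ^ 2 = 1 → x t * u * x t = u⁻¹ := by
    intro u hu
    rw [pow_two] at hu
    have h1 : u * (x t * u * x t) = 1 := by
      rw [← hu]
      group
    exact (inv_eq_of_mul_eq_one_right h1).symm
  obtain ⟨n, hn⟩ : ∃ n : ℕ, (D / 2).toNat - 1 = n + 2 := ⟨(D / 2).toNat - 3, by omega⟩
  have hn' : ((D - 4) / 2).toNat - 1 = n := by omega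
  rw [hn] at h4
  rw [hn'] at h6
  have k1 := hts _ h4
  have k2 := hts _ h6
  refine H95.ne_sea Hx h2t (n := 3) (Or.inr rfl) ?_
  show ((x a * x b) ^ 2 * x t) ^ 2 = 1
  set s := x a * x b with hs
  have e1 : x t * s ^ (n + 2) * x t = (x t * s ^ n * x t) * (x t * s ^ 2 * x t) := by
    calc x t * s ^ (n + 2) * x t = x t * s ^ n * (x t * x t) * s ^ 2 * x t := by
          rw [Hx.inv, pow_add]; group
      _ = _ := by group
  rw [e1, k2] at k1
  have e2 : x t * s ^ 2 * x t = (s ^ 2)⁻¹ := by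
    have h7 : x t * s ^ 2 * x t = s ^ n * (s ^ (n + 2))⁻¹ := by
      rw [← k1]; group
    rw [h7, pow_add, mul_inv_rev]
    have h8 : Commute (s ^ n) ((s ^ 2)⁻¹) := ((Commute.refl s).pow_pow n 2).inv_right
    rw [← mul_assoc, h8.eq, mul_assoc, mul_inv_cancel, mul_one]
  calc (s ^ 2 * x t) ^ 2 = s ^ 2 * (x t * s ^ 2 * x t) := by rw [pow_two]; group
    _ = 1 := by rw [e2, mul_inv_cancel]

include Hx in
/-- The words of all strips of the main group. -/
theorem good_all
    (h2t : ¬ ((x a * x t) * ((x a * x b) * (x a * x b)) = ((x a * x b) * (x a * x b)) * (x a * x t))) {D : ℤ}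
    (hD : 6 ≤ D) (hg : goodT x t a b D) (r w : ℕ) (K : ℤ) :
    ((x a * x b) ^ (H84.hwT r w D K - 1) * x t) ^ 2 ≠ 1 := by
  by_cases h0 : K = r + w
  · rw [h0, H84.hwT_wide]
    exact hg hD
  · by_cases h1 : K = r ∨ K = r + 2 * w
    · rw [H84.hwT_three h0 h1]
      exact H95.ne_sea Hx h2t (Or.inr rfl)
    · rw [H84.hwT_two h0 (fun h => h1 (Or.inl h)) (fun h => h1 (Or.inr h))]
      exact H95.ne_sea Hx h2t (Or.inl rfl)

include Hx in
theorem ncen_symm {i j : Fin 3} (h : H59.NCen eps ((x i * x j) * (x i * x j))) :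
    H59.NCen eps ((x j * x i) * (x j * x i)) := by
  obtain ⟨g, hg, hne⟩ := h
  refine ⟨g, hg, fun h => hne ?_⟩
  have hi : ∀ i, (x i)⁻¹ = x i := fun i => inv_eq_of_mul_eq_one_right (Hx.inv i)
  have e : (x j * x i) * (x j * x i) = ((x i * x j) * (x i * x j))⁻¹ := by
    simp only [mul_inv_rev, hi, mul_assoc]
  rw [e] at h
  exact Commute.inv_right_iff.1 h

include Hx in
/-- The kernel is not abelian for every choice of the letters. -/
theorem nc_all (hnc : ¬ Commute (x 0 * x 1) (x 2 * x 1)) {t a b : Fin 3} (hta : t ≠ a) (htb : t ≠ b) (hab : a ≠ b) :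
    ¬ Commute (x a * x b) (x a * x t) := by
  intro hc
  apply hnc
  have hi : ∀ i, (x i)⁻¹ = x i := fun i => inv_eq_of_mul_eq_one_right (Hx.inv i)
  -- all even products of letters are in the subgroup generated by `x a x b`, `x a x t`
  let Z : Subgroup Q := Subgroup.closure {x a * x b, x a * x t}
  have hcomm : ∀ u ∈ Z, ∀ v ∈ Z, u * v = v * u := by
    intro u hu v hv
    have h1 : Z ≤ Subgroup.centralizer ({x a * x b, x a * x t} : Set Q) := by
      rw [Subgroup.closure_le]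
      intro y hy
      rw [SetLike.mem_coe, Subgroup.mem_centralizer_iff]
      intro z hz
      simp only [Set.mem_insert_iff, Set.mem_singleton_iff] at hy hz
      rcases hy with rfl | rfl <;> rcases hz with rfl | rfl
      · rfl
      · exact hc.eq.symm
      · exact hc.eq
      · rfl
    have h2 : ∀ y ∈ Z, y ∈ Subgroup.centralizer ((Z : Set Q)) := by
      intro y hy
      have h3 : Z ≤ Subgroup.centralizer ({y} : Set Q) := by
        rw [Subgroup.closure_le]
        intro z hz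
        rw [SetLike.mem_coe, Subgroup.mem_centralizer_singleton_iff]
        exact (Subgroup.mem_centralizer_iff.1 (h1 hy)) z hz
      rw [Subgroup.mem_centralizer_iff]
      intro z hz
      exact Subgroup.mem_centralizer_singleton_iff.1 (h3 hz)
    exact (Subgroup.mem_centralizer_iff.1 (h2 v hv)) u hu
  have m1 : ∀ i, x a * x i ∈ Z := by
    intro i
    rcases H95.three hta htb hab i with rfl | rfl | rfl
    · exact Subgroup.subset_closure (Or.inr rfl)
    · rw [Hx.inv]
      exact Z.one_mem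
    · exact Subgroup.subset_closure (Or.inl rfl)
  have m2 : ∀ i j, x i * x j ∈ Z := by
    intro i j
    have h := Z.mul_mem (Z.inv_mem (m1 i)) (m1 j)
    have e : (x a * x i)⁻¹ * (x a * x j) = x i * x j := by
      rw [mul_inv_rev, hi, hi, mul_assoc, ← mul_assoc (x a), Hx.inv, one_mul]
    rwa [e] at h
  exact hcomm _ (m2 0 1) _ (m2 2 1)

include Hx in
/-- CASE DISTINCTION: two squares are not central in the kernel, or the base is degenerate, for two letters. -/
theorem deg_or_two (hnc : ¬ Commute (x 0 * x 1) (x 2 * x 1)) :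
    (∃ t₁ t₂ : Fin 3, t₁ ≠ t₂ ∧ ∀ s, s = t₁ ∨ s = t₂ → ∀ a b : Fin 3, s ≠ a → s ≠ b → a ≠ b →
      H59.NCen eps ((x a * x b) * (x a * x b))) ∨
    (∃ t₁ t₂ : Fin 3, t₁ ≠ t₂ ∧ ∀ s, s = t₁ ∨ s = t₂ → ∀ a b : Fin 3, s ≠ a → s ≠ b → a ≠ b →
      H60.Deg (x a) (x b) (x s)) := by
  have hi : ∀ i, (x i)⁻¹ = x i := fun i => inv_eq_of_mul_eq_one_right (Hx.inv i)
  have cen : ∀ {i j : Fin 3}, ¬ H59.NCen eps ((x i * x j) * (x i * x j)) → ∀ g, eps g = 1 →
      Commute ((x i * x j) * (x i * x j)) g := by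
    intro i j h g hg
    by_contra hne
    exact h ⟨g, hg, fun h => hne (show _ = _ from h.symm)⟩
  have key : ∀ q p r : Fin 3, q ≠ p → q ≠ r → p ≠ r → ¬ H59.NCen eps ((x p * x q) * (x p * x q)) →
      ¬ H59.NCen eps ((x p * x r) * (x p * x r)) → ∀ a b : Fin 3, q ≠ a → q ≠ b → a ≠ b →
      H60.Deg (x a) (x b) (x q) := by
    intro q p r h1 h2 h3 c1 c2 a b h4 h5 h6
    have hall : ∀ q p r a b : Fin 3, q ≠ p → q ≠ r → p ≠ r → q ≠ a → q ≠ b → a ≠ b → (a = p ∧ b = r) ∨ (a = r ∧ b = p) := by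
      decide
    rcases hall q p r a b h1 h2 h3 h4 h5 h6 with ⟨rfl, rfl⟩ | ⟨rfl, rfl⟩
    · exact ⟨Hx.inv _, Hx.inv _, Hx.inv _, cen c2 _ (Hx.even _ _), Or.inl (cen c1 _ (Hx.even _ _)),
        nc_all Hx hnc h4 h5 h6⟩
    · exact ⟨Hx.inv _, Hx.inv _, Hx.inv _, cen (fun h => c2 (ncen_symm Hx h)) _ (Hx.even _ _),
        Or.inr (cen c1 _ (Hx.even _ _)), nc_all Hx hnc h4 h5 h6⟩
  by_cases c1 : H59.NCen eps ((x 0 * x 2) * (x 0 * x 2))
  · by_cases c2 : H59.NCen eps ((x 1 * x 2) * (x 1 * x 2))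
    · exact Or.inl (H95.two_letters Hx.inv (Or.inl ⟨c1, c2⟩))
    · by_cases c3 : H59.NCen eps ((x 0 * x 1) * (x 0 * x 1))
      · exact Or.inl (H95.two_letters Hx.inv (Or.inr (Or.inl ⟨c1, c3⟩)))
      · -- `(1 2)`, `(0 1)` central: `p = 1`
        right
        have c3' : ¬ H59.NCen eps ((x 1 * x 0) * (x 1 * x 0)) := fun h => c3 (ncen_symm Hx h)
        refine ⟨0, 2, by decide, ?_⟩
        rintro s (rfl | rfl)
        · exact key 0 1 2 (by decide) (by decide) (by decide) c3' c2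
        · exact key 2 1 0 (by decide) (by decide) (by decide) c2 c3'
  · by_cases c2 : H59.NCen eps ((x 1 * x 2) * (x 1 * x 2))
    · by_cases c3 : H59.NCen eps ((x 0 * x 1) * (x 0 * x 1))
      · exact Or.inl (H95.two_letters Hx.inv (Or.inr (Or.inr ⟨c2, c3⟩)))
      · right
        refine ⟨1, 2, by decide, ?_⟩
        rintro s (rfl | rfl)
        · exact key 1 0 2 (by decide) (by decide) (by decide) c3 c1
        · exact key 2 0 1 (by decide) (by decide) (by decide) c1 c3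
    · right
      have c1' : ¬ H59.NCen eps ((x 2 * x 0) * (x 2 * x 0)) := fun h => c1 (ncen_symm Hx h)
      have c2' : ¬ H59.NCen eps ((x 2 * x 1) * (x 2 * x 1)) := fun h => c2 (ncen_symm Hx h)
      refine ⟨0, 1, by decide, ?_⟩
      rintro s (rfl | rfl)
      · exact key 0 2 1 (by decide) (by decide) (by decide) c1' c2'
      · exact key 1 2 0 (by decide) (by decide) (by decide) c2' c1'

end Pool.Agent.Lib.MP_688fd0_co.SQ5.FT
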