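import Pool.Agent.Lib.MP_688fd0_co.SQ5.H84.BaseFD
import Pool.Agent.Lib.MP_688fd0_co.SQ5.H23.Shrink
import Pool.Agent.Lib.MP_688fd0_co.SQ5.H74.Case1

/-!
FT (threads over far bases), the top theorem (helper62): `InvFarB` from the two branches `LstTS` (two squares are not central in
the kernel of `⟨a, t, b⟩`) and `LstDS` (degenerate base).
-/

set_option autoImplicit false

namespace Pool.Agent.Lib.MP_688fd0_co.SQ5.FT

open Pool.Agent.Lib.MP_688fd0_co.OSF Pool.Agent.Lib.MP_688fd0_co.SQ3 Pool.Agent.Lib.MP_688fd0_co.SQ5.H58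
open Pool.Agent.Lib.MP_688fd0_co.SQ5.H76 Pool.Agent.Lib.MP_688fd0_co.SQ5.H24 Pool.Agent.Lib.MP_688fd0_co.SQ5.H84
open Pool.Agent.Lib.MP_688fd0_co.SQ5.H49.BaseZ Pool.Agent.Lib.MP_688fd0_co.SQ5.H60
open Subgroup

/-- The layout of a branch (output of helper84's `nums_lay`). -/
def BrL {G : Type} [Group G] (eps : G →* ℤˣ) (k : ℕ) (a t b : G) (s a' b' : Fin 3) (m0 : ℕ) (dc : ℕ → ℤ) (D : ℤ)
    (nh m TT Gr K E : ℕ) (Lst0 : Prop) : Prop :=
  ∀ (R : ℕ), m0 + 5 ≤ R → R ≤ m0 + 33 →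
    ∀ g : Geo (Ltc (hhT eps (closure ({a, t, b} : Set G)) ![a, t, b] a' -
        hhT eps (closure ({a, t, b} : Set G)) ![a, t, b] s)
        (hhT eps (closure ({a, t, b} : Set G)) ![a, t, b] b' - hhT eps (closure ({a, t, b} : Set G)) ![a, t, b] s))
      (Nat.card (Th eps (closure ({a, t, b} : Set G)))) R dc (spL m0) Gr,
    Lay g k nh m TT m0 →
    2 * (Nat.card (Th eps (closure ({a, t, b} : Set G))) : ℤ) ≤ (g.i0 + g.j0) * (D + Wg m0 nh k) →
    g.i0 - g.j0 < 2 * K → (E : ℤ) < g.i0 + g.j0 →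
    (g.i0 + g.j0) * K ≤ Nat.card (Th eps (closure ({a, t, b} : Set G))) → Lst0

/-- THE BRANCH T. -/
def LstTS : Prop :=
  ∀ (G : Type) [Group G] [Finite G] (N C : Subgroup G) (eps : G →* ℤˣ) (k P : ℕ) (A : Set G) (c₁ : ℕ) (a t b : G)
    (_ : SQD.Inv N C eps k P A c₁ a t b) (_ : SQD.Marg N k 1) (_ : ∃ g ∈ A, g ∉ closure ({a, t, b} : Set G))
    (H : IvT eps (closure ({a, t, b} : Set G)) ![a, t, b]) (_ : P ∣ Nat.card (closure ({a, t, b} : Set G)))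
    (_ : 0 < Nat.card C * k)
    (_ : ∀ o : ℕ, k * Nat.card C ∣ o → ∀ B : G, B ^ o ∈ N ∧ (∀ g, eps g = 1 → B ^ o * g = g * B ^ o) ∧
        ∀ g, eps g = -1 → g * B ^ o * g⁻¹ = (B ^ o)⁻¹)
    (s a' b' : Fin 3) (_ : s ≠ a') (_ : s ≠ b') (_ : a' ≠ b')
    (_ : H59.NCen (eps0 eps (closure ({a, t, b} : Set G))) ((x0 H a' * x0 H b') * (x0 H a' * x0 H b')))
    (r w n nh m TT Gr K E gap U : ℕ) (D : ℤ) (_ : 1 ≤ r) (_ : k + 2 ≤ w) (_ : 5 ≤ w)
    (_ : (k + (Nat.card G).primeFactorsList.length + 2) ^ 4 ≤ n)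
    (_ : NumT (2 * r + 2 * w + 1) n k (2 * w * Nat.card (KH eps (closure ({a, t, b} : Set G)))) 4 (mmT k)
      (3 * (k * Nat.card C)) (k * Nat.card C) (8 * (3 * (k * Nat.card C))) nh m TT Gr K E gap U)
    (_ : 6 ≤ D) (_ : D % 4 = 2) (_ : goodT (x0 H) s a' b' D),
    BrL eps k a t b s a' b' (2 * r + 2 * w + 1) (dcL (2 * r + 2 * w + 1) (dW (dB r (2 * w)) (r + w) D)) D nh m TT Gr K E
      (Lst A)

/-- THE DEGENERATE BRANCH. -/
def LstDS : Prop :=
  ∀ (G : Type) [Group G] [Finite G] (N C : Subgroup G) (eps : G →* ℤˣ) (k P : ℕ) (A : Set G) (c₁ : ℕ) (a t b : G)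
    (_ : SQD.Inv N C eps k P A c₁ a t b) (_ : SQD.Marg N k 1) (_ : ∃ g ∈ A, g ∉ closure ({a, t, b} : Set G))
    (H : IvT eps (closure ({a, t, b} : Set G)) ![a, t, b]) (_ : P ∣ Nat.card (closure ({a, t, b} : Set G)))
    (_ : 0 < Nat.card C * k)
    (_ : ∀ o : ℕ, k * Nat.card C ∣ o → ∀ B : G, B ^ o ∈ N ∧ (∀ g, eps g = 1 → B ^ o * g = g * B ^ o) ∧
        ∀ g, eps g = -1 → g * B ^ o * g⁻¹ = (B ^ o)⁻¹)
    (s a' b' : Fin 3) (_ : s ≠ a') (_ : s ≠ b') (_ : a' ≠ b') (_ : Deg (x0 H a') (x0 H b') (x0 H s))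
    (r n nh m TT Gr K E gap U : ℕ) (D : ℤ) (_ : 1 ≤ r)
    (_ : (k + (Nat.card G).primeFactorsList.length + 2) ^ 4 ≤ n)
    (_ : NumT (2 * r + 9) n k (8 * Nat.card (KH eps (closure ({a, t, b} : Set G)))) 4 mmD
      (3 * (k * Nat.card C)) (k * Nat.card C) (8 * (3 * (k * Nat.card C))) nh m TT Gr K E gap U)
    (_ : 6 ≤ D) (_ : D % 4 = 0),
    BrL eps k a t b s a' b' (2 * r + 9) (dcL (2 * r + 9) (dW (dD r) (r + 4) D)) D nh m TT Gr K E (Lst A)

/-- FAR-ALL from the two branches and the case `⟨a, t, b⟩ = G`. -/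
theorem invFarB_of (hT : LstTS) (hD : LstDS) (h2 : SQ6.TwoHS) (hN3 : SQD.Near3S) (hF3 : SQD.Far3S) : SQD.InvFarB := by
  obtain ⟨e, he⟩ := nums_lay growK_mmTD 3
  refine ⟨e, fun c₁ => ?_⟩
  obtain ⟨c₀, hc₀⟩ := he c₁
  obtain ⟨c₀', hc₀'⟩ := SQD.case1 h2 hN3 hF3 c₁
  refine ⟨max (max c₀ c₀') 1, ?_⟩
  intro G _ _ N C eps k P A a t b h hM hR _ hP
  classical
  by_cases htop : closure ({a, t, b} : Set G) = ⊤
  · refine hc₀' G N C eps k P A a t b h (hM.mono ((le_max_right _ _).trans (le_max_left _ _))) htop (le_trans ?_ hP)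
    have hk : 0 < k := by
      rw [← h.gn.idx]
      exact Nat.pos_of_ne_zero N.index_ne_zero_of_finite
    exact Nat.pow_le_pow_right (by norm_num) (Nat.pow_le_pow_right (by omega) ((le_max_right _ _).trans (le_max_left _ _)))
  have hk : 0 < k := by
    rw [← h.gn.idx]
    exact Nat.pos_of_ne_zero N.index_ne_zero_of_finite
  have hP' : 2 ^ ((k + (Nat.card G).primeFactorsList.length) ^ c₀) ≤ P :=
    le_trans (Nat.pow_le_pow_right (by norm_num) (Nat.pow_le_pow_right (by omega) ((le_max_left _ _).trans (le_max_left _ _)))) hP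
  obtain ⟨H, hk4, hCk, hKH, hPT, hcen, hlay⟩ := hc₀ G N C eps k P A a t b h hR hP'
  have hout : ∃ g ∈ A, g ∉ closure ({a, t, b} : Set G) := by
    by_contra hcon
    push Not at hcon
    apply htop
    rw [eq_top_iff, ← h.gen, closure_le]
    exact hcon
  have haG : a ∈ closure ({a, t, b} : Set G) := subset_closure (by simp)
  have htG : t ∈ closure ({a, t, b} : Set G) := subset_closure (by simp)
  have hPG : P ∣ Nat.card (closure ({a, t, b} : Set G)) := by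
    refine h.hat.trans ?_
    have h1 := orderOf_dvd_natCard (⟨a * t, mul_mem haG htG⟩ : closure ({a, t, b} : Set G))
    rwa [Subgroup.orderOf_mk] at h1
  have hM1 : SQD.Marg N k 1 := hM.mono (le_max_right _ _)
  have hx : Inv3 (eps0 eps (closure ({a, t, b} : Set G))) (x0 H) := inv3_0 H
  have hnc : ¬ Commute (x0 H 0 * x0 H 1) (x0 H 2 * x0 H 1) := by
    intro hc
    apply h.nab
    have h1 : (x0 H 0 * x0 H 1) * (x0 H 2 * x0 H 1) * (x0 H 0 * x0 H 1)⁻¹ * (x0 H 2 * x0 H 1)⁻¹ = 1 := by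
      rw [hc.eq]; group
    have h3 := congrArg (fun y : closure ({a, t, b} : Set G) => (y : G)) h1
    have h4 : a * t * (b * t) * (a * t)⁻¹ * (b * t)⁻¹ = 1 := h3
    rw [h4]
    exact N.one_mem
  set S := k + (Nat.card G).primeFactorsList.length with hS
  have hS4 : 4 ≤ S := by omega
  have hS3 : 16 * S ≤ S ^ 3 := by
    calc 16 * S ≤ S ^ 2 * S := Nat.mul_le_mul_right _ (by nlinarith)
      _ = S ^ 3 := (pow_succ _ _).symm
  rcases deg_or_two hx hnc with ⟨t₁, t₂, htt, hncen⟩ | ⟨t₁, t₂, htt, hdeg⟩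
  · -- two squares are not central
    obtain ⟨nh, m, TT, Gr, K, E, gap, U, Dn, s, hs, a', b', h1, h2, h3, D, d1, d2, d3, -, R, r1, r2, g, g1, g2, g3, g4,
        g5⟩ := hlay (2 * 1 + 2 * (k + 5) + 1) (1 + (k + 5)) (dB 1 (2 * (k + 5)))
      ((k + (Nat.card G).primeFactorsList.length + 2) ^ 4) (2 * (k + 5)) 2
      (fun s a' b' D => (s = t₁ ∨ s = t₂) → goodT (x0 H) s a' b' D) (by omega) (by omega) (dB_ok _ _)
      (fun j => by unfold dB; split_ifs <;> norm_num) (Or.inr rfl) (by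
        intro s a' b' h1 h2 h3 D hD
        by_cases hs : s = t₁ ∨ s = t₂
        · rcases good_or hx (H95.ncen_at hx h1 h2 h3 (hncen s hs a' b' h1 h2 h3)) hD with h4 | h4
          · exact Or.inl fun _ => h4
          · exact Or.inr fun _ => h4
        · exact Or.inl fun h4 => absurd h4 hs) (by omega) (by omega) le_rfl htt
    exact hT G N C eps k P A c₁ a t b h hM1 hout H hPG hCk hcen s a' b' h1 h2 h3 (hncen s hs a' b' h1 h2 h3) 1 (k + 5)
      _ nh m TT Gr K E gap U D le_rfl (by omega) (by omega) le_rfl (Dn.le_mm (by omega)) d2 d1 (d3 hs) R r1 r2 g g1 g2 g3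
      g4 g5
  · -- the degenerate base
    obtain ⟨nh, m, TT, Gr, K, E, gap, U, Dn, s, hs, a', b', h1, h2, h3, D, d1, d2, d3, -, R, r1, r2, g, g1, g2, g3, g4,
        g5⟩ := hlay (2 * 1 + 9) (1 + 4) (dD 1)
      ((k + (Nat.card G).primeFactorsList.length + 2) ^ 4) 8 0 (fun _ _ _ _ => True) (by omega) (by omega) (dD_ok _)
      (dD_le _) (Or.inl rfl) (fun _ _ _ _ _ _ _ _ => Or.inl trivial) (by omega) (by omega) le_rfl htt
    exact hD G N C eps k P A c₁ a t b h hM1 hout H hPG hCk hcen s a' b' h1 h2 h3 (hdeg s hs a' b' h1 h2 h3) 1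
      _ nh m TT Gr K E gap U D le_rfl le_rfl (Dn.le_mm (by omega)) d2 d1 R r1 r2 g g1 g2 g3 g4 g5

end Pool.Agent.Lib.MP_688fd0_co.SQ5.FT
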