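import Pool.Agent.Lib.MP_688fd0_co.SQ5.H12.Hand
import Pool.Agent.Lib.MP_688fd0_co.SQ5.H22.Trail

/-!
FT (threads over far bases), the zone of a visit (helper62).

`C` = a chart of the strands; the zone of the strand `s` = its blocks `bt s .. tp s`. A visit cuts in every block `m` with
`n1 ≤ m ≤ n2` the edge `ρ m - ρ m + 1` of the strand `c m` and adds the edges `w m - v (m + 1)`. If the hand calculus says that
everything in the blocks `n1 .. n2` is joined to a strand below or above then every vertex of the zone is joined inside the zone to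
the lower or the upper end of a strand.
-/

set_option autoImplicit false

namespace Pool.Agent.Lib.MP_688fd0_co.SQ5.FT

open Function
open Pool.Agent.Lib.MP_688fd0_co.SQ5.H12 Pool.Agent.Lib.MP_688fd0_co.SQ5.H22

variable {V S : Type*}

/-- The vertices of a zone. -/
def Zv (C : Chart V S) (bt tp : S → ℕ) : Set V := {x | ∃ s m r, bt s ≤ m ∧ m ≤ tp s ∧ r ≤ C.h m s ∧ x = C.Z m s r}

/-- A visit in a zone, `E` = the edges after the change. -/
structure Zone (E : V → V → Prop) (C : Chart V S) (bt tp : S → ℕ) (n1 n2 : ℕ) (c : ℕ → S) (ρ : ℕ → ℕ) (al : ℕ → Prop)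
    (v w : ℕ → V) : Prop where
  sym : ∀ x y, E x y → E y x
  le : n1 ≤ n2
  bo1 : ∀ s, bt s < n1
  to2 : ∀ s, n2 < tp s
  line : ∀ m s r, bt s ≤ m → m ≤ tp s → r < C.h m s → ¬ (n1 ≤ m ∧ m ≤ n2 ∧ s = c m ∧ r = ρ m) →
    E (C.Z m s r) (C.Z m s (r + 1))
  gate : ∀ m s, bt s ≤ m → m < tp s → E (C.Z m s (C.h m s)) (C.Z (m + 1) s 0)
  cut : ∀ m, n1 ≤ m → m ≤ n2 → ρ m < C.h m (c m)
  al1 : ∀ m, n1 ≤ m → m ≤ n2 → al m → w m = C.Z m (c m) (ρ m) ∧ v m = C.Z m (c m) (ρ m + 1)
  na1 : ∀ m, n1 ≤ m → m ≤ n2 → ¬ al m → v m = C.Z m (c m) (ρ m) ∧ w m = C.Z m (c m) (ρ m + 1)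
  new : ∀ m, n1 ≤ m → m < n2 → E (w m) (v (m + 1))

namespace Zone

variable {E : V → V → Prop} {C : Chart V S} {bt tp : S → ℕ} {n1 n2 : ℕ} {c : ℕ → S} {ρ : ℕ → ℕ} {al : ℕ → Prop}
  {v w : ℕ → V}

/-- The relation of the hand calculus. -/
def R (E : V → V → Prop) (C : Chart V S) (bt tp : S → ℕ) : V → V → Prop := Cn E (Zv C bt tp)

theorem eqv (h : Zone E C bt tp n1 n2 c ρ al v w) : Equivalence (R E C bt tp) :=
  ⟨fun x => Cn.rfl' x, fun h' => h'.symm' h.sym, fun h1 h2 => h1.trans' h2⟩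

theorem mem {s : S} {m r : ℕ} (h1 : bt s ≤ m) (h2 : m ≤ tp s) (h3 : r ≤ C.h m s) : C.Z m s r ∈ Zv C bt tp :=
  ⟨s, m, r, h1, h2, h3, rfl⟩

theorem seg (h : Zone E C bt tp n1 n2 c ρ al v w) {s : S} {m : ℕ} (h1 : bt s ≤ m) (h2 : m ≤ tp s) {r : ℕ} :
    ∀ r' ≤ C.h m s, r ≤ r' → (∀ t, r ≤ t → t < r' → ¬ (n1 ≤ m ∧ m ≤ n2 ∧ s = c m ∧ t = ρ m)) →
      R E C bt tp (C.Z m s r) (C.Z m s r') := by
  intro r'
  induction r' with
  | zero =>
    intro _ h4 _
    obtain rfl : r = 0 := by omega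
    exact Cn.rfl' _
  | succ r' ih =>
    intro h3 h4 h5
    rcases Nat.lt_or_ge r (r' + 1) with h6 | h6
    · have h7 := ih (by omega) (by omega) fun t ht1 ht2 => h5 t ht1 (by omega)
      refine h7.trans' (Cn.of (h.line m s r' h1 h2 (by omega) (h5 r' (by omega) (by omega))) (mem h1 h2 (by omega))
        (mem h1 h2 (by omega)))
    · obtain rfl : r = r' + 1 := by omega
      exact Cn.rfl' _

theorem gat (h : Zone E C bt tp n1 n2 c ρ al v w) {s : S} {m : ℕ} (h1 : bt s ≤ m) (h2 : m < tp s) :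
    R E C bt tp (C.Z m s (C.h m s)) (C.Z (m + 1) s 0) :=
  Cn.of (h.gate m s h1 h2) (mem h1 h2.le le_rfl) (mem (by omega) h2 (Nat.zero_le _))

/-- The visit. -/
theorem visit (h : Zone E C bt tp n1 n2 c ρ al v w) : Visit (R E C bt tp) (fun l s => C.Z (n1 + l) s 0)
    (fun l s => C.Z (n1 + l) s (C.h (n1 + l) s)) (fun l => v (n1 + l)) (fun l => w (n1 + l)) (fun l => c (n1 + l))
    (fun l => al (n1 + l)) (n2 - n1 + 1) := by
  have hle := h.le
  refine ⟨h.eqv, ?_, ?_, ?_, ?_, ?_, ?_, ?_⟩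
  · intro l hl s hs
    have h1 := h.bo1 s
    have h2 := h.to2 s
    exact h.seg (by omega) (by omega) _ le_rfl (Nat.zero_le _) fun t _ _ h3 => hs h3.2.2.1
  · intro l hl s
    have h1 := h.bo1 s
    have h2 := h.to2 s
    exact h.gat (by omega) (by omega)
  · intro l hl
    have h1 := h.bo1 (c (n1 + l))
    have h2 := h.to2 (c (n1 + l))
    have h3 := h.bo1 (c (n1 + l + 1))
    have h4 := h.to2 (c (n1 + l + 1))
    have hw : w (n1 + l) ∈ Zv C bt tp := by
      have hc := h.cut (n1 + l) (by omega) (by omega)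
      by_cases ha : al (n1 + l)
      · rw [(h.al1 _ (by omega) (by omega) ha).1]
        exact mem (by omega) (by omega) hc.le
      · rw [(h.na1 _ (by omega) (by omega) ha).2]
        exact mem (by omega) (by omega) hc
    have hv : v (n1 + l + 1) ∈ Zv C bt tp := by
      have hc := h.cut (n1 + l + 1) (by omega) (by omega)
      by_cases ha : al (n1 + l + 1)
      · rw [(h.al1 _ (by omega) (by omega) ha).2]
        exact mem (by omega) (by omega) hc
      · rw [(h.na1 _ (by omega) (by omega) ha).1]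
        exact mem (by omega) (by omega) hc.le
    exact Cn.of (h.new (n1 + l) (by omega) (by omega)) hw hv
  · intro l hl ha
    have h1 := h.bo1 (c (n1 + l))
    have h2 := h.to2 (c (n1 + l))
    have hc := h.cut (n1 + l) (by omega) (by omega)
    show R E C bt tp (C.Z (n1 + l) (c (n1 + l)) 0) (w (n1 + l))
    rw [(h.al1 _ (by omega) (by omega) ha).1]
    exact h.seg (by omega) (by omega) _ hc.le (Nat.zero_le _) fun t _ ht h3 => by
      have := h3.2.2.2
      omega
  · intro l hl ha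
    have h1 := h.bo1 (c (n1 + l))
    have h2 := h.to2 (c (n1 + l))
    have hc := h.cut (n1 + l) (by omega) (by omega)
    show R E C bt tp (v (n1 + l)) (C.Z (n1 + l) (c (n1 + l)) (C.h (n1 + l) (c (n1 + l))))
    rw [(h.al1 _ (by omega) (by omega) ha).2]
    exact h.seg (by omega) (by omega) _ le_rfl hc fun t ht _ h3 => by
      have := h3.2.2.2
      omega
  · intro l hl ha
    have h1 := h.bo1 (c (n1 + l))
    have h2 := h.to2 (c (n1 + l))
    have hc := h.cut (n1 + l) (by omega) (by omega)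
    show R E C bt tp (C.Z (n1 + l) (c (n1 + l)) 0) (v (n1 + l))
    rw [(h.na1 _ (by omega) (by omega) ha).1]
    exact h.seg (by omega) (by omega) _ hc.le (Nat.zero_le _) fun t _ ht h3 => by
      have := h3.2.2.2
      omega
  · intro l hl ha
    have h1 := h.bo1 (c (n1 + l))
    have h2 := h.to2 (c (n1 + l))
    have hc := h.cut (n1 + l) (by omega) (by omega)
    show R E C bt tp (w (n1 + l)) (C.Z (n1 + l) (c (n1 + l)) (C.h (n1 + l) (c (n1 + l))))
    rw [(h.na1 _ (by omega) (by omega) ha).2]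
    exact h.seg (by omega) (by omega) _ le_rfl hc fun t ht _ h3 => by
      have := h3.2.2.2
      omega

/-- Down tp the lower end. -/
theorem to_bot (h : Zone E C bt tp n1 n2 c ρ al v w) (s : S) : ∀ m, bt s ≤ m → m ≤ n1 → ∀ r ≤ C.h m s, (m < n1 ∨ r = 0) →
    R E C bt tp (C.Z m s r) (C.Z (bt s) s 0) := by
  intro m
  have h1 := h.bo1 s
  have h2 := h.to2 s
  have hle := h.le
  induction m with
  | zero =>
    intro h3 h4 r hr h5
    have h6 : bt s = 0 := by omega
    rw [h6]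
    refine (h.seg (by omega) (by omega) r hr (Nat.zero_le _) fun t _ _ h7 => ?_).symm' h.sym
    omega
  | succ m ih =>
    intro h3 h4 r hr h5
    have hl : R E C bt tp (C.Z (m + 1) s r) (C.Z (m + 1) s 0) := by
      refine (h.seg (by omega) (by omega) r hr (Nat.zero_le _) fun t _ ht h7 => ?_).symm' h.sym
      omega
    rcases Nat.lt_or_ge m (bt s) with h6 | h6
    · have h7 : bt s = m + 1 := by omega
      rw [h7]
      exact hl
    · exact (hl.trans' ((h.gat h6 (by omega)).symm' h.sym)).trans' (ih h6 (by omega) _ le_rfl (Or.inl (by omega)))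

/-- Up tp the upper end. -/
theorem to_top (h : Zone E C bt tp n1 n2 c ρ al v w) (s : S) : ∀ d m, m + d = tp s → n2 ≤ m → ∀ r ≤ C.h m s,
    (n2 < m ∨ r = C.h m s) → R E C bt tp (C.Z m s r) (C.Z (tp s) s (C.h (tp s) s)) := by
  intro d
  have h1 := h.bo1 s
  have h2 := h.to2 s
  have hle := h.le
  induction d with
  | zero =>
    intro m h3 h4 r hr h5
    have h6 : m = tp s := by omega
    subst h6
    exact h.seg (by omega) le_rfl _ le_rfl hr fun t _ _ h7 => by omega
  | succ d ih =>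
    intro m h3 h4 r hr h5
    have hl : R E C bt tp (C.Z m s r) (C.Z m s (C.h m s)) :=
      h.seg (by omega) (by omega) _ le_rfl hr fun t ht1 ht2 h7 => by omega
    exact (hl.trans' (h.gat (by omega) (by omega))).trans' (ih (m + 1) (by omega) (by omega) 0 (Nat.zero_le _)
      (Or.inl (by omega)))

/-- The ends of a zone. -/
def End (E : V → V → Prop) (C : Chart V S) (bt tp : S → ℕ) (x : V) : Prop :=
  ∃ s, Cn E (Zv C bt tp) x (C.Z (bt s) s 0) ∨ Cn E (Zv C bt tp) x (C.Z (tp s) s (C.h (tp s) s))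

theorem end_of_term (h : Zone E C bt tp n1 n2 c ρ al v w) {x : V} (hx : Visit.Term (R E C bt tp)
    (fun l s => C.Z (n1 + l) s 0) (fun l s => C.Z (n1 + l) s (C.h (n1 + l) s)) (n2 - n1 + 1) x) : End E C bt tp x := by
  have hle := h.le
  rcases hx with ⟨s, hs⟩ | ⟨s, hs⟩
  · have h1 := h.bo1 s
    refine ⟨s, Or.inl (Cn.trans' hs (h.to_bot s (n1 + 0) (by omega) (by omega) 0 (Nat.zero_le _) (Or.inr rfl)))⟩
  · have h2 := h.to2 s
    have e : n1 + (n2 - n1 + 1 - 1) = n2 := by omega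
    simp only [e] at hs
    exact ⟨s, Or.inr (Cn.trans' hs (h.to_top s (tp s - n2) n2 (by omega) le_rfl _ le_rfl (Or.inr rfl)))⟩

/-- ZONE: every vertex of the zone is joined inside the zone to an end. -/
theorem all (h : Zone E C bt tp n1 n2 c ρ al v w)
    (hT : ∀ l < n2 - n1 + 1, ∀ s, Visit.Term (R E C bt tp) (fun l s => C.Z (n1 + l) s 0)
      (fun l s => C.Z (n1 + l) s (C.h (n1 + l) s)) (n2 - n1 + 1) (C.Z (n1 + l) s 0) ∧
      Visit.Term (R E C bt tp) (fun l s => C.Z (n1 + l) s 0) (fun l s => C.Z (n1 + l) s (C.h (n1 + l) s)) (n2 - n1 + 1)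
        (C.Z (n1 + l) s (C.h (n1 + l) s))) :
    ∀ x ∈ Zv C bt tp, End E C bt tp x := by
  have hle := h.le
  rintro x ⟨s, m, r, h1, h2, h3, rfl⟩
  have hb := h.bo1 s
  have ht := h.to2 s
  have tr : ∀ {x y : V}, R E C bt tp x y → End E C bt tp y → End E C bt tp x := by
    rintro x y hxy ⟨s, hs | hs⟩
    · exact ⟨s, Or.inl (hxy.trans' hs)⟩
    · exact ⟨s, Or.inr (hxy.trans' hs)⟩
  rcases Nat.lt_or_ge m n1 with h4 | h4
  · exact ⟨s, Or.inl (h.to_bot s m h1 h4.le r h3 (Or.inl h4))⟩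
  rcases Nat.lt_or_ge n2 m with h5 | h5
  · exact ⟨s, Or.inr (h.to_top s (tp s - m) m (by omega) h5.le r h3 (Or.inl h5))⟩
  obtain ⟨l, rfl⟩ : ∃ l, m = n1 + l := ⟨m - n1, by omega⟩
  obtain ⟨t1, t2⟩ := hT l (by omega) s
  by_cases hs : s = c (n1 + l) ∧ ρ (n1 + l) < r
  · refine tr (h.seg h1 h2 _ le_rfl h3 fun t ht1 _ h7 => ?_) (h.end_of_term t2)
    have := h7.2.2.2
    omega
  · refine tr ((h.seg h1 h2 (r := 0) r h3 (Nat.zero_le _) fun t _ ht2 h7 => ?_).symm' h.sym) (h.end_of_term t1)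
    apply hs
    refine ⟨h7.2.2.1, ?_⟩
    have := h7.2.2.2
    omega

end Zone

end Pool.Agent.Lib.MP_688fd0_co.SQ5.FT
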